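import Mathlib
import Pool.Graph.R_pool_sql_team_seeded_c8625f6e.K4H66.RV.A3
set_option autoImplicit false

/-! The mixed norm estimate for the parabola, for functions with values in `L²(dy)`. -/

namespace H26.MX

open MeasureTheory Complex Set Filter Topology
open scoped ENNReal ComplexConjugate
open Pool.Agent.R412.RT (ee ee_norm ee_add ee_conj ee_meas ee_cont)
open Pool.Agent.R412.RH (planch1)
open Pool.Agent.K4H66.RV (Qf dph Ker VP Pf Pf_meas cs_half mx0 Ef pph Ef_meas pph_int Ef_le volA)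

/-- square of the `L²(dy)` norm of the extension in the first variable -/
noncomputable def H2 (F : ℝ × ℝ → ℂ) (τ : ℝ × ℝ) : ℝ≥0∞ :=
  ∫⁻ y, ‖Pf (fun x => F (x, y)) τ.1 τ.2‖ₑ ^ 2

/-- square of the `L²(dy)` norm -/
noncomputable def N2 (F : ℝ × ℝ → ℂ) (x : ℝ) : ℝ≥0∞ := ∫⁻ y, ‖F (x, y)‖ₑ ^ 2

theorem PfF_meas (F : ℝ × ℝ → ℂ) (hF : Measurable F) :
    Measurable fun z : (ℝ × ℝ) × ℝ => Pf (fun x => F (x, z.2)) z.1.1 z.1.2 := by
  have : StronglyMeasurable (Function.uncurry fun (z : (ℝ × ℝ) × ℝ) (x : ℝ) =>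
      ee (x * z.1.1 + x ^ 2 * z.1.2) * F (x, z.2)) := by
    refine Measurable.stronglyMeasurable (Measurable.mul (ee_meas.comp ?_) (hF.comp ?_))
    · fun_prop
    · fun_prop
  exact this.integral_prod_right.measurable

theorem H2_meas (F : ℝ × ℝ → ℂ) (hF : Measurable F) : Measurable (H2 F) :=
  ((PfF_meas F hF).enorm.pow_const 2).lintegral_prod_right'

theorem N2_meas (F : ℝ × ℝ → ℂ) (hF : Measurable F) : Measurable (N2 F) :=
  (hF.enorm.pow_const 2).lintegral_prod_right'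

theorem Pf_undef (u : ℝ → ℂ) (hu : Measurable u) (h : ¬ Integrable u) (α t : ℝ) :
    Pf u α t = 0 := by
  unfold Pf
  refine integral_undef fun h1 => h ?_
  refine h1.norm.mono' hu.aestronglyMeasurable (Eventually.of_forall fun x => ?_)
  rw [norm_mul, ee_norm, one_mul]

/-- Plancherel in one variable -/
theorem pl1 (u : ℝ → ℂ) (hu : Measurable u) (t : ℝ) :
    ∫⁻ α, ‖Pf u α t‖ₑ ^ 2 ≤ ∫⁻ x, ‖u x‖ₑ ^ 2 := by
  by_cases h : Integrable u
  · have hi : Integrable fun x => ee (x ^ 2 * t) * u x := by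
      refine h.bdd_mul (c := 1) ?_ (Eventually.of_forall fun x => (ee_norm _).le)
      exact (ee_meas.comp (by fun_prop)).aestronglyMeasurable
    have h := planch1 _ hi
    calc ∫⁻ α, ‖Pf u α t‖ₑ ^ 2 = ∫⁻ β : ℝ, ‖∫ x, ee (x * β) * (ee (x ^ 2 * t) * u x)‖ₑ ^ 2 := by
          refine lintegral_congr fun α => ?_
          unfold Pf
          simp_rw [← mul_assoc, ← ee_add]
      _ ≤ ∫⁻ x, ‖ee (x ^ 2 * t) * u x‖ₑ ^ 2 := h
      _ = ∫⁻ x, ‖u x‖ₑ ^ 2 := by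
          refine lintegral_congr fun x => ?_
          rw [enorm_mul, ← ofReal_norm (ee _), ee_norm, ENNReal.ofReal_one, one_mul]
  · simp [Pf_undef u hu h]

theorem H2_one (F : ℝ × ℝ → ℂ) (hF : Measurable F) (t : ℝ) :
    ∫⁻ α, H2 F (α, t) ≤ ∫⁻ x, N2 F x := by
  have e1 : ∫⁻ α, H2 F (α, t) = ∫⁻ y, ∫⁻ α, ‖Pf (fun x => F (x, y)) α t‖ₑ ^ 2 := by
    unfold H2
    refine lintegral_lintegral_swap (f := fun α y => ‖Pf (fun x => F (x, y)) α t‖ₑ ^ 2) ?_
    have hg : Measurable fun z : ℝ × ℝ => (((z.1, t), z.2) : (ℝ × ℝ) × ℝ) := by fun_prop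
    exact (((PfF_meas F hF).enorm.pow_const 2).comp hg).aemeasurable
  have e2 : ∫⁻ x, N2 F x = ∫⁻ y, ∫⁻ x, ‖F (x, y)‖ₑ ^ 2 := by
    unfold N2
    exact lintegral_lintegral_swap (f := fun x y => ‖F (x, y)‖ₑ ^ 2)
      (hF.enorm.pow_const 2).aemeasurable
  rw [e1, e2]
  refine lintegral_mono fun y => ?_
  have hg : Measurable fun x : ℝ => (x, y) := measurable_prodMk_right
  exact pl1 _ (hF.comp hg) t

/-- the kernel -/
noncomputable def Kf (F : ℝ × ℝ → ℂ) (p : ℝ × ℝ) : ℂ := ∫ y, F (p.1, y) * conj (F (p.2, y))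

theorem conj_meas : Measurable fun z : ℂ => conj z := Complex.continuous_conj.measurable

theorem FF_meas (F : ℝ × ℝ → ℂ) (hF : Measurable F) :
    Measurable fun z : (ℝ × ℝ) × ℝ => F (z.1.1, z.2) * conj (F (z.1.2, z.2)) := by
  refine Measurable.mul (hF.comp (by fun_prop)) (conj_meas.comp (hF.comp ?_))
  fun_prop

theorem cs2 (f g : ℝ → ℝ≥0∞) (hf : Measurable f) (hg : Measurable g) :
    (∫⁻ y, f y * g y) ^ 2 ≤ (∫⁻ y, f y ^ 2) * ∫⁻ y, g y ^ 2 := by
  have h2 := ENNReal.lintegral_mul_le_Lp_mul_Lq (volume : Measure ℝ) (p := 2) (q := 2)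
      (Real.HolderConjugate.two_two) (f := f) (g := g) hf.aemeasurable hg.aemeasurable
  refine (pow_le_pow_left' h2 2).trans (le_of_eq ?_)
  rw [mul_pow, Pool.Agent.K4H66.RV.half_two', Pool.Agent.K4H66.RV.half_two']
  simp only [ENNReal.rpow_two]

theorem Kf_le (F : ℝ × ℝ → ℂ) (hF : Measurable F) (h1 : ∀ x, N2 F x ≤ 1) (p : ℝ × ℝ) :
    ∫⁻ y, ‖F (p.1, y)‖ₑ * ‖F (p.2, y)‖ₑ ≤ 1 := by
  have h := cs2 (fun y => ‖F (p.1, y)‖ₑ) (fun y => ‖F (p.2, y)‖ₑ)
    (hF.comp measurable_prodMk_left).enorm (hF.comp measurable_prodMk_left).enorm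
  have h2 : (∫⁻ y, ‖F (p.1, y)‖ₑ * ‖F (p.2, y)‖ₑ) ^ 2 ≤ 1 := by
    refine h.trans ?_
    calc (∫⁻ y, ‖F (p.1, y)‖ₑ ^ 2) * ∫⁻ y, ‖F (p.2, y)‖ₑ ^ 2 ≤ 1 * 1 :=
          mul_le_mul' (h1 p.1) (h1 p.2)
      _ = 1 := one_mul 1
  by_contra hlt
  rw [not_le] at hlt
  have h3 : 1 < (∫⁻ y, ‖F (p.1, y)‖ₑ * ‖F (p.2, y)‖ₑ) ^ 2 := one_lt_pow₀ hlt two_ne_zero
  exact absurd h2 (not_le.2 h3)

theorem Kf_ker (A : Set ℝ) (F : ℝ × ℝ → ℂ) (hF : Measurable F) (h1 : ∀ x, N2 F x ≤ 1)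
    (hs : ∀ x y, x ∉ A → F (x, y) = 0) : Ker A (Kf F) := by
  refine ⟨?_, ?_, ?_⟩
  · exact (FF_meas F hF).stronglyMeasurable.integral_prod_right.measurable
  · intro p
    have h2 : ‖Kf F p‖ₑ ≤ 1 := by
      unfold Kf
      refine (enorm_integral_le_lintegral_enorm _).trans (le_trans (le_of_eq ?_)
        (Kf_le F hF h1 p))
      refine lintegral_congr fun y => ?_
      rw [enorm_mul, RCLike.enorm_conj]
    rw [← ofReal_norm, ← ENNReal.ofReal_one] at h2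
    exact (ENNReal.ofReal_le_ofReal_iff zero_le_one).1 h2
  · intro p hp
    unfold Kf at hp
    constructor
    · by_contra hn
      refine hp ?_
      simp [hs p.1 _ hn]
    · by_contra hn
      refine hp ?_
      simp [hs p.2 _ hn]

theorem Qf_Kf (A : Set ℝ) (hA : MeasurableSet A) (hA1 : A ⊆ Icc (-(1 / 2)) (1 / 2))
    (F : ℝ × ℝ → ℂ) (hF : Measurable F) (h1 : ∀ x, N2 F x ≤ 1)
    (hs : ∀ x y, x ∉ A → F (x, y) = 0) (τ : ℝ × ℝ) : ‖Qf (Kf F) τ‖ₑ = H2 F τ := by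
  set G : (ℝ × ℝ) → ℝ → ℂ := fun p y => ee (dph τ p) * (F (p.1, y) * conj (F (p.2, y))) with hG
  have hGm : Measurable (Function.uncurry G) := by
    refine Measurable.mul (ee_meas.comp ?_) (FF_meas F hF)
    unfold dph
    fun_prop
  have hGi : Integrable (Function.uncurry G) (volume.prod volume) := by
    refine ⟨hGm.aestronglyMeasurable, ?_⟩
    rw [hasFiniteIntegral_iff_enorm, lintegral_prod _ hGm.enorm.aemeasurable]
    have hle : ∀ p : ℝ × ℝ, ∫⁻ y, ‖Function.uncurry G (p, y)‖ₑ ≤ (A ×ˢ A).indicator 1 p := by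
      intro p
      have e : ∀ y, ‖Function.uncurry G (p, y)‖ₑ = ‖F (p.1, y)‖ₑ * ‖F (p.2, y)‖ₑ := by
        intro y
        show ‖ee (dph τ p) * (F (p.1, y) * conj (F (p.2, y)))‖ₑ = _
        rw [enorm_mul, enorm_mul, RCLike.enorm_conj, ← ofReal_norm (ee _), ee_norm,
          ENNReal.ofReal_one, one_mul]
      simp_rw [e]
      by_cases hp : p ∈ A ×ˢ A
      · rw [indicator_of_mem hp]
        exact Kf_le F hF h1 p
      · rw [indicator_of_notMem hp]
        rw [mem_prod, not_and_or] at hp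
        rcases hp with hp | hp
        · simp [hs _ _ hp]
        · simp [hs _ _ hp]
    refine (lintegral_mono hle).trans_lt ?_
    rw [lintegral_indicator_one (hA.prod hA), Measure.volume_eq_prod, Measure.prod_prod]
    exact ENNReal.mul_lt_top ((volA hA1).trans_lt ENNReal.one_lt_top)
      ((volA hA1).trans_lt ENNReal.one_lt_top)
  have e1 : Qf (Kf F) τ = ∫ y, ∫ p, G p y := by
    have hsw := integral_integral_swap hGi
    rw [← hsw]
    unfold Qf Kf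
    refine integral_congr_ae (Eventually.of_forall fun p => ?_)
    show _ = ∫ y, ee (dph τ p) * (F (p.1, y) * conj (F (p.2, y)))
    rw [integral_const_mul]
  have e2 : ∀ y, ∫ p, G p y = ((‖Pf (fun x => F (x, y)) τ.1 τ.2‖ ^ 2 : ℝ) : ℂ) := by
    intro y
    have h2 : ∀ p : ℝ × ℝ, G p y =
        (ee (p.1 * τ.1 + p.1 ^ 2 * τ.2) * F (p.1, y)) *
          conj (ee (p.2 * τ.1 + p.2 ^ 2 * τ.2) * F (p.2, y)) := by
      intro p
      show ee (dph τ p) * (F (p.1, y) * conj (F (p.2, y))) = _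
      rw [map_mul, ee_conj]
      have : dph τ p = (p.1 * τ.1 + p.1 ^ 2 * τ.2) + -(p.2 * τ.1 + p.2 ^ 2 * τ.2) := by
        unfold dph; ring
      rw [this, ee_add]
      ring
    simp_rw [h2]
    rw [Measure.volume_eq_prod, integral_prod_mul
      (fun x => ee (x * τ.1 + x ^ 2 * τ.2) * F (x, y))
      (fun x => conj (ee (x * τ.1 + x ^ 2 * τ.2) * F (x, y))), integral_conj]
    show Pf (fun x => F (x, y)) τ.1 τ.2 * conj (Pf (fun x => F (x, y)) τ.1 τ.2) = _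
    rw [Complex.mul_conj, Complex.normSq_eq_norm_sq]
  have hi : Integrable fun y => ‖Pf (fun x => F (x, y)) τ.1 τ.2‖ ^ 2 := by
    have h3 := hGi.integral_prod_right
    have h4 : Integrable fun y => ((‖Pf (fun x => F (x, y)) τ.1 τ.2‖ ^ 2 : ℝ) : ℂ) := by
      refine h3.congr (Eventually.of_forall fun y => ?_)
      exact e2 y
    exact h4.re
  rw [e1]
  simp_rw [e2]
  rw [integral_complex_ofReal, ← ofReal_norm, Complex.norm_real, Real.norm_of_nonneg
    (integral_nonneg fun y => by positivity), ofReal_integral_eq_lintegral_ofReal hi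
    (Eventually.of_forall fun y => by positivity)]
  unfold H2
  refine lintegral_congr fun y => ?_
  rw [ENNReal.ofReal_pow (norm_nonneg _), ofReal_norm]

theorem hold1 (q κ : ℝ) (hq : 2 < q) (hκ : 1 ≤ κ) (f : ℝ → ℝ≥0∞) (hf : Measurable f) :
    (∫⁻ α, f α ^ (q / 2)) ^ κ ≤ (∫⁻ α, f α) ^ (κ - 1) * ∫⁻ α, f α ^ (1 + κ * (q - 2) / 2) := by
  have hκ0 : 0 < κ := by linarith
  have hs : 0 ≤ 1 + κ * (q - 2) / 2 := by nlinarith
  have h := ENNReal.lintegral_mul_norm_pow_le (μ := (volume : Measure ℝ)) (f := f)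
    (g := fun α => f α ^ (1 + κ * (q - 2) / 2)) hf.aemeasurable (hf.pow_const _).aemeasurable
    (p := 1 - 1 / κ) (q := 1 / κ) (by rw [sub_nonneg, div_le_one hκ0]; exact hκ) (by positivity)
    (by ring)
  have e1 : ∀ x : ℝ≥0∞, x ^ (1 - 1 / κ) * (x ^ (1 + κ * (q - 2) / 2)) ^ (1 / κ) = x ^ (q / 2) := by
    intro x
    rw [← ENNReal.rpow_mul, ← ENNReal.rpow_add_of_nonneg _ _
      (by rw [sub_nonneg, div_le_one hκ0]; exact hκ) (by positivity)]
    congr 1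
    field_simp
    ring
  simp only [e1] at h
  refine (ENNReal.rpow_le_rpow h hκ0.le).trans (le_of_eq ?_)
  rw [ENNReal.mul_rpow_of_nonneg _ _ hκ0.le, ← ENNReal.rpow_mul, ← ENNReal.rpow_mul]
  rw [show (1 - 1 / κ) * κ = κ - 1 by field_simp, show 1 / κ * κ = 1 by field_simp,
    ENNReal.rpow_one]

/-- restricted mixed norm estimate for functions with values in `L²(dy)` -/
theorem mixedH (q κ : ℝ) (hq : 2 < q) (hκ : 1 ≤ κ) (hqκ : 2 < κ * (q - 2)) :
    ∃ C : ℝ≥0∞, C ≠ ∞ ∧ ∀ (A : Set ℝ) (F : ℝ × ℝ → ℂ),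
    MeasurableSet A → A ⊆ Icc (-(1 / 2)) (1 / 2) → Measurable F → (∀ x, N2 F x ≤ 1) →
    (∀ x y, x ∉ A → F (x, y) = 0) →
    ∫⁻ t, (∫⁻ α, H2 F (α, t) ^ (q / 2)) ^ κ ≤ C * volume A ^ (κ * q / 2 - 1) := by
  set s : ℝ := 1 + κ * (q - 2) / 2 with hs'
  obtain ⟨C, hC, h⟩ := VP s (by rw [hs']; linarith)
  refine ⟨C, hC, ?_⟩
  intro A F hA hA1 hF h1 hs
  have hm := H2_meas F hF
  have h5 := h A hA hA1 (Kf F) (Kf_ker A F hF h1 hs)
  have hN : ∫⁻ x, N2 F x ≤ volume A := by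
    rw [← lintegral_indicator_one hA]
    refine lintegral_mono fun x => ?_
    by_cases hx : x ∈ A
    · rw [indicator_of_mem hx]; exact h1 x
    · rw [indicator_of_notMem hx]
      unfold N2
      simp [hs x _ hx]
  have h6 : ∀ t, (∫⁻ α, H2 F (α, t) ^ (q / 2)) ^ κ ≤
      volume A ^ (κ - 1) * ∫⁻ α, H2 F (α, t) ^ s := by
    intro t
    refine (hold1 q κ hq hκ (fun α => H2 F (α, t)) (hm.comp (by fun_prop))).trans ?_
    refine mul_le_mul_left ?_ _
    exact ENNReal.rpow_le_rpow ((H2_one F hF t).trans hN) (by linarith)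
  refine (lintegral_mono h6).trans ?_
  have hm2 := hm.pow_const s
  rw [lintegral_const_mul]
  · have h7 : ∫⁻ t, ∫⁻ α, H2 F (α, t) ^ s = ∫⁻ τ : ℝ × ℝ, ‖Qf (Kf F) τ‖ₑ ^ s := by
      simp_rw [Qf_Kf A hA hA1 F hF h1 hs]
      rw [Measure.volume_eq_prod, lintegral_prod_symm _ hm2.aemeasurable]
    rw [h7]
    refine (mul_le_mul_right h5 _).trans (le_of_eq ?_)
    have e : volume A ^ (κ - 1) * volume A ^ (s - 1) = volume A ^ (κ * q / 2 - 1) := by
      rw [← ENNReal.rpow_add_of_nonneg _ _ (by linarith) (by rw [hs']; linarith)]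
      congr 1
      rw [hs']
      ring
    rw [← e]
    ring
  · exact (hm2.comp measurable_swap).lintegral_prod_right'

end H26.MX
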