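import Mathlib
import Pool.Agent.H26.MX.M1
set_option autoImplicit false

/-! Mixed norms of nonnegative functions. -/

namespace H26.MX

open MeasureTheory Complex Set Filter Topology
open scoped ENNReal

/-- Minkowski's inequality for finite sums -/
theorem mink_fin {Ω : Type*} [MeasurableSpace Ω] (μ : Measure Ω) (p : ℝ) (hp : 1 ≤ p)
    (u : ℕ → Ω → ℝ≥0∞) (hu : ∀ j, Measurable (u j)) (n : ℕ) :
    (∫⁻ x, (∑ j ∈ Finset.range n, u j x) ^ p ∂μ) ^ (1 / p) ≤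
      ∑ j ∈ Finset.range n, (∫⁻ x, u j x ^ p ∂μ) ^ (1 / p) := by
  induction n with
  | zero =>
    have hp0 : 0 < p := by linarith
    simp [ENNReal.zero_rpow_of_pos hp0, ENNReal.zero_rpow_of_pos (inv_pos.2 hp0)]
  | succ n ih =>
    simp only [Finset.sum_range_succ]
    have h := ENNReal.lintegral_Lp_add_le (μ := μ) (p := p)
      (f := fun x => ∑ j ∈ Finset.range n, u j x) (g := u n)
      (Finset.measurable_sum _ fun j _ => hu j).aemeasurable (hu n).aemeasurable hp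
    refine h.trans ?_
    gcongr

/-- Minkowski's inequality for countable sums -/
theorem mink {Ω : Type*} [MeasurableSpace Ω] (μ : Measure Ω) (p : ℝ) (hp : 1 ≤ p)
    (u : ℕ → Ω → ℝ≥0∞) (hu : ∀ j, Measurable (u j)) :
    (∫⁻ x, (∑' j, u j x) ^ p ∂μ) ^ (1 / p) ≤ ∑' j, (∫⁻ x, u j x ^ p ∂μ) ^ (1 / p) := by
  have hp0 : 0 < p := by linarith
  have h1 : ∀ x, (∑' j, u j x) ^ p = ⨆ n, (∑ j ∈ Finset.range n, u j x) ^ p := by
    intro x
    rw [ENNReal.tsum_eq_iSup_nat]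
    exact (ENNReal.orderIsoRpow p hp0).map_iSup _
  have h2 : ∫⁻ x, (∑' j, u j x) ^ p ∂μ =
      ⨆ n, ∫⁻ x, (∑ j ∈ Finset.range n, u j x) ^ p ∂μ := by
    simp_rw [h1]
    refine lintegral_iSup (fun n => (Finset.measurable_sum _ fun j _ => hu j).pow_const p) ?_
    intro m n hmn x
    refine ENNReal.rpow_le_rpow ?_ hp0.le
    exact Finset.sum_le_sum_of_subset (Finset.range_mono hmn)
  rw [h2]
  have h3 : (⨆ n, ∫⁻ x, (∑ j ∈ Finset.range n, u j x) ^ p ∂μ) ^ (1 / p) =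
      ⨆ n, (∫⁻ x, (∑ j ∈ Finset.range n, u j x) ^ p ∂μ) ^ (1 / p) :=
    (ENNReal.orderIsoRpow (1 / p) (by positivity)).map_iSup _
  rw [h3]
  refine iSup_le fun n => (mink_fin μ p hp u hu n).trans ?_
  exact ENNReal.sum_le_tsum _

/-- the mixed norm `L^{κ q}_t L^q_α` -/
noncomputable def Ph (κ q : ℝ) (u : ℝ × ℝ → ℝ≥0∞) : ℝ≥0∞ :=
  (∫⁻ t, (∫⁻ α, u (α, t) ^ q) ^ κ) ^ (1 / (κ * q))

theorem Ph_mono {κ q : ℝ} (hκ : 0 < κ) (hq : 0 < q) {u v : ℝ × ℝ → ℝ≥0∞} (h : ∀ τ, u τ ≤ v τ) :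
    Ph κ q u ≤ Ph κ q v := by
  unfold Ph
  refine ENNReal.rpow_le_rpow (lintegral_mono fun t => ?_) (by positivity)
  refine ENNReal.rpow_le_rpow (lintegral_mono fun α => ?_) (by positivity)
  exact ENNReal.rpow_le_rpow (h _) hq.le

theorem Ph_const {κ q : ℝ} (hκ : 0 < κ) (hq : 0 < q) (c : ℝ≥0∞) {u : ℝ × ℝ → ℝ≥0∞}
    (hu : Measurable u) :
    Ph κ q (fun τ => c * u τ) = c * Ph κ q u := by
  unfold Ph
  have h1 : ∀ t, ∫⁻ α, (c * u (α, t)) ^ q = c ^ q * ∫⁻ α, u (α, t) ^ q := by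
    intro t
    simp_rw [ENNReal.mul_rpow_of_nonneg _ _ hq.le]
    rw [lintegral_const_mul]
    exact (hu.comp measurable_prodMk_right).pow_const q
  have h2 : Measurable fun t => ∫⁻ α, u (α, t) ^ q :=
    ((hu.pow_const q).comp measurable_swap).lintegral_prod_right'
  simp_rw [h1, ENNReal.mul_rpow_of_nonneg _ _ hκ.le]
  rw [lintegral_const_mul _ (h2.pow_const κ), ENNReal.mul_rpow_of_nonneg _ _ (by positivity),
    ← ENNReal.rpow_mul, ← ENNReal.rpow_mul]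
  congr 1
  rw [show q * (κ * (1 / (κ * q))) = 1 by field_simp, ENNReal.rpow_one]

theorem Ph_tsum {κ q : ℝ} (hκ : 1 ≤ κ) (hq : 1 ≤ q) (u : ℕ → ℝ × ℝ → ℝ≥0∞)
    (hu : ∀ j, Measurable (u j)) :
    Ph κ q (fun τ => ∑' j, u j τ) ≤ ∑' j, Ph κ q (u j) := by
  have hq0 : 0 < q := by linarith
  have hκ0 : 0 < κ := by linarith
  have hm : ∀ j, Measurable fun t => ∫⁻ α, u j (α, t) ^ q := fun j =>
    (((hu j).pow_const q).comp measurable_swap).lintegral_prod_right'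
  have h1 := mink (volume : Measure ℝ) (κ * q) (by nlinarith)
    (fun j t => (∫⁻ α, u j (α, t) ^ q) ^ (1 / q)) (fun j => (hm j).pow_const _)
  have e1 : ∀ x : ℝ≥0∞, (x ^ (1 / q)) ^ (κ * q) = x ^ κ := by
    intro x
    rw [← ENNReal.rpow_mul]
    congr 1
    field_simp
  unfold Ph
  simp_rw [e1] at h1
  refine le_trans (ENNReal.rpow_le_rpow (lintegral_mono fun t => ?_) (by positivity)) h1
  have h2 := mink (volume : Measure ℝ) q hq (fun j α => u j (α, t))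
    (fun j => (hu j).comp measurable_prodMk_right)
  calc (∫⁻ α, (∑' j, u j (α, t)) ^ q) ^ κ
      = ((∫⁻ α, (∑' j, u j (α, t)) ^ q) ^ (1 / q)) ^ (κ * q) := (e1 _).symm
    _ ≤ (∑' j, (∫⁻ α, u j (α, t) ^ q) ^ (1 / q)) ^ (κ * q) :=
        ENNReal.rpow_le_rpow h2 (by positivity)

/-- the `L²(dy)` norm of the extension in the first variable -/
noncomputable def Hh (F : ℝ × ℝ → ℂ) (τ : ℝ × ℝ) : ℝ≥0∞ := H2 F τ ^ (1 / 2 : ℝ)

theorem Hh_meas (F : ℝ × ℝ → ℂ) (hF : Measurable F) : Measurable (Hh F) :=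
  (H2_meas F hF).pow_const _

theorem Hh_sq (F : ℝ × ℝ → ℂ) (τ : ℝ × ℝ) : Hh F τ ^ 2 = H2 F τ := by
  unfold Hh
  exact Pool.Agent.K4H66.RV.half_two' _

theorem Pf_smul (c : ℂ) (u : ℝ → ℂ) (α t : ℝ) : Pool.Agent.K4H66.RV.Pf (fun x => c * u x) α t =
    c * Pool.Agent.K4H66.RV.Pf u α t := by
  unfold Pool.Agent.K4H66.RV.Pf
  rw [← integral_const_mul]
  refine integral_congr_ae (Eventually.of_forall fun x => ?_)
  ring_nf

theorem N2_smul (c : ℂ) (F : ℝ × ℝ → ℂ) (hF : Measurable F) (x : ℝ) :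
    N2 (fun p => c * F p) x = ‖c‖ₑ ^ 2 * N2 F x := by
  unfold N2
  have hm : Measurable fun y => ‖F (x, y)‖ₑ ^ 2 :=
    (hF.comp measurable_prodMk_left).enorm.pow_const 2
  rw [← lintegral_const_mul _ hm]
  refine lintegral_congr fun y => ?_
  rw [enorm_mul, mul_pow]

theorem H2_smul (c : ℂ) (F : ℝ × ℝ → ℂ) (hF : Measurable F) (τ : ℝ × ℝ) :
    H2 (fun p => c * F p) τ = ‖c‖ₑ ^ 2 * H2 F τ := by
  unfold H2
  rw [← lintegral_const_mul]
  · refine lintegral_congr fun y => ?_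
    rw [Pf_smul, enorm_mul, mul_pow]
  · exact ((PfF_meas F hF).comp measurable_prodMk_left).enorm.pow_const 2

/-- restricted estimate -/
theorem restr (q κ : ℝ) (hq : 2 < q) (hκ : 1 ≤ κ) (hqκ : 2 < κ * (q - 2)) :
    ∃ C : ℝ≥0∞, C ≠ ∞ ∧ ∀ (A : Set ℝ) (F : ℝ × ℝ → ℂ)
    (l : ℝ), 0 < l → MeasurableSet A → A ⊆ Icc (-(1 / 2)) (1 / 2) → Measurable F →
    (∀ x, N2 F x ≤ ENNReal.ofReal l ^ 2) → (∀ x y, x ∉ A → F (x, y) = 0) →
    Ph κ q (Hh F) ≤ C * (ENNReal.ofReal l * volume A ^ ((κ * q / 2 - 1) / (κ * q))) := by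
  obtain ⟨C, hC, h⟩ := mixedH q κ hq hκ hqκ
  have hq0 : 0 < q := by linarith
  have hκ0 : 0 < κ := by linarith
  refine ⟨C ^ (1 / (κ * q)), ENNReal.rpow_ne_top_of_nonneg (by positivity) hC, ?_⟩
  intro A F l hl hA hA1 hF h1 hs
  have hl0 : ENNReal.ofReal l ≠ 0 := by simpa using hl
  have hlt : ENNReal.ofReal l ≠ ∞ := ENNReal.ofReal_ne_top
  set G : ℝ × ℝ → ℂ := fun p => ((l⁻¹ : ℝ) : ℂ) * F p with hG
  have hGm : Measurable G := hF.const_mul _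
  have hc : ‖((l⁻¹ : ℝ) : ℂ)‖ₑ = (ENNReal.ofReal l)⁻¹ := by
    rw [← ofReal_norm, Complex.norm_real, Real.norm_of_nonneg (by positivity),
      ENNReal.ofReal_inv_of_pos hl]
  have hG1 : ∀ x, N2 G x ≤ 1 := by
    intro x
    rw [hG, N2_smul _ _ hF, hc]
    calc (ENNReal.ofReal l)⁻¹ ^ 2 * N2 F x ≤ (ENNReal.ofReal l)⁻¹ ^ 2 * ENNReal.ofReal l ^ 2 := by
          gcongr; exact h1 x
      _ = 1 := by rw [← mul_pow, ENNReal.inv_mul_cancel hl0 hlt, one_pow]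
  have h2 := h A G hA hA1 hGm hG1 (fun x y hx => by rw [hG]; simp [hs x y hx])
  have h3 : ∀ τ, Hh F τ = ENNReal.ofReal l * Hh G τ := by
    intro τ
    have : H2 F τ = ENNReal.ofReal l ^ (2 : ℝ) * H2 G τ := by
      rw [hG, H2_smul _ _ hF, hc, ← mul_assoc, ENNReal.rpow_two, ← mul_pow,
        ENNReal.mul_inv_cancel hl0 hlt, one_pow, one_mul]
    unfold Hh
    rw [this, ENNReal.mul_rpow_of_nonneg _ _ (by norm_num), ← ENNReal.rpow_mul]
    norm_num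
  have h4 : Ph κ q (Hh F) = ENNReal.ofReal l * Ph κ q (Hh G) := by
    rw [← Ph_const hκ0 hq0 _ (Hh_meas G hGm)]
    congr 1
    ext τ
    exact h3 τ
  have h5 : Ph κ q (Hh G) ≤ (C * volume A ^ (κ * q / 2 - 1)) ^ (1 / (κ * q)) := by
    unfold Ph
    refine ENNReal.rpow_le_rpow (le_trans (le_of_eq ?_) h2) (by positivity)
    refine lintegral_congr fun t => ?_
    congr 2
    ext α
    unfold Hh
    rw [← ENNReal.rpow_mul]
    congr 1
    ring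
  rw [h4]
  calc ENNReal.ofReal l * Ph κ q (Hh G)
      ≤ ENNReal.ofReal l * (C * volume A ^ (κ * q / 2 - 1)) ^ (1 / (κ * q)) := by gcongr
    _ = _ := by
        rw [ENNReal.mul_rpow_of_nonneg _ _ (by positivity), ← ENNReal.rpow_mul]
        rw [show (κ * q / 2 - 1) * (1 / (κ * q)) = (κ * q / 2 - 1) / (κ * q) by ring]
        ring

end H26.MX
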