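import Mathlib
import Pool.Agent.H26.MX.M2
set_option autoImplicit false

/-! The mixed norm estimate of strong type for functions with values in `L²(dy)`. -/

namespace H26.MX

open MeasureTheory Complex Set Filter Topology
open scoped ENNReal
open Pool.Agent.R412.RT (ee ee_norm ee_add ee_conj ee_meas ee_cont)
open Pool.Agent.K4H66.RV (Pf Pf_meas volA)

/-- restriction to `x ∈ S` -/
noncomputable def cut (S : Set ℝ) (F : ℝ × ℝ → ℂ) (p : ℝ × ℝ) : ℂ :=
  S.indicator (fun x => F (x, p.2)) p.1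

theorem cut_meas {S : Set ℝ} (hS : MeasurableSet S) {F : ℝ × ℝ → ℂ} (hF : Measurable F) :
    Measurable (cut S F) := by
  have h : cut S F = (Prod.fst ⁻¹' S).indicator F := by
    ext p
    unfold cut
    by_cases hp : p.1 ∈ S
    · rw [indicator_of_mem hp, indicator_of_mem (show p ∈ Prod.fst ⁻¹' S from hp)]
    · rw [indicator_of_notMem hp, indicator_of_notMem (show p ∉ Prod.fst ⁻¹' S from hp)]
  rw [h]
  exact hF.indicator (measurable_fst hS)

theorem cut_N2 (S : Set ℝ) (F : ℝ × ℝ → ℂ) (x : ℝ) (c : ℝ≥0∞) (h : x ∈ S → N2 F x ≤ c) :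
    N2 (cut S F) x ≤ c := by
  by_cases hx : x ∈ S
  · refine le_trans (le_of_eq ?_) (h hx)
    unfold N2 cut
    refine lintegral_congr fun y => ?_
    rw [indicator_of_mem hx]
  · unfold N2 cut
    simp [indicator_of_notMem hx]

theorem Pf_pieces (u : ℝ → ℂ) (hu : Measurable u) (S : ℕ → Set ℝ) (hS : ∀ m, MeasurableSet (S m))
    (hd : Pairwise (Function.onFun Disjoint S)) (hc : ∀ᵐ x, u x ≠ 0 → x ∈ ⋃ m, S m) (α t : ℝ) :
    ‖Pf u α t‖ₑ ≤ ∑' m, ‖Pf ((S m).indicator u) α t‖ₑ := by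
  by_cases hi : Integrable u
  · have hi2 := Pool.Agent.K4H66.RV.ph_int u hi α t
    have h1 : Pf u α t = ∑' m, Pf ((S m).indicator u) α t := by
      unfold Pf
      have h2 : ∫ p in ⋃ m, S m, ee (p * α + p ^ 2 * t) * u p =
          ∫ p, ee (p * α + p ^ 2 * t) * u p := by
        refine setIntegral_eq_integral_of_ae_compl_eq_zero ?_
        filter_upwards [hc] with p hp hpV
        have : u p = 0 := by
          by_contra hne
          exact hpV (hp hne)
        rw [this, mul_zero]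
      rw [← h2, integral_iUnion hS hd hi2.integrableOn]
      congr 1
      ext k
      rw [← integral_indicator (hS k)]
      congr 1
      ext p
      by_cases hp : p ∈ S k
      · rw [indicator_of_mem hp, indicator_of_mem hp]
      · rw [indicator_of_notMem hp, indicator_of_notMem hp, mul_zero]
    rw [h1]
    exact enorm_tsum_le_tsum_enorm
  · rw [Pf_undef u hu hi, enorm_zero]
    exact zero_le

/-- subadditivity of the norm over pieces -/
theorem Hh_pieces (F : ℝ × ℝ → ℂ) (hF : Measurable F) (S : ℕ → Set ℝ)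
    (hS : ∀ m, MeasurableSet (S m))
    (hd : Pairwise (Function.onFun Disjoint S)) (hc : ∀ᵐ x, ∀ y, F (x, y) ≠ 0 → x ∈ ⋃ m, S m)
    (τ : ℝ × ℝ) : Hh F τ ≤ ∑' m, Hh (cut (S m) F) τ := by
  have hm : ∀ m, Measurable fun y => ‖Pf (fun x => cut (S m) F (x, y)) τ.1 τ.2‖ₑ := fun m =>
    ((PfF_meas _ (cut_meas (hS m) hF)).comp measurable_prodMk_left).enorm
  have h1 := mink (volume : Measure ℝ) 2 (by norm_num)
    (fun m y => ‖Pf (fun x => cut (S m) F (x, y)) τ.1 τ.2‖ₑ) hm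
  unfold Hh H2
  simp only [ENNReal.rpow_two] at h1
  refine le_trans (ENNReal.rpow_le_rpow (lintegral_mono fun y => ?_) (by norm_num)) h1
  refine pow_le_pow_left' ?_ 2
  refine Pf_pieces (fun x => F (x, y)) (hF.comp measurable_prodMk_right) S hS hd ?_ _ _
  filter_upwards [hc] with x hx h
  exact hx y h

/-- the unit interval -/
abbrev Ib : Set ℝ := Icc (-(1 / 2)) (1 / 2)

/-- sublevel sets -/
def Tl (F : ℝ × ℝ → ℂ) (n : ℝ) (m : ℕ) : Set ℝ :=
  {x | x ∈ Ib ∧ N2 F x ≤ ENNReal.ofReal (2 ^ m * n) ^ 2}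

theorem Tl_meas {F : ℝ × ℝ → ℂ} (hF : Measurable F) (n : ℝ) (m : ℕ) :
    MeasurableSet (Tl F n m) :=
  measurableSet_Icc.inter (N2_meas F hF measurableSet_Iic)

theorem Tl_mono (F : ℝ × ℝ → ℂ) {n : ℝ} (hn : 0 < n) : Monotone (Tl F n) := by
  refine monotone_nat_of_le_succ fun m x hx => ⟨hx.1, hx.2.trans ?_⟩
  gcongr
  · norm_num
  · omega

/-- level sets -/
def Sl (F : ℝ × ℝ → ℂ) (n : ℝ) : ℕ → Set ℝ := disjointed (Tl F n)

theorem Sl_meas {F : ℝ × ℝ → ℂ} (hF : Measurable F) (n : ℝ) (m : ℕ) :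
    MeasurableSet (Sl F n m) := MeasurableSet.disjointed (Tl_meas hF n) m

theorem Sl_sub (F : ℝ × ℝ → ℂ) (n : ℝ) (m : ℕ) : Sl F n m ⊆ Tl F n m := disjointed_subset _ _

theorem Sl_gt (F : ℝ × ℝ → ℂ) {n : ℝ} (hn : 0 < n) (m : ℕ) (x : ℝ) (hx : x ∈ Sl F n (m + 1)) :
    ENNReal.ofReal (2 ^ m * n) ^ 2 < N2 F x := by
  unfold Sl at hx
  rw [(Tl_mono F hn).disjointed_add_one] at hx
  have h1 := hx.1
  have h2 := hx.2
  by_contra hlt
  exact h2 ⟨h1.1, not_lt.1 hlt⟩

theorem Sl_vol {p : ℝ} (hp : 0 < p) {F : ℝ × ℝ → ℂ} (hF : Measurable F) {n : ℝ} (hn : 0 < n)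
    (hN : ∫⁻ x, N2 F x ^ (p / 2) ≤ ENNReal.ofReal n ^ p) (m : ℕ) :
    volume (Sl F n (m + 1)) ≤ ENNReal.ofReal ((2 : ℝ) ^ (-(m * p))) := by
  set c : ℝ≥0∞ := ENNReal.ofReal (2 ^ m * n) ^ p with hc
  have h1 : Sl F n (m + 1) ⊆ {x | c ≤ N2 F x ^ (p / 2)} := by
    intro x hx
    have h2 := (Sl_gt F hn m x hx).le
    have h3 := ENNReal.rpow_le_rpow h2 (by linarith : 0 ≤ p / 2)
    refine le_trans (le_of_eq ?_) h3
    rw [hc, ← ENNReal.rpow_two, ← ENNReal.rpow_mul]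
    congr 1
    ring
  have h2 := mul_meas_ge_le_lintegral₀ (μ := volume) (f := fun x => N2 F x ^ (p / 2))
    ((N2_meas F hF).pow_const _).aemeasurable c
  have h3 : c * volume (Sl F n (m + 1)) ≤ ENNReal.ofReal n ^ p :=
    (mul_le_mul_right (measure_mono h1) c).trans (h2.trans hN)
  have hn0 : ENNReal.ofReal n ^ p ≠ 0 := by
    rw [ENNReal.ofReal_rpow_of_pos hn]
    simpa using Real.rpow_pos_of_pos hn p
  have hnt : ENNReal.ofReal n ^ p ≠ ∞ :=
    ENNReal.rpow_ne_top_of_nonneg hp.le ENNReal.ofReal_ne_top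
  have h4 : c = ENNReal.ofReal n ^ p * ENNReal.ofReal ((2 : ℝ) ^ (m * p)) := by
    rw [hc, mul_comm (2 ^ m) n, ENNReal.ofReal_mul hn.le,
      ENNReal.mul_rpow_of_nonneg _ _ hp.le]
    congr 1
    rw [ENNReal.ofReal_rpow_of_pos (by positivity), ← Real.rpow_natCast, ← Real.rpow_mul
      (by norm_num)]
  rw [h4, mul_assoc] at h3
  have h5 : ENNReal.ofReal ((2 : ℝ) ^ (m * p)) * volume (Sl F n (m + 1)) ≤ 1 := by
    have h6 : ENNReal.ofReal n ^ p * (ENNReal.ofReal ((2 : ℝ) ^ (m * p)) *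
        volume (Sl F n (m + 1))) ≤ ENNReal.ofReal n ^ p * 1 := by rwa [mul_one]
    exact (ENNReal.mul_le_mul_iff_right hn0 hnt).1 h6
  have hp' : (0 : ℝ) < 2 ^ (m * p) := Real.rpow_pos_of_pos (by norm_num) _
  rw [Real.rpow_neg (by norm_num), ENNReal.ofReal_inv_of_pos hp']
  rw [ENNReal.le_inv_iff_mul_le, mul_comm]
  exact h5

/-- ratio -/
noncomputable def rr (e p : ℝ) : ℝ := (2 : ℝ) ^ (1 - p * e)

theorem rr_pos (e p : ℝ) : 0 < rr e p := Real.rpow_pos_of_pos (by norm_num) _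

theorem rr_lt {e p : ℝ} (he : 1 < p * e) : rr e p < 1 :=
  Real.rpow_lt_one_of_one_lt_of_neg (by norm_num) (by linarith)

theorem piece_le {e p : ℝ} (hp : 0 < p) (he0 : 0 < e) (he : 1 < p * e)
    {F : ℝ × ℝ → ℂ} (hF : Measurable F) {n : ℝ} (hn : 0 < n)
    (hN : ∫⁻ x, N2 F x ^ (p / 2) ≤ ENNReal.ofReal n ^ p) (m : ℕ) :
    ENNReal.ofReal (2 ^ m * n) * volume (Sl F n m) ^ e ≤
      ENNReal.ofReal (2 / rr e p * rr e p ^ m) * ENNReal.ofReal n := by
  have hr0 := rr_pos e p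
  have hr1 := rr_lt he
  rcases m with - | m
  · have h1 : volume (Sl F n 0) ≤ 1 :=
      (measure_mono ((Sl_sub F n 0).trans fun x hx => hx.1)).trans (volA (le_refl Ib))
    have h2 : volume (Sl F n 0) ^ e ≤ 1 := by
      calc volume (Sl F n 0) ^ e ≤ 1 ^ e :=
            ENNReal.rpow_le_rpow h1 he0.le
        _ = 1 := ENNReal.one_rpow _
    have h3 : (1 : ℝ) ≤ 2 / rr e p * rr e p ^ 0 := by
      rw [pow_zero, mul_one, le_div_iff₀ hr0]
      linarith
    calc ENNReal.ofReal (2 ^ 0 * n) * volume (Sl F n 0) ^ e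
        ≤ ENNReal.ofReal n * 1 := by
          rw [pow_zero, one_mul]
          gcongr
      _ = 1 * ENNReal.ofReal n := by ring
      _ ≤ _ := by
          gcongr
          rw [← ENNReal.ofReal_one]
          exact ENNReal.ofReal_le_ofReal h3
  · have h1 := ENNReal.rpow_le_rpow (Sl_vol hp hF hn hN m) he0.le
    rw [ENNReal.ofReal_rpow_of_pos (Real.rpow_pos_of_pos (by norm_num) _),
      ← Real.rpow_mul (by norm_num)] at h1
    calc ENNReal.ofReal (2 ^ (m + 1) * n) * volume (Sl F n (m + 1)) ^ e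
        ≤ ENNReal.ofReal (2 ^ (m + 1) * n) *
          ENNReal.ofReal (2 ^ (-(m * p) * e)) := by gcongr
      _ = ENNReal.ofReal (2 / rr e p * rr e p ^ (m + 1)) * ENNReal.ofReal n := by
          rw [← ENNReal.ofReal_mul (by positivity), ← ENNReal.ofReal_mul (by positivity)]
          congr 1
          have e1 : (2 : ℝ) / rr e p * rr e p ^ (m + 1) = 2 * rr e p ^ m := by
            field_simp
            ring
          have e2 : (2 : ℝ) ^ (m + 1) * 2 ^ (-(m * p) * e) =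
              2 * rr e p ^ m := by
            unfold rr
            rw [← Real.rpow_natCast, ← Real.rpow_natCast, ← Real.rpow_mul (by norm_num),
              ← Real.rpow_add (by norm_num)]
            rw [show (2 : ℝ) * 2 ^ ((1 - p * e) * (m : ℝ)) = 2 ^ (1 : ℝ) *
              2 ^ ((1 - p * e) * (m : ℝ)) by rw [Real.rpow_one],
              ← Real.rpow_add (by norm_num)]
            congr 1
            push_cast
            ring
          rw [e1, ← e2]
          ring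

/-- strong type, normalised -/
theorem strong0 (q κ p : ℝ) (hq : 2 < q) (hκ : 1 ≤ κ) (hqκ : 2 < κ * (q - 2)) (hp : 1 ≤ p)
    (hpe : 1 < p * ((κ * q / 2 - 1) / (κ * q))) :
    ∃ C : ℝ≥0∞, C ≠ ∞ ∧ ∀ (F : ℝ × ℝ → ℂ) (n : ℝ),
    0 < n → Measurable F → (∀ x y, x ∉ Ib → F (x, y) = 0) →
    ∫⁻ x, N2 F x ^ (p / 2) ≤ ENNReal.ofReal n ^ p → Ph κ q (Hh F) ≤ C * ENNReal.ofReal n := by
  obtain ⟨C, hC, h⟩ := restr q κ hq hκ hqκ
  set e : ℝ := (κ * q / 2 - 1) / (κ * q) with he'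
  have he0 : 0 < e := by
    rw [he']
    apply div_pos
    · nlinarith
    · nlinarith
  have hr0 := rr_pos e p
  have hr1 := rr_lt hpe
  have hs : ∑' m : ℕ, ENNReal.ofReal (2 / rr e p * rr e p ^ m) ≠ ∞ := by
    have hsum : Summable fun m : ℕ => 2 / rr e p * rr e p ^ m :=
      (summable_geometric_of_lt_one hr0.le hr1).mul_left _
    rw [← ENNReal.ofReal_tsum_of_nonneg (fun m => by positivity) hsum]
    exact ENNReal.ofReal_ne_top
  refine ⟨C * ∑' m : ℕ, ENNReal.ofReal (2 / rr e p * rr e p ^ m), ENNReal.mul_ne_top hC hs, ?_⟩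
  intro F n hn hF hsupp hN
  have hS := Sl_meas hF n
  have hfin : ∀ᵐ x, N2 F x < ∞ := by
    have h1 : ∀ᵐ x, N2 F x ^ (p / 2) < ∞ := by
      refine ae_lt_top ((N2_meas F hF).pow_const _) ?_
      exact ne_top_of_le_ne_top (ENNReal.rpow_ne_top_of_nonneg (by linarith)
        ENNReal.ofReal_ne_top) hN
    filter_upwards [h1] with x hx
    by_contra hlt
    rw [not_lt, top_le_iff] at hlt
    rw [hlt, ENNReal.top_rpow_of_pos (by linarith)] at hx
    exact lt_irrefl _ hx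
  have hc : ∀ᵐ x, ∀ y, F (x, y) ≠ 0 → x ∈ ⋃ m, Sl F n m := by
    filter_upwards [hfin] with x hx y hy
    unfold Sl
    rw [iUnion_disjointed]
    have hxI : x ∈ Ib := by
      by_contra hne
      exact hy (hsupp x y hne)
    obtain ⟨m, hm⟩ : ∃ m : ℕ, N2 F x ≤ ENNReal.ofReal (2 ^ m * n) ^ 2 := by
      have hlt : Tendsto (fun m : ℕ => (2 ^ m * n) ^ 2) atTop atTop := by
        refine (tendsto_pow_atTop two_ne_zero).comp ?_
        exact (tendsto_pow_atTop_atTop_of_one_lt (by norm_num)).atTop_mul_const hn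
      obtain ⟨m, hm⟩ := (hlt.eventually_ge_atTop (N2 F x).toReal).exists
      refine ⟨m, ?_⟩
      rw [← ENNReal.ofReal_pow (by positivity)]
      exact (ENNReal.le_ofReal_iff_toReal_le hx.ne (by positivity)).2 hm
    exact mem_iUnion.2 ⟨m, hxI, hm⟩
  have hq1 : 1 ≤ q := by linarith
  calc Ph κ q (Hh F) ≤ Ph κ q (fun τ => ∑' m, Hh (cut (Sl F n m) F) τ) :=
        Ph_mono (by linarith) (by linarith)
          fun τ => Hh_pieces F hF _ hS (disjoint_disjointed _) hc τ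
    _ ≤ ∑' m, Ph κ q (Hh (cut (Sl F n m) F)) :=
        Ph_tsum hκ hq1 _ fun m => Hh_meas _ (cut_meas (hS m) hF)
    _ ≤ ∑' m, C * (ENNReal.ofReal (2 ^ m * n) * volume (Sl F n m) ^ e) := by
        refine ENNReal.tsum_le_tsum fun m => ?_
        refine h (Sl F n m) _ _ (by positivity) (hS m) ((Sl_sub F n m).trans fun x hx => hx.1)
          (cut_meas (hS m) hF) (fun x => cut_N2 _ _ _ _ fun hx => (Sl_sub F n m hx).2) ?_
        intro x y hx
        unfold cut
        rw [indicator_of_notMem hx]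
    _ ≤ ∑' m, C * (ENNReal.ofReal (2 / rr e p * rr e p ^ m) * ENNReal.ofReal n) := by
        refine ENNReal.tsum_le_tsum fun m => ?_
        gcongr C * ?_
        exact piece_le (by linarith) he0 hpe hF hn hN m
    _ = _ := by
        rw [ENNReal.tsum_mul_left, ENNReal.tsum_mul_right, mul_assoc]

/-- **strong type mixed norm estimate for functions with values in `L²(dy)`** -/
theorem strongH (q κ p : ℝ) (hq : 2 < q) (hκ : 1 ≤ κ) (hqκ : 2 < κ * (q - 2)) (hp : 1 ≤ p)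
    (hpe : 1 < p * ((κ * q / 2 - 1) / (κ * q))) :
    ∃ C : ℝ≥0∞, C ≠ ∞ ∧ ∀ (F : ℝ × ℝ → ℂ),
    Measurable F → (∀ x y, x ∉ Ib → F (x, y) = 0) →
    Ph κ q (Hh F) ≤ C * (∫⁻ x, N2 F x ^ (p / 2)) ^ (1 / p) := by
  obtain ⟨C, hC, h⟩ := strong0 q κ p hq hκ hqκ hp hpe
  have hp0 : 0 < p := by linarith
  refine ⟨C + 1, ENNReal.add_ne_top.2 ⟨hC, ENNReal.one_ne_top⟩, fun F hF hs => ?_⟩
  set N : ℝ≥0∞ := (∫⁻ x, N2 F x ^ (p / 2)) ^ (1 / p) with hN
  have hNq : ∫⁻ x, N2 F x ^ (p / 2) = N ^ p := by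
    rw [hN, ← ENNReal.rpow_mul, one_div_mul_cancel hp0.ne', ENNReal.rpow_one]
  by_cases hT : N = ∞
  · rw [hT, ENNReal.mul_top (by simp)]
    exact le_top
  by_cases h0 : N = 0
  · rw [h0, mul_zero]
    have h1 : ∀ n : ℝ, 0 < n → Ph κ q (Hh F) ≤ C * ENNReal.ofReal n := by
      intro n hn
      refine h F n hn hF hs ?_
      rw [hNq, h0, ENNReal.zero_rpow_of_pos hp0]
      exact zero_le
    have h2 : Tendsto (fun n : ℝ => C * ENNReal.ofReal n) (𝓝[>] 0) (𝓝 (C * ENNReal.ofReal 0)) := by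
      refine ENNReal.Tendsto.const_mul ?_ (Or.inr hC)
      exact (ENNReal.continuous_ofReal.tendsto 0).mono_left nhdsWithin_le_nhds
    rw [ENNReal.ofReal_zero, mul_zero] at h2
    exact ge_of_tendsto h2 (by filter_upwards [self_mem_nhdsWithin] with n hn using h1 n hn)
  · have h1 := h F N.toReal (ENNReal.toReal_pos h0 hT) hF hs (by
      rw [hNq, ENNReal.ofReal_toReal hT])
    rw [ENNReal.ofReal_toReal hT] at h1
    refine h1.trans ?_
    gcongr
    exact le_self_add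

end H26.MX
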