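import Mathlib
import Pool.Graph.R_pool_sql_team_seeded_c8625f6e.K4H66.RV.A3
set_option autoImplicit false

/-! Square sums of quadratic exponential integrals over dyadic intervals. -/

namespace H26.MX

open MeasureTheory Complex Set Filter Topology
open scoped ENNReal
open Pool.Agent.R412.RT (ee ee_norm ee_add ee_conj ee_meas ee_cont)

/-- `exp(2 π i t v²)` -/
noncomputable def gq (t v : ℝ) : ℂ := ee (t * v ^ 2)

theorem gq_cont (t : ℝ) : Continuous (gq t) := ee_cont.comp (by fun_prop)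

theorem gq_norm (t v : ℝ) : ‖gq t v‖ = 1 := ee_norm _

theorem gq_neg (t v : ℝ) : gq t (-v) = gq t v := by
  unfold gq
  rw [neg_sq]

theorem quad_tail {t : ℝ} (ht : t ≠ 0) {X Y : ℝ} (hX : 0 < X) (hXY : X ≤ Y) :
    ‖∫ v in X..Y, gq t v‖ ≤ 1 / (2 * Real.pi * |t| * X) := by
  set b : ℂ := -((2 * Real.pi * t : ℝ) : ℂ) * I with hb
  have hbn : ‖b‖ = 2 * Real.pi * |t| := by
    rw [hb, norm_mul, norm_neg, Complex.norm_real, Complex.norm_I, mul_one, Real.norm_eq_abs,
      abs_mul, abs_of_pos (by positivity : (0 : ℝ) < 2 * Real.pi)]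
  have hbpos : 0 < ‖b‖ := by
    rw [hbn]
    have := abs_pos.2 ht
    positivity
  have hb0 : b ≠ 0 := norm_pos_iff.mp hbpos
  have hgb : ∀ v : ℝ, gq t v = cexp (-b * (v : ℂ) ^ 2) := by
    intro v
    unfold gq ee
    congr 1
    rw [hb]
    push_cast
    ring
  have hd : ∀ x ∈ Set.uIcc X Y, HasDerivAt (fun v : ℝ => gq t v * (1 / (-2 * b * (v : ℂ))))
      (gq t x + gq t x * (1 / (2 * b * (x : ℂ) ^ 2))) x := by
    intro x hx
    rw [Set.uIcc_of_le hXY] at hx
    have hx0 : (x : ℂ) ≠ 0 := by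
      have : 0 < x := by linarith [hx.1]
      exact_mod_cast this.ne'
    have h1 : HasDerivAt (fun v : ℝ => (v : ℂ)) 1 x := by
      simpa using (hasDerivAt_id x).ofReal_comp
    have h2 : HasDerivAt (gq t) (gq t x * (-b * (2 * (x : ℂ)))) x := by
      have h3 : HasDerivAt (fun v : ℝ => (v : ℂ) ^ 2) (2 * (x : ℂ)) x := by
        have h := h1.fun_pow 2
        simpa using h
      have h4 := (h3.const_mul (-b)).cexp
      have e : gq t = fun v : ℝ => cexp (-b * (v : ℂ) ^ 2) := funext hgb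
      rw [e]
      exact h4
    have h4 : HasDerivAt (fun v : ℝ => 1 / (-2 * b * (v : ℂ))) (1 / (2 * b * (x : ℂ) ^ 2)) x := by
      have h5 := (h1.const_mul (-2 * b)).fun_inv (by simp [hb0, hx0])
      have e1 : -(-2 * b * 1) / (-2 * b * (x : ℂ)) ^ 2 = 1 / (2 * b * (x : ℂ) ^ 2) := by
        field_simp
      rw [e1] at h5
      simpa only [one_div] using h5
    have h6 := h2.mul h4
    have e2 : gq t x * (-b * (2 * (x : ℂ))) * (1 / (-2 * b * (x : ℂ))) +
        gq t x * (1 / (2 * b * (x : ℂ) ^ 2)) = gq t x + gq t x * (1 / (2 * b * (x : ℂ) ^ 2)) := by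
      field_simp
    rw [e2] at h6
    exact h6
  have hcont2 : ContinuousOn (fun x : ℝ => gq t x * (1 / (2 * b * (x : ℂ) ^ 2))) (Set.uIcc X Y) := by
    rw [Set.uIcc_of_le hXY]
    apply ContinuousOn.mul (gq_cont t).continuousOn
    apply ContinuousOn.div continuousOn_const (by fun_prop)
    intro x hx
    have : (x : ℂ) ≠ 0 := by
      have : 0 < x := by linarith [hx.1]
      exact_mod_cast this.ne'
    simp [hb0, this]
  have hint1 : IntervalIntegrable (gq t) volume X Y := (gq_cont t).intervalIntegrable _ _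
  have hint2 : IntervalIntegrable (fun x : ℝ => gq t x * (1 / (2 * b * (x : ℂ) ^ 2))) volume X Y :=
    hcont2.intervalIntegrable
  have hftc := intervalIntegral.integral_eq_sub_of_hasDerivAt hd (hint1.add hint2)
  rw [intervalIntegral.integral_add hint1 hint2] at hftc
  have heq : ∫ v in X..Y, gq t v =
      (gq t Y * (1 / (-2 * b * (Y : ℂ))) - gq t X * (1 / (-2 * b * (X : ℂ)))) -
      ∫ v in X..Y, gq t v * (1 / (2 * b * (v : ℂ) ^ 2)) := by
    rw [← hftc]; ring
  have hY : 0 < Y := by linarith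
  have n1 : ‖gq t Y * (1 / (-2 * b * (Y : ℂ)))‖ = 1 / (2 * ‖b‖ * Y) := by
    rw [norm_mul, norm_div, norm_mul, norm_mul, norm_one, norm_neg, Complex.norm_ofNat,
      Complex.norm_real, Real.norm_eq_abs, abs_of_pos hY, gq_norm, one_mul]
  have n2 : ‖gq t X * (1 / (-2 * b * (X : ℂ)))‖ = 1 / (2 * ‖b‖ * X) := by
    rw [norm_mul, norm_div, norm_mul, norm_mul, norm_one, norm_neg, Complex.norm_ofNat,
      Complex.norm_real, Real.norm_eq_abs, abs_of_pos hX, gq_norm, one_mul]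
  have n3 : ‖∫ v in X..Y, gq t v * (1 / (2 * b * (v : ℂ) ^ 2))‖ ≤
      1 / (2 * ‖b‖ * X) - 1 / (2 * ‖b‖ * Y) := by
    have hd2 : ∀ x ∈ Set.uIcc X Y, HasDerivAt (fun v : ℝ => -(1 / (2 * ‖b‖ * v)))
        (1 / (2 * ‖b‖ * x ^ 2)) x := by
      intro x hx
      rw [Set.uIcc_of_le hXY] at hx
      have hx0 : x ≠ 0 := by linarith [hx.1]
      have h5 := ((((hasDerivAt_id' x).const_mul (2 * ‖b‖)).fun_inv (by simp [hb0, hx0]))).fun_neg
      have e1 : -(-(2 * ‖b‖ * 1) / (2 * ‖b‖ * x) ^ 2) = 1 / (2 * ‖b‖ * x ^ 2) := by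
        field_simp
      rw [e1] at h5
      simpa only [one_div] using h5
    have hc2 : ContinuousOn (fun x : ℝ => 1 / (2 * ‖b‖ * x ^ 2)) (Set.uIcc X Y) := by
      rw [Set.uIcc_of_le hXY]
      apply ContinuousOn.div continuousOn_const (by fun_prop)
      intro x hx
      have : 0 < x := by linarith [hx.1]
      positivity
    have h7 : ‖∫ v in X..Y, gq t v * (1 / (2 * b * (v : ℂ) ^ 2))‖ ≤
        ∫ v in X..Y, 1 / (2 * ‖b‖ * v ^ 2) := by
      apply intervalIntegral.norm_integral_le_of_norm_le hXY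
      · filter_upwards with v hv
        rw [norm_mul, norm_div, norm_mul, norm_mul, norm_one, norm_pow, Complex.norm_ofNat,
          Complex.norm_real, Real.norm_eq_abs, sq_abs, gq_norm, one_mul]
      · exact hc2.intervalIntegrable
    rw [intervalIntegral.integral_eq_sub_of_hasDerivAt hd2 hc2.intervalIntegrable] at h7
    linarith
  rw [heq]
  calc _ ≤ ‖gq t Y * (1 / (-2 * b * (Y : ℂ))) - gq t X * (1 / (-2 * b * (X : ℂ)))‖ +
        ‖∫ v in X..Y, gq t v * (1 / (2 * b * (v : ℂ) ^ 2))‖ := norm_sub_le _ _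
    _ ≤ (1 / (2 * ‖b‖ * Y) + 1 / (2 * ‖b‖ * X)) + (1 / (2 * ‖b‖ * X) - 1 / (2 * ‖b‖ * Y)) := by
        have := norm_sub_le (gq t Y * (1 / (-2 * b * (Y : ℂ)))) (gq t X * (1 / (-2 * b * (X : ℂ))))
        linarith
    _ = 1 / (‖b‖ * X) := by field_simp; ring
    _ = 1 / (2 * Real.pi * |t| * X) := by rw [hbn]

theorem gq_trivial (t A B : ℝ) (h : A ≤ B) : ‖∫ v in A..B, gq t v‖ ≤ B - A := by
  have h1 := intervalIntegral.norm_integral_le_of_norm_le_const (a := A) (b := B) (f := gq t)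
    (C := 1) (fun x _ => (gq_norm t x).le)
  rw [abs_of_nonneg (by linarith), one_mul] at h1
  exact h1

/-- from the origin -/
theorem gq_zero_pos {t : ℝ} (ht : t ≠ 0) {B : ℝ} (hB : 0 ≤ B) :
    ‖∫ v in (0 : ℝ)..B, gq t v‖ ≤ 3 / 2 / Real.sqrt |t| := by
  have ht0 := abs_pos.2 ht
  set d : ℝ := 1 / Real.sqrt |t| with hd
  have hs : 0 < Real.sqrt |t| := Real.sqrt_pos.2 ht0
  have hd0 : 0 < d := by positivity
  have hle : 3 / 2 / Real.sqrt |t| = 3 / 2 * d := by rw [hd]; ring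
  rw [hle]
  by_cases hBd : B ≤ d
  · have := gq_trivial t 0 B hB
    linarith
  · rw [not_le] at hBd
    have h1 : ∫ v in (0 : ℝ)..B, gq t v = (∫ v in (0 : ℝ)..d, gq t v) + ∫ v in d..B, gq t v :=
      (intervalIntegral.integral_add_adjacent_intervals ((gq_cont t).intervalIntegrable _ _)
        ((gq_cont t).intervalIntegrable _ _)).symm
    have h2 := gq_trivial t 0 d hd0.le
    have h3 := quad_tail ht hd0 hBd.le
    have h4 : 1 / (2 * Real.pi * |t| * d) ≤ 1 / 2 * d := by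
      have e1 : |t| * d = Real.sqrt |t| := by
        rw [hd]
        nth_rw 1 [← Real.mul_self_sqrt ht0.le]
        field_simp
      rw [show 2 * Real.pi * |t| * d = 2 * Real.pi * (|t| * d) by ring, e1, hd,
        div_mul_div_comm, one_mul, div_le_div_iff₀ (by positivity) (by positivity)]
      have := Real.pi_gt_three
      nlinarith
    rw [h1]
    refine (norm_add_le _ _).trans ?_
    linarith

theorem gq_zero {t : ℝ} (ht : t ≠ 0) (B : ℝ) :
    ‖∫ v in (0 : ℝ)..B, gq t v‖ ≤ 3 / 2 / Real.sqrt |t| := by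
  by_cases hB : 0 ≤ B
  · exact gq_zero_pos ht hB
  · rw [not_le] at hB
    have h1 : ∫ v in (0 : ℝ)..B, gq t v = -∫ v in (0 : ℝ)..(-B), gq t v := by
      rw [intervalIntegral.integral_symm]
      congr 1
      have h2 := intervalIntegral.integral_comp_neg (a := (0 : ℝ)) (b := -B) (gq t)
      simp only [gq_neg, neg_neg, neg_zero] at h2
      exact h2.symm
    rw [h1, norm_neg]
    exact gq_zero_pos ht (by linarith)

theorem gq_sqrt {t : ℝ} (ht : t ≠ 0) (A B : ℝ) :
    ‖∫ v in A..B, gq t v‖ ≤ 3 / Real.sqrt |t| := by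
  have h1 : ∫ v in A..B, gq t v = (∫ v in (0 : ℝ)..B, gq t v) - ∫ v in (0 : ℝ)..A, gq t v := by
    rw [intervalIntegral.integral_interval_sub_left ((gq_cont t).intervalIntegrable _ _)
      ((gq_cont t).intervalIntegrable _ _)]
  rw [h1]
  refine (norm_sub_le _ _).trans ?_
  have h2 := gq_zero ht A
  have h3 := gq_zero ht B
  have : 3 / Real.sqrt |t| = 3 / 2 / Real.sqrt |t| + 3 / 2 / Real.sqrt |t| := by ring
  linarith

/-- away from the origin -/
theorem gq_far {t : ℝ} (ht : t ≠ 0) {A B x : ℝ} (hAB : A ≤ B) (hx : x ∈ Icc A B)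
    (hfar : 2 * (B - A) ≤ |x|) (hx0 : 0 < |x|) :
    ‖∫ v in A..B, gq t v‖ ≤ 1 / (Real.pi * |t| * |x|) := by
  have ht0 := abs_pos.2 ht
  have hpi := Real.pi_pos
  rcases lt_or_ge 0 x with hxp | hxn
  · rw [abs_of_pos hxp] at hfar hx0 ⊢
    have hA : x / 2 ≤ A := by linarith [hx.1, hx.2]
    have hA0 : 0 < A := by linarith
    refine (quad_tail ht hA0 hAB).trans ?_
    rw [div_le_div_iff₀ (by positivity) (by positivity)]
    have : 0 < Real.pi * |t| := by positivity
    nlinarith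
  · rw [abs_of_nonpos hxn] at hfar hx0 ⊢
    have hB : x / 2 ≥ B := by linarith [hx.1, hx.2]
    have hB0 : 0 < -B := by linarith
    have h1 : ∫ v in A..B, gq t v = ∫ v in (-B)..(-A), gq t v := by
      have h2 := intervalIntegral.integral_comp_neg (a := A) (b := B) (gq t)
      simp only [gq_neg] at h2
      exact h2
    rw [h1]
    refine (quad_tail ht hB0 (by linarith)).trans ?_
    rw [div_le_div_iff₀ (by positivity) (by positivity)]
    have : 0 < Real.pi * |t| := by positivity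
    nlinarith

/-- the exponential integral over an interval -/
noncomputable def Jn (β t a b : ℝ) : ℂ := ∫ y in a..b, ee (y * β + y ^ 2 * t)

theorem Jn_eq {β t : ℝ} (ht : t ≠ 0) (a b : ℝ) :
    ‖Jn β t a b‖ = ‖∫ v in (a - -β / (2 * t))..(b - -β / (2 * t)), gq t v‖ := by
  have h1 : ∀ y : ℝ, ee (y * β + y ^ 2 * t) = ee (-(β ^ 2 / (4 * t))) * gq t (y - -β / (2 * t)) := by
    intro y
    unfold gq
    rw [← ee_add]
    congr 1
    field_simp
    ring
  unfold Jn
  simp_rw [h1]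
  rw [intervalIntegral.integral_const_mul, norm_mul, ee_norm, one_mul,
    intervalIntegral.integral_comp_sub_right]

theorem Jn_trivial (β t : ℝ) {a b : ℝ} (h : a ≤ b) : ‖Jn β t a b‖ ≤ b - a := by
  have h1 := intervalIntegral.norm_integral_le_of_norm_le_const (a := a) (b := b)
    (f := fun y => ee (y * β + y ^ 2 * t)) (C := 1) (fun x _ => (ee_norm _).le)
  rw [abs_of_nonneg (by linarith), one_mul] at h1
  exact h1

/-- pointwise majorant -/
theorem Jn_major {β t : ℝ} (ht : t ≠ 0) {a b l : ℝ} (hl : 0 < l) (hb : b = a + l) {x : ℝ}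
    (hx : x ∈ Icc a b) :
    ‖Jn β t a b‖ ^ 2 ≤ 45 * min (l ^ 2) (1 / |t|) *
      (1 + (x / max l (1 / (|t| * l)) - -β / (2 * t) / max l (1 / (|t| * l))) ^ 2)⁻¹ := by
  have ht0 := abs_pos.2 ht
  set M := min (l ^ 2) (1 / |t|) with hM
  set ρ := max l (1 / (|t| * l)) with hρ
  set y0 := -β / (2 * t) with hy0
  have hM0 : 0 < M := lt_min (by positivity) (by positivity)
  have hρl : l ≤ ρ := le_max_left _ _
  have hρ0 : 0 < ρ := by linarith
  have hab : a ≤ b := by linarith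
  set J := ‖Jn β t a b‖ with hJ
  have hJ0 : 0 ≤ J := norm_nonneg _
  have hJ1 : J ≤ l := by
    have := Jn_trivial β t hab
    linarith
  have hJ2 : J ≤ 3 / Real.sqrt |t| := by
    rw [hJ, Jn_eq ht]
    exact gq_sqrt ht _ _
  have hJ9 : J ^ 2 ≤ 9 * M := by
    have h1 : J ^ 2 ≤ 9 * l ^ 2 := by nlinarith
    have h2 : J ^ 2 ≤ 9 * (1 / |t|) := by
      have h3 : J ^ 2 ≤ (3 / Real.sqrt |t|) ^ 2 := by gcongr
      rw [div_pow, Real.sq_sqrt ht0.le] at h3
      linarith [show (3 : ℝ) ^ 2 / |t| = 9 * (1 / |t|) by ring]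
    rcases le_total (l ^ 2) (1 / |t|) with h | h
    · rw [hM, min_eq_left h]; exact h1
    · rw [hM, min_eq_right h]; exact h2
  have hMρ : 1 / t ^ 2 ≤ M * ρ ^ 2 := by
    rw [← sq_abs t]
    rcases le_total (l ^ 2) (1 / |t|) with h | h
    · have h1 : 1 / (|t| * l) ≤ ρ := le_max_right _ _
      have h2 : (1 / (|t| * l)) ^ 2 ≤ ρ ^ 2 := by gcongr
      calc 1 / |t| ^ 2 = l ^ 2 * (1 / (|t| * l)) ^ 2 := by field_simp
        _ ≤ M * ρ ^ 2 := by rw [hM, min_eq_left h]; gcongr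
    · have h2 : l ^ 2 ≤ ρ ^ 2 := by gcongr
      calc 1 / |t| ^ 2 = (1 / |t|) * (1 / |t|) := by field_simp
        _ ≤ (1 / |t|) * l ^ 2 := by gcongr
        _ ≤ M * ρ ^ 2 := by rw [hM, min_eq_right h]; gcongr
  have hu : x / ρ - y0 / ρ = (x - y0) / ρ := by ring
  rw [hu, ← div_eq_mul_inv, le_div_iff₀ (by positivity)]
  by_cases hc : |x - y0| ≤ 2 * ρ
  · have h1 : ((x - y0) / ρ) ^ 2 ≤ 4 := by
      rw [div_pow, div_le_iff₀ (by positivity), ← sq_abs]
      nlinarith [abs_nonneg (x - y0)]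
    nlinarith [sq_nonneg J]
  · rw [not_le] at hc
    have hx0 : 0 < |x - y0| := by linarith
    have h1 : J ≤ 1 / (Real.pi * |t| * |x - y0|) := by
      rw [hJ, Jn_eq ht]
      refine gq_far ht (by linarith) ⟨by linarith [hx.1], by linarith [hx.2]⟩ ?_ hx0
      linarith
    have h2 : J * |x - y0| ≤ 1 / |t| := by
      have h3 : J * |x - y0| ≤ 1 / (Real.pi * |t| * |x - y0|) * |x - y0| := by gcongr
      refine h3.trans ?_
      rw [show 1 / (Real.pi * |t| * |x - y0|) * |x - y0| = 1 / (Real.pi * |t|) by field_simp]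
      refine one_div_le_one_div_of_le ht0 ?_
      have := Real.pi_gt_three
      nlinarith
    have h3 : (J * |x - y0|) ^ 2 ≤ M * ρ ^ 2 := by
      calc (J * |x - y0|) ^ 2 ≤ (1 / |t|) ^ 2 := by gcongr
        _ = 1 / t ^ 2 := by rw [div_pow, one_pow, sq_abs]
        _ ≤ _ := hMρ
    have h4 : J ^ 2 * ((x - y0) / ρ) ^ 2 ≤ M := by
      rw [div_pow, ← mul_div_assoc, div_le_iff₀ (by positivity)]
      calc J ^ 2 * (x - y0) ^ 2 = (J * |x - y0|) ^ 2 := by rw [mul_pow, sq_abs]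
        _ ≤ _ := h3
    nlinarith

/-- endpoints of the dyadic intervals -/
noncomputable def ep (j i : ℕ) : ℝ := -1 + i * (1 / 2) ^ j

theorem ep_succ (j i : ℕ) : ep j (i + 1) = ep j i + (1 / 2) ^ j := by
  unfold ep
  push_cast
  ring

theorem Jsum_one {β t : ℝ} (ht : t ≠ 0) (j : ℕ) (n : ℕ) :
    ∑ i ∈ Finset.range n, ‖Jn β t (ep j i) (ep j (i + 1))‖ ^ 2 ≤ 45 * Real.pi / |t| := by
  have ht0 := abs_pos.2 ht
  set l : ℝ := (1 / 2) ^ j with hl
  have hl0 : 0 < l := by positivity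
  set M := min (l ^ 2) (1 / |t|) with hM
  set ρ := max l (1 / (|t| * l)) with hρ
  set y0 := -β / (2 * t) with hy0
  have hρ0 : 0 < ρ := lt_of_lt_of_le hl0 (le_max_left _ _)
  have hM0 : 0 < M := lt_min (by positivity) (by positivity)
  set W : ℝ → ℝ := fun x => 45 * M * (1 + (x / ρ - y0 / ρ) ^ 2)⁻¹ with hW
  have hWc : Continuous W := by
    rw [hW]
    refine continuous_const.mul (Continuous.inv₀ (by fun_prop) fun x => ?_)
    positivity
  have h1 : ∀ i ∈ Finset.range n, ‖Jn β t (ep j i) (ep j (i + 1))‖ ^ 2 ≤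
      l⁻¹ * ∫ x in (ep j i)..(ep j (i + 1)), W x := by
    intro i _
    have hab : ep j i ≤ ep j (i + 1) := by rw [ep_succ]; linarith
    have h2 : ∫ x in (ep j i)..(ep j (i + 1)), ‖Jn β t (ep j i) (ep j (i + 1))‖ ^ 2 ≤
        ∫ x in (ep j i)..(ep j (i + 1)), W x := by
      refine intervalIntegral.integral_mono_on hab intervalIntegrable_const
        (hWc.intervalIntegrable _ _) fun x hx => ?_
      exact Jn_major ht hl0 (ep_succ j i) hx
    rw [intervalIntegral.integral_const, smul_eq_mul, ep_succ, add_sub_cancel_left] at h2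
    rw [← ep_succ] at h2
    rw [← div_eq_inv_mul, le_div_iff₀ hl0, mul_comm]
    exact h2
  refine (Finset.sum_le_sum h1).trans ?_
  rw [← Finset.mul_sum, intervalIntegral.sum_integral_adjacent_intervals
    (fun k _ => hWc.intervalIntegrable _ _)]
  have h3 : ∫ x in (ep j 0)..(ep j n), W x ≤ 45 * M * (ρ * Real.pi) := by
    rw [hW, intervalIntegral.integral_const_mul]
    gcongr
    rw [intervalIntegral.integral_comp_div_sub (fun x => (1 + x ^ 2)⁻¹) hρ0.ne',
      smul_eq_mul, integral_inv_one_add_sq]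
    gcongr
    have h4 := Real.arctan_lt_pi_div_two (ep j n / ρ - y0 / ρ)
    have h5 := Real.neg_pi_div_two_lt_arctan (ep j 0 / ρ - y0 / ρ)
    linarith
  have h6 : M * ρ / l = 1 / |t| := by
    rcases le_total (l ^ 2) (1 / |t|) with h | h
    · have hr : ρ = 1 / (|t| * l) := by
        rw [hρ]
        refine max_eq_right ?_
        rw [le_div_iff₀ ht0] at h
        rw [le_div_iff₀ (by positivity)]
        nlinarith
      rw [hr, hM, min_eq_left h]
      field_simp
    · have hr : ρ = l := by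
        rw [hρ]
        refine max_eq_left ?_
        rw [div_le_iff₀ ht0] at h
        rw [div_le_iff₀ (by positivity)]
        nlinarith
      rw [hr, hM, min_eq_right h]
      field_simp
  calc l⁻¹ * ∫ x in (ep j 0)..(ep j n), W x ≤ l⁻¹ * (45 * M * (ρ * Real.pi)) := by gcongr
    _ = 45 * Real.pi * (M * ρ / l) := by ring
    _ = 45 * Real.pi / |t| := by rw [h6]; ring

theorem Jsum_two (β t : ℝ) (j : ℕ) :
    ∑ i ∈ Finset.range (2 ^ (j + 1)), ‖Jn β t (ep j i) (ep j (i + 1))‖ ^ 2 ≤ 2 * (1 / 2) ^ j := by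
  have h1 : ∀ i ∈ Finset.range (2 ^ (j + 1)), ‖Jn β t (ep j i) (ep j (i + 1))‖ ^ 2 ≤
      ((1 / 2 : ℝ) ^ j) ^ 2 := by
    intro i _
    have hj0 : (0 : ℝ) < (1 / 2) ^ j := by positivity
    have hle : ep j i ≤ ep j (i + 1) := by rw [ep_succ]; linarith
    have h := Jn_trivial β t hle
    have he : ep j (i + 1) - ep j i = (1 / 2) ^ j := by rw [ep_succ]; ring
    rw [he] at h
    gcongr
  refine (Finset.sum_le_sum h1).trans (le_of_eq ?_)
  rw [Finset.sum_const, Finset.card_range, nsmul_eq_mul]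
  push_cast
  rw [pow_succ, div_pow, one_pow]
  field_simp

/-- the combined bound -/
theorem Jsum (β t : ℝ) (j : ℕ) {θ : ℝ} (h0 : 0 ≤ θ) (h1 : θ ≤ 1) :
    ∑ i ∈ Finset.range (2 ^ (j + 1)), ‖Jn β t (ep j i) (ep j (i + 1))‖ ^ 2 ≤
      300 * (1 / (1 + |t|)) ^ θ * ((1 / 2) ^ j) ^ (1 - θ) := by
  set S := ∑ i ∈ Finset.range (2 ^ (j + 1)), ‖Jn β t (ep j i) (ep j (i + 1))‖ ^ 2 with hS
  have hS0 : 0 ≤ S := Finset.sum_nonneg fun i _ => by positivity
  have ha := abs_nonneg t
  have hj : (1 / 2 : ℝ) ^ j ≤ 1 := pow_le_one₀ (by norm_num) (by norm_num)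
  have hj0 : (0 : ℝ) < (1 / 2) ^ j := by positivity
  have h2 : S ≤ 300 * (1 / 2) ^ j := (Jsum_two β t j).trans (by nlinarith)
  have h3 : S ≤ 300 * (1 / (1 + |t|)) := by
    rw [mul_one_div, le_div_iff₀ (by positivity)]
    by_cases ht : |t| ≤ 1
    · have h4 := Jsum_two β t j
      rw [← hS] at h4
      nlinarith
    · rw [not_le] at ht
      have ht0 : t ≠ 0 := by
        intro h
        rw [h, abs_zero] at ht
        linarith
      have h4 := Jsum_one (β := β) ht0 j (2 ^ (j + 1))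
      rw [← hS, le_div_iff₀ (by linarith)] at h4
      have := Real.pi_lt_d2
      nlinarith
  calc S = S ^ θ * S ^ (1 - θ) := by
        by_cases hz : S = 0
        · rw [hz]
          by_cases hθ : θ = 0
          · rw [hθ]; norm_num
          · rw [Real.zero_rpow hθ, zero_mul]
        · rw [← Real.rpow_add (lt_of_le_of_ne hS0 (Ne.symm hz))]
          norm_num
    _ ≤ (300 * (1 / (1 + |t|))) ^ θ * (300 * (1 / 2) ^ j) ^ (1 - θ) := by
        have h5 := Real.rpow_le_rpow hS0 h3 h0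
        have h6 := Real.rpow_le_rpow hS0 h2 (by linarith : 0 ≤ 1 - θ)
        have h7 := Real.rpow_nonneg hS0 (1 - θ)
        have h8 : 0 ≤ (300 * (1 / (1 + |t|))) ^ θ := by positivity
        exact mul_le_mul h5 h6 h7 h8
    _ = 300 * (1 / (1 + |t|)) ^ θ * ((1 / 2) ^ j) ^ (1 - θ) := by
        rw [Real.mul_rpow (by norm_num) (by positivity), Real.mul_rpow (by norm_num) hj0.le]
        have h9 : (300 : ℝ) ^ θ * 300 ^ (1 - θ) = 300 := by
          rw [← Real.rpow_add (by norm_num)]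
          norm_num
        calc (300 : ℝ) ^ θ * (1 / (1 + |t|)) ^ θ * (300 ^ (1 - θ) * ((1 / 2) ^ j) ^ (1 - θ))
            = (300 ^ θ * 300 ^ (1 - θ)) * (1 / (1 + |t|)) ^ θ * ((1 / 2) ^ j) ^ (1 - θ) := by ring
          _ = _ := by rw [h9]

end H26.MX
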