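import Mathlib
import Pool.Agent.H26.MX.M3
import Pool.Agent.H26.MX.M4
set_option autoImplicit false

/-! Fubini, Plancherel in the second variable, and step functions. -/

namespace H26.MX

open MeasureTheory Complex Set Filter Topology
open scoped ENNReal
open Pool.Agent.R412.RT (ee ee_norm ee_add ee_conj ee_meas ee_cont)
open Pool.Agent.R412.RH (planch1)
open Pool.Agent.K4H66.RV (Pf Pf_meas volA Ef pph Ef_meas pph_int Ef_le cs_enorm)

theorem ee_enorm (s : ℝ) : ‖ee s‖ₑ = 1 := by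
  rw [← ofReal_norm, ee_norm, ENNReal.ofReal_one]

theorem pph_split (ω : ℝ × (ℝ × ℝ)) (x y : ℝ) :
    pph ω (x, y) = (y * ω.2.2 + y ^ 2 * ω.1) + (x * ω.2.1 + x ^ 2 * ω.1) := by
  unfold pph
  ring

theorem Ef_fub (F : ℝ × ℝ → ℂ) (hF : Integrable F) (ω : ℝ × (ℝ × ℝ)) :
    Ef F ω = ∫ y, ee (y * ω.2.2 + y ^ 2 * ω.1) * Pf (fun x => F (x, y)) ω.2.1 ω.1 := by
  unfold Ef
  have hi := pph_int F hF ω
  rw [Measure.volume_eq_prod] at hi ⊢
  rw [integral_prod_symm _ hi]
  refine integral_congr_ae (Eventually.of_forall fun y => ?_)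
  show ∫ x, ee (pph ω (x, y)) * F (x, y) = ee (y * ω.2.2 + y ^ 2 * ω.1) *
    ∫ x, ee (x * ω.2.1 + x ^ 2 * ω.1) * F (x, y)
  rw [← integral_const_mul]
  refine integral_congr_ae (Eventually.of_forall fun x => ?_)
  show ee (pph ω (x, y)) * F (x, y) = _
  rw [pph_split, ee_add]
  ring

theorem Pf_int (F : ℝ × ℝ → ℂ) (hF : Integrable F) (α t : ℝ) :
    Integrable fun y => Pf (fun x => F (x, y)) α t := by
  have h1 : Integrable (fun p : ℝ × ℝ => ee (p.1 * α + p.1 ^ 2 * t) * F p)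
      (volume.prod volume) := by
    rw [← Measure.volume_eq_prod]
    refine hF.bdd_mul (c := 1) ?_ (Eventually.of_forall fun x => (ee_norm _).le)
    exact (ee_meas.comp (by fun_prop)).aestronglyMeasurable
  exact h1.integral_prod_right

theorem Ef_undef (F : ℝ × ℝ → ℂ) (hF : Measurable F) (h : ¬ Integrable F) (ω : ℝ × (ℝ × ℝ)) :
    Ef F ω = 0 := by
  unfold Ef
  refine integral_undef fun h1 => h ?_
  refine h1.norm.mono' hF.aestronglyMeasurable (Eventually.of_forall fun x => ?_)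
  rw [norm_mul, ee_norm, one_mul]

/-- Plancherel in the second frequency -/
theorem planB (F : ℝ × ℝ → ℂ) (hF : Measurable F) (α t : ℝ) :
    ∫⁻ β, ‖Ef F (t, (α, β))‖ₑ ^ 2 ≤ H2 F (α, t) := by
  by_cases hi : Integrable F
  · have h1 := Pf_int F hi α t
    have h2 : Integrable fun y => ee (y ^ 2 * t) * Pf (fun x => F (x, y)) α t := by
      refine h1.bdd_mul (c := 1) ?_ (Eventually.of_forall fun x => (ee_norm _).le)
      exact (ee_meas.comp (by fun_prop)).aestronglyMeasurable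
    have h3 := planch1 _ h2
    refine le_trans (le_of_eq ?_) (h3.trans (le_of_eq ?_))
    · refine lintegral_congr fun β => ?_
      rw [Ef_fub F hi]
      congr 2
      refine integral_congr_ae (Eventually.of_forall fun y => ?_)
      show ee (y * β + y ^ 2 * t) * _ = _
      rw [ee_add]
      ring
    · unfold H2
      refine lintegral_congr fun y => ?_
      rw [enorm_mul, ee_enorm, one_mul]
  · simp [Ef_undef F hF hi]

/-- index of the dyadic interval -/
noncomputable def idx (j : ℕ) (y : ℝ) : ℕ := ⌊(y + 1) * 2 ^ j⌋₊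

theorem idx_meas (j : ℕ) : Measurable (idx j) := by
  unfold idx
  exact Nat.measurable_floor.comp (by fun_prop)

theorem idx_iff (j i : ℕ) {y : ℝ} (hy : -1 ≤ y) :
    idx j y = i ↔ y ∈ Ico (ep j i) (ep j (i + 1)) := by
  have h2 : (0 : ℝ) < 2 ^ j := by positivity
  have e : (1 / 2 : ℝ) ^ j = 1 / 2 ^ j := by rw [div_pow, one_pow]
  unfold idx
  rw [Nat.floor_eq_iff (by nlinarith), mem_Ico]
  unfold ep
  rw [e]
  constructor
  · rintro ⟨h3, h4⟩
    constructor
    · have : (i : ℝ) * (1 / 2 ^ j) ≤ y + 1 := by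
        rw [mul_one_div, div_le_iff₀ h2]; exact h3
      linarith
    · have : y + 1 < ((i : ℝ) + 1) * (1 / 2 ^ j) := by
        rw [mul_one_div, lt_div_iff₀ h2]; exact h4
      push_cast
      linarith
  · rintro ⟨h3, h4⟩
    push_cast at h4
    constructor
    · have : (i : ℝ) * (1 / 2 ^ j) ≤ y + 1 := by linarith
      rwa [mul_one_div, div_le_iff₀ h2] at this
    · have : y + 1 < ((i : ℝ) + 1) * (1 / 2 ^ j) := by linarith
      rwa [mul_one_div, lt_div_iff₀ h2] at this

theorem idx_half (j : ℕ) (y : ℝ) : idx (j + 1) y / 2 = idx j y := by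
  unfold idx
  rw [← Nat.floor_div_natCast]
  congr 1
  push_cast
  rw [pow_succ]
  ring

theorem ep_zero (j : ℕ) : ep j 0 = -1 := by unfold ep; simp

theorem ep_last (j : ℕ) : ep j (2 ^ (j + 1)) = 1 := by
  unfold ep
  push_cast
  rw [pow_succ, div_pow, one_pow]
  field_simp
  norm_num

theorem ep_ge (j i : ℕ) : -1 ≤ ep j i := by
  unfold ep
  have : (0 : ℝ) ≤ i * (1 / 2) ^ j := by positivity
  linarith

theorem ep_mono (j i : ℕ) : ep j i ≤ ep j (i + 1) := by
  rw [ep_succ]
  have : (0 : ℝ) ≤ (1 / 2) ^ j := by positivity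
  linarith

theorem lint_split (j n : ℕ) (h : ℝ → ℝ≥0∞) :
    ∫⁻ y in Ico (ep j 0) (ep j n), h y =
      ∑ i ∈ Finset.range n, ∫⁻ y in Ico (ep j i) (ep j (i + 1)), h y := by
  induction n with
  | zero => simp
  | succ n ih =>
    have hle : ep j 0 ≤ ep j n := by
      rw [ep_zero]; exact ep_ge j n
    rw [Finset.sum_range_succ, ← ih, ← Ico_union_Ico_eq_Ico hle (ep_mono j n),
      lintegral_union measurableSet_Ico]
    rw [Set.disjoint_left]
    intro y hy1 hy2
    exact absurd hy1.2 (not_lt.2 hy2.1)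

theorem int_split (j n : ℕ) (h : ℝ → ℂ) (hi : IntegrableOn h (Ico (ep j 0) (ep j n))) :
    ∫ y in Ico (ep j 0) (ep j n), h y =
      ∑ i ∈ Finset.range n, ∫ y in Ico (ep j i) (ep j (i + 1)), h y := by
  induction n with
  | zero => simp
  | succ n ih =>
    have hle : ep j 0 ≤ ep j n := by
      rw [ep_zero]; exact ep_ge j n
    rw [← Ico_union_Ico_eq_Ico hle (ep_mono j n)] at hi ⊢
    rw [Finset.sum_range_succ, ← ih hi.left_of_union, setIntegral_union _ measurableSet_Ico
      hi.left_of_union hi.right_of_union]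
    rw [Set.disjoint_left]
    intro y hy1 hy2
    exact absurd hy1.2 (not_lt.2 hy2.1)

/-- square norm of a step function -/
theorem step_sq (j : ℕ) (φ : ℕ → ℂ) :
    ∫⁻ y, ‖(Ico (-1 : ℝ) 1).indicator (fun y => φ (idx j y)) y‖ₑ ^ 2 =
      ENNReal.ofReal ((1 / 2) ^ j) * ∑ i ∈ Finset.range (2 ^ (j + 1)), ‖φ i‖ₑ ^ 2 := by
  have h1 : ∀ y, ‖(Ico (-1 : ℝ) 1).indicator (fun y => φ (idx j y)) y‖ₑ ^ 2 =
      (Ico (-1 : ℝ) 1).indicator (fun y => ‖φ (idx j y)‖ₑ ^ 2) y := by
    intro y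
    by_cases hy : y ∈ Ico (-1 : ℝ) 1
    · rw [indicator_of_mem hy, indicator_of_mem hy]
    · rw [indicator_of_notMem hy, indicator_of_notMem hy, enorm_zero]
      norm_num
  simp_rw [h1]
  rw [lintegral_indicator measurableSet_Ico]
  have h2 := lint_split j (2 ^ (j + 1)) fun y => ‖φ (idx j y)‖ₑ ^ 2
  rw [ep_zero, ep_last] at h2
  rw [h2, Finset.mul_sum]
  refine Finset.sum_congr rfl fun i _ => ?_
  have h3 : ∫⁻ y in Ico (ep j i) (ep j (i + 1)), ‖φ (idx j y)‖ₑ ^ 2 =
      ∫⁻ y in Ico (ep j i) (ep j (i + 1)), ‖φ i‖ₑ ^ 2 := by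
    refine setLIntegral_congr_fun measurableSet_Ico fun y hy => ?_
    have : idx j y = i := (idx_iff j i ((ep_ge j i).trans hy.1)).2 hy
    simp only [this]
  rw [h3, setLIntegral_const, Real.volume_Ico, ep_succ, add_sub_cancel_left, mul_comm]

/-- oscillatory integral of a step function -/
theorem step_int (j : ℕ) (φ : ℕ → ℂ) (β t : ℝ) :
    ∫ y, ee (y * β + y ^ 2 * t) * (Ico (-1 : ℝ) 1).indicator (fun y => φ (idx j y)) y =
      ∑ i ∈ Finset.range (2 ^ (j + 1)), φ i * Jn β t (ep j i) (ep j (i + 1)) := by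
  have h1 : ∀ y, ee (y * β + y ^ 2 * t) * (Ico (-1 : ℝ) 1).indicator (fun y => φ (idx j y)) y =
      (Ico (-1 : ℝ) 1).indicator (fun y => ee (y * β + y ^ 2 * t) * φ (idx j y)) y := by
    intro y
    by_cases hy : y ∈ Ico (-1 : ℝ) 1
    · rw [indicator_of_mem hy, indicator_of_mem hy]
    · rw [indicator_of_notMem hy, indicator_of_notMem hy, mul_zero]
  simp_rw [h1]
  rw [integral_indicator measurableSet_Ico]
  have hb : ∃ M : ℝ, ∀ y ∈ Ico (-1 : ℝ) 1, ‖φ (idx j y)‖ ≤ M := by
    refine ⟨∑ i ∈ Finset.range (2 ^ (j + 1)), ‖φ i‖, fun y hy => ?_⟩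
    refine Finset.single_le_sum (f := fun i => ‖φ i‖) (fun i _ => norm_nonneg _) ?_
    rw [Finset.mem_range]
    have h2 : (0 : ℝ) < 2 ^ j := by positivity
    unfold idx
    rw [Nat.floor_lt (by nlinarith [hy.1])]
    push_cast
    rw [pow_succ]
    nlinarith [hy.2]
  obtain ⟨M, hM⟩ := hb
  have hi : IntegrableOn (fun y => ee (y * β + y ^ 2 * t) * φ (idx j y))
      (Ico (ep j 0) (ep j (2 ^ (j + 1)))) := by
    rw [ep_zero, ep_last]
    refine Measure.integrableOn_of_bounded (M := M) (by simp) ?_ ?_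
    · refine AEStronglyMeasurable.mul ?_ ?_
      · exact (ee_meas.comp (by fun_prop)).aestronglyMeasurable
      · exact ((measurable_of_countable φ).comp (idx_meas j)).aestronglyMeasurable
    · rw [ae_restrict_iff' measurableSet_Ico]
      refine Eventually.of_forall fun y hy => ?_
      rw [norm_mul, ee_norm, one_mul]
      exact hM y hy
  have h2 := int_split j (2 ^ (j + 1)) _ hi
  rw [ep_zero, ep_last] at h2
  rw [h2]
  refine Finset.sum_congr rfl fun i _ => ?_
  have h3 : ∫ y in Ico (ep j i) (ep j (i + 1)), ee (y * β + y ^ 2 * t) * φ (idx j y) =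
      ∫ y in Ico (ep j i) (ep j (i + 1)), φ i * ee (y * β + y ^ 2 * t) := by
    refine setIntegral_congr_fun measurableSet_Ico fun y hy => ?_
    have : idx j y = i := (idx_iff j i ((ep_ge j i).trans hy.1)).2 hy
    simp only [this]
    ring
  rw [h3, integral_const_mul]
  unfold Jn
  rw [intervalIntegral.integral_of_le (ep_mono j i), integral_Ico_eq_integral_Ioo,
    integral_Ioc_eq_integral_Ioo]

/-- a function which is a step function in the second variable -/
noncomputable def St (j : ℕ) (c : ℕ → ℝ → ℂ) (p : ℝ × ℝ) : ℂ :=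
  (Ico (-1 : ℝ) 1).indicator (fun y => c (idx j y) p.1) p.2

theorem St_meas (j : ℕ) (c : ℕ → ℝ → ℂ) (hc : ∀ i, Measurable (c i)) : Measurable (St j c) := by
  have h1 : Measurable fun p : ℝ × ℝ => c (idx j p.2) p.1 := by
    have h2 : Measurable fun z : ℕ × ℝ => c z.1 z.2 := measurable_from_prod_countable_right hc
    exact h2.comp (((idx_meas j).comp measurable_snd).prodMk measurable_fst)
  have h : St j c = (Prod.snd ⁻¹' (Ico (-1 : ℝ) 1)).indicator fun p => c (idx j p.2) p.1 := by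
    ext p
    unfold St
    by_cases hp : p.2 ∈ Ico (-1 : ℝ) 1
    · rw [indicator_of_mem hp, indicator_of_mem (show p ∈ Prod.snd ⁻¹' (Ico (-1 : ℝ) 1) from hp)]
    · rw [indicator_of_notMem hp,
        indicator_of_notMem (show p ∉ Prod.snd ⁻¹' (Ico (-1 : ℝ) 1) from hp)]
  rw [h]
  exact h1.indicator (measurable_snd measurableSet_Ico)

theorem St_Pf (j : ℕ) (c : ℕ → ℝ → ℂ) (α t y : ℝ) :
    Pf (fun x => St j c (x, y)) α t =
      (Ico (-1 : ℝ) 1).indicator (fun y => Pf (c (idx j y)) α t) y := by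
  by_cases hy : y ∈ Ico (-1 : ℝ) 1
  · rw [indicator_of_mem hy]
    unfold St
    simp only [indicator_of_mem hy]
  · rw [indicator_of_notMem hy]
    unfold St
    simp only [indicator_of_notMem hy]
    unfold Pf
    simp

/-- **the uniform bound for step functions** -/
theorem St_sup (j : ℕ) (c : ℕ → ℝ → ℂ) (hc : ∀ i, Measurable (c i)) {σ : ℝ} (h0 : 0 ≤ σ)
    (h1 : σ ≤ 1 / 2) (α β t : ℝ) :
    ‖Ef (St j c) (t, (α, β))‖ₑ ≤ ENNReal.ofReal (18 * (1 / (1 + |t|)) ^ σ) *
      (ENNReal.ofReal (2 ^ (σ * j)) * Hh (St j c) (α, t)) := by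
  by_cases hi : Integrable (St j c)
  · have e1 := Ef_fub _ hi (t, (α, β))
    simp only [St_Pf] at e1
    rw [step_int j (fun i => Pf (c i) α t)] at e1
    have e2 : H2 (St j c) (α, t) = ENNReal.ofReal ((1 / 2) ^ j) *
        ∑ i ∈ Finset.range (2 ^ (j + 1)), ‖Pf (c i) α t‖ₑ ^ 2 := by
      unfold H2
      simp only [St_Pf]
      exact step_sq j fun i => Pf (c i) α t
    have e3 : ∑ i ∈ Finset.range (2 ^ (j + 1)), ‖Pf (c i) α t‖ₑ ^ 2 =
        ENNReal.ofReal (2 ^ j) * H2 (St j c) (α, t) := by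
      rw [e2, ← mul_assoc, ← ENNReal.ofReal_mul (by positivity), ← mul_pow]
      norm_num
    have hcs := cs_enorm (fun i : Fin (2 ^ (j + 1)) => Pf (c i) α t)
      (fun i : Fin (2 ^ (j + 1)) => Jn β t (ep j i) (ep j (i + 1)))
    rw [Fin.sum_univ_eq_sum_range (fun i => Pf (c i) α t * Jn β t (ep j i) (ep j (i + 1))),
      Fin.sum_univ_eq_sum_range (fun i => ‖Pf (c i) α t‖ₑ ^ 2),
      Fin.sum_univ_eq_sum_range (fun i => ‖Jn β t (ep j i) (ep j (i + 1))‖ₑ ^ 2), ← e1, e3] at hcs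
    have hJ : ∑ i ∈ Finset.range (2 ^ (j + 1)), ‖Jn β t (ep j i) (ep j (i + 1))‖ₑ ^ 2 ≤
        ENNReal.ofReal (300 * (1 / (1 + |t|)) ^ (2 * σ) * ((1 / 2) ^ j) ^ (1 - 2 * σ)) := by
      have h2 := ENNReal.ofReal_le_ofReal (Jsum β t j (θ := 2 * σ) (by linarith) (by linarith))
      rw [ENNReal.ofReal_sum_of_nonneg (fun i _ => by positivity)] at h2
      refine le_trans (le_of_eq (Finset.sum_congr rfl fun i _ => ?_)) h2
      rw [← ofReal_norm, ENNReal.ofReal_pow (norm_nonneg _)]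
    have ht : (0 : ℝ) < 1 / (1 + |t|) := by positivity
    have h3 : ‖Ef (St j c) (t, (α, β))‖ₑ ^ 2 ≤
        (ENNReal.ofReal (18 * (1 / (1 + |t|)) ^ σ) *
        (ENNReal.ofReal (2 ^ (σ * j)) * Hh (St j c) (α, t))) ^ 2 := by
      refine hcs.trans ?_
      calc ENNReal.ofReal (2 ^ j) * H2 (St j c) (α, t) *
          ∑ i ∈ Finset.range (2 ^ (j + 1)), ‖Jn β t (ep j i) (ep j (i + 1))‖ₑ ^ 2
          ≤ ENNReal.ofReal (2 ^ j) * H2 (St j c) (α, t) *
            ENNReal.ofReal (300 * (1 / (1 + |t|)) ^ (2 * σ) * ((1 / 2) ^ j) ^ (1 - 2 * σ)) := by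
            gcongr
        _ = ENNReal.ofReal (2 ^ j * (300 * (1 / (1 + |t|)) ^ (2 * σ) *
            ((1 / 2) ^ j) ^ (1 - 2 * σ))) * H2 (St j c) (α, t) := by
            rw [ENNReal.ofReal_mul (p := (2 : ℝ) ^ j) (by positivity)]
            ring
        _ ≤ ENNReal.ofReal ((18 * (1 / (1 + |t|)) ^ σ * 2 ^ (σ * j)) ^ 2) *
            H2 (St j c) (α, t) := by
            gcongr
            have e4 : ((1 / (1 + |t|)) ^ σ) ^ 2 = (1 / (1 + |t|)) ^ (2 * σ) := by
              rw [← Real.rpow_natCast, ← Real.rpow_mul ht.le]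
              congr 1
              push_cast
              ring
            have e5 : ((2 : ℝ) ^ (σ * j)) ^ 2 = 2 ^ j * ((1 / 2) ^ j) ^ (1 - 2 * σ) := by
              rw [one_div, inv_pow, Real.inv_rpow (by positivity), ← Real.rpow_neg (by positivity),
                ← Real.rpow_natCast, ← Real.rpow_natCast 2 j, ← Real.rpow_mul (by norm_num),
                ← Real.rpow_mul (by norm_num), ← Real.rpow_add (by norm_num)]
              congr 1
              push_cast
              ring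
            rw [mul_pow, mul_pow, e4, e5]
            have h5 : 0 ≤ (1 / (1 + |t|)) ^ (2 * σ) * ((2 : ℝ) ^ j * ((1 / 2) ^ j) ^ (1 - 2 * σ)) := by
              positivity
            nlinarith
        _ = _ := by
            rw [ENNReal.ofReal_pow (by positivity), ENNReal.ofReal_mul (by positivity), ← Hh_sq]
            ring
    by_contra hlt
    rw [not_le] at hlt
    exact absurd h3 (not_le.2 (ENNReal.pow_lt_pow_left two_ne_zero hlt))
  · rw [Ef_undef _ (St_meas j c hc) hi, enorm_zero]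
    exact zero_le

end H26.MX
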