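import Mathlib
import Pool.Agent.H26.MX.M5
set_option autoImplicit false

/-! Dyadic averages in the second variable. -/

namespace H26.MX

open MeasureTheory Complex Set Filter Topology
open scoped ENNReal
open Pool.Agent.R412.RT (ee ee_norm ee_add ee_conj ee_meas ee_cont)
open Pool.Agent.K4H66.RV (Pf Pf_meas volA Ef pph Ef_meas pph_int Ef_le)

/-- regularity of order `s` in the second variable, with majorant `B` -/
structure Reg (s : ℝ) (B : ℝ → ℝ≥0∞) (g : ℝ × ℝ → ℂ) : Prop where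
  meas : Measurable g
  supp : ∀ x y, (x ∉ Ib ∨ y ∉ Ib) → g (x, y) = 0
  size : ∀ᵐ x, N2 g x ≤ B x ^ 2
  modu : ∀ᵐ x, ∀ h ∈ Ioc (0 : ℝ) 1,
    ∫⁻ y, ‖g (x, y + h) - g (x, y)‖ₑ ^ 2 ≤ B x ^ 2 * ENNReal.ofReal (h ^ (2 * s))

/-- averages over dyadic intervals -/
noncomputable def Av (g : ℝ × ℝ → ℂ) (j i : ℕ) (x : ℝ) : ℂ :=
  ((2 : ℝ) ^ j : ℝ) * ∫ y in Ico (ep j i) (ep j (i + 1)), g (x, y)

theorem Av_meas {g : ℝ × ℝ → ℂ} (hg : Measurable g) (j i : ℕ) : Measurable (Av g j i) := by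
  unfold Av
  refine Measurable.const_mul ?_ _
  exact (hg.stronglyMeasurable.integral_prod_right (f := fun x y => g (x, y))).measurable

/-- coefficients of the differences -/
noncomputable def co (g : ℝ × ℝ → ℂ) : ℕ → ℕ → ℝ → ℂ
  | 0, i, x => Av g 0 i x
  | j + 1, i, x => Av g (j + 1) i x - Av g j (i / 2) x

theorem co_meas {g : ℝ × ℝ → ℂ} (hg : Measurable g) (j i : ℕ) : Measurable (co g j i) := by
  rcases j with - | j
  · exact Av_meas hg 0 i
  · exact (Av_meas hg (j + 1) i).sub (Av_meas hg j (i / 2))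

theorem St_succ (g : ℝ × ℝ → ℂ) (j : ℕ) (p : ℝ × ℝ) :
    St (j + 1) (co g (j + 1)) p = St (j + 1) (Av g (j + 1)) p - St j (Av g j) p := by
  unfold St
  by_cases hp : p.2 ∈ Ico (-1 : ℝ) 1
  · rw [indicator_of_mem hp, indicator_of_mem hp, indicator_of_mem hp]
    show Av g (j + 1) (idx (j + 1) p.2) p.1 - Av g j (idx (j + 1) p.2 / 2) p.1 = _
    rw [idx_half]
  · rw [indicator_of_notMem hp, indicator_of_notMem hp, indicator_of_notMem hp, sub_zero]

theorem St_tele (g : ℝ × ℝ → ℂ) (J : ℕ) (p : ℝ × ℝ) :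
    ∑ k ∈ Finset.range (J + 1), St k (co g k) p = St J (Av g J) p := by
  induction J with
  | zero =>
    rw [Finset.sum_range_one]
    rfl
  | succ J ih =>
    rw [Finset.sum_range_succ, ih, St_succ]
    ring

/-- square of the distance to the averages -/
noncomputable def Rd (g : ℝ × ℝ → ℂ) (j : ℕ) (x : ℝ) : ℝ≥0∞ :=
  ∫⁻ y, ‖g (x, y) - St j (Av g j) (x, y)‖ₑ ^ 2

theorem int_of_L2 {u : ℝ → ℂ} (hu : Measurable u) (h : ∫⁻ y, ‖u y‖ₑ ^ 2 ≠ ∞) (S : Set ℝ)
    (hS : volume S ≠ ∞) : IntegrableOn u S := by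
  have hm : MemLp u 2 (volume.restrict S) := by
    refine MemLp.restrict S ⟨hu.aestronglyMeasurable, ?_⟩
    rw [eLpNorm_lt_top_iff_lintegral_rpow_enorm_lt_top (by norm_num) (by norm_num)]
    simp only [ENNReal.toReal_ofNat, ENNReal.rpow_two]
    exact lt_top_iff_ne_top.2 h
  have : IsFiniteMeasure (volume.restrict S) := ⟨by
    rw [Measure.restrict_apply_univ]
    exact lt_top_iff_ne_top.2 hS⟩
  exact hm.integrable (by norm_num)

theorem csS (S : Set ℝ) (f : ℝ → ℝ≥0∞) (hf : Measurable f) :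
    (∫⁻ y in S, f y) ^ 2 ≤ volume S * ∫⁻ y in S, f y ^ 2 := by
  have h2 := ENNReal.lintegral_mul_le_Lp_mul_Lq (volume.restrict S) (p := 2) (q := 2)
      (Real.HolderConjugate.two_two) (f := fun _ => 1) (g := f) aemeasurable_const hf.aemeasurable
  have h3 : ∫⁻ y in S, ((fun _ => (1 : ℝ≥0∞)) * f : ℝ → ℝ≥0∞) y = ∫⁻ y in S, f y := by
    refine lintegral_congr fun y => ?_
    simp
  rw [h3] at h2
  refine (pow_le_pow_left' h2 2).trans (le_of_eq ?_)
  rw [mul_pow, Pool.Agent.K4H66.RV.half_two', Pool.Agent.K4H66.RV.half_two']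
  simp

/-- pointwise bound by a local average of differences -/
theorem Rd_point {g : ℝ × ℝ → ℂ} (hg : Measurable g) (j : ℕ) (x : ℝ) (hx : N2 g x ≠ ∞)
    (hs : ∀ y, y ∉ Ib → g (x, y) = 0) (y : ℝ) :
    ‖g (x, y) - St j (Av g j) (x, y)‖ₑ ^ 2 ≤ ENNReal.ofReal (2 ^ j) *
      ∫⁻ h in Ioo (-((1 / 2 : ℝ) ^ j)) ((1 / 2) ^ j), ‖g (x, y + h) - g (x, y)‖ₑ ^ 2 := by
  set l : ℝ := (1 / 2) ^ j with hl
  have hl0 : 0 < l := by positivity
  have hgx : Measurable fun y => g (x, y) := hg.comp measurable_prodMk_left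
  by_cases hy : y ∈ Ico (-1 : ℝ) 1
  · set i := idx j y with hi
    have hyi : y ∈ Ico (ep j i) (ep j (i + 1)) := (idx_iff j i hy.1).1 hi.symm
    set I : Set ℝ := Ico (ep j i) (ep j (i + 1)) with hI
    have hv : volume I = ENNReal.ofReal l := by
      rw [hI, Real.volume_Ico, ep_succ, add_sub_cancel_left]
    have hvt : volume I ≠ ∞ := by rw [hv]; exact ENNReal.ofReal_ne_top
    have hint : IntegrableOn (fun y => g (x, y)) I := int_of_L2 hgx hx I hvt
    have e1 : St j (Av g j) (x, y) = Av g j i x := by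
      unfold St
      rw [indicator_of_mem hy]
    have e2 : g (x, y) - St j (Av g j) (x, y) =
        ((2 : ℝ) ^ j : ℝ) * ∫ z in I, (g (x, y) - g (x, z)) := by
      have : IsFiniteMeasure (volume.restrict I) := ⟨by
        rw [Measure.restrict_apply_univ]
        exact lt_top_iff_ne_top.2 hvt⟩
      rw [e1, integral_sub (integrable_const _) hint, mul_sub]
      unfold Av
      congr 1
      rw [setIntegral_const, measureReal_def, hv, ENNReal.toReal_ofReal hl0.le, real_smul,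
        ← mul_assoc, ← Complex.ofReal_mul, hl, ← mul_pow]
      norm_num
    have hm1 : Measurable fun z => ‖g (x, y) - g (x, z)‖ₑ := (hgx.const_sub _).enorm
    have e3 : ‖g (x, y) - St j (Av g j) (x, y)‖ₑ ^ 2 ≤ ENNReal.ofReal (2 ^ j) *
        ∫⁻ z in I, ‖g (x, y) - g (x, z)‖ₑ ^ 2 := by
      rw [e2, enorm_mul, mul_pow]
      have h1 : ‖(((2 : ℝ) ^ j : ℝ) : ℂ)‖ₑ = ENNReal.ofReal (2 ^ j) := by
        rw [← ofReal_norm, Complex.norm_real, Real.norm_of_nonneg (by positivity)]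
      rw [h1]
      calc ENNReal.ofReal (2 ^ j) ^ 2 * ‖∫ z in I, (g (x, y) - g (x, z))‖ₑ ^ 2
          ≤ ENNReal.ofReal (2 ^ j) ^ 2 * (∫⁻ z in I, ‖g (x, y) - g (x, z)‖ₑ) ^ 2 := by
            gcongr
            exact enorm_integral_le_lintegral_enorm _
        _ ≤ ENNReal.ofReal (2 ^ j) ^ 2 * (volume I * ∫⁻ z in I, ‖g (x, y) - g (x, z)‖ₑ ^ 2) := by
            gcongr
            exact csS I _ hm1
        _ = (ENNReal.ofReal (2 ^ j) * volume I) * (ENNReal.ofReal (2 ^ j) *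
            ∫⁻ z in I, ‖g (x, y) - g (x, z)‖ₑ ^ 2) := by ring
        _ = _ := by
            rw [hv, ← ENNReal.ofReal_mul (by positivity), hl, ← mul_pow]
            norm_num
    refine e3.trans ?_
    refine mul_le_mul_right ?_ _
    have hsub : I ⊆ Ioo (y - l) (y + l) := by
      intro z hz
      have h1 : ep j (i + 1) = ep j i + l := ep_succ j i
      constructor
      · have := hyi.2
        have := hz.1
        linarith
      · have := hz.2
        have := hyi.1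
        linarith
    calc ∫⁻ z in I, ‖g (x, y) - g (x, z)‖ₑ ^ 2
        ≤ ∫⁻ z in Ioo (y - l) (y + l), ‖g (x, y) - g (x, z)‖ₑ ^ 2 :=
          lintegral_mono_set hsub
      _ = ∫⁻ z, (Ioo (y - l) (y + l)).indicator (fun z => ‖g (x, y) - g (x, z)‖ₑ ^ 2) z :=
          (lintegral_indicator measurableSet_Ioo _).symm
      _ = ∫⁻ h, (Ioo (y - l) (y + l)).indicator (fun z => ‖g (x, y) - g (x, z)‖ₑ ^ 2) (y + h) :=
          (lintegral_add_left_eq_self _ y).symm
      _ = ∫⁻ h, (Ioo (-l) l).indicator (fun h => ‖g (x, y + h) - g (x, y)‖ₑ ^ 2) h := by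
          refine lintegral_congr fun h => ?_
          by_cases hh : h ∈ Ioo (-l) l
          · rw [indicator_of_mem hh, indicator_of_mem (show y + h ∈ Ioo (y - l) (y + l) from
              ⟨by linarith [hh.1], by linarith [hh.2]⟩), enorm_sub_rev]
          · rw [indicator_of_notMem hh, indicator_of_notMem fun hc => hh
              ⟨by linarith [hc.1], by linarith [hc.2]⟩]
      _ = _ := lintegral_indicator measurableSet_Ioo _
  · have h1 : g (x, y) = 0 := hs y fun h => hy ⟨by linarith [h.1], by linarith [h.2]⟩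
    have h2 : St j (Av g j) (x, y) = 0 := by
      unfold St
      rw [indicator_of_notMem hy]
    rw [h1, h2, sub_zero, enorm_zero]
    norm_num

/-- the modulus for all small shifts -/
theorem shift_all {g : ℝ × ℝ → ℂ} {s : ℝ} (hs : 0 ≤ s) (x : ℝ) {b : ℝ≥0∞}
    (hm : ∀ h ∈ Ioc (0 : ℝ) 1,
      ∫⁻ y, ‖g (x, y + h) - g (x, y)‖ₑ ^ 2 ≤ b * ENNReal.ofReal (h ^ (2 * s)))
    {l : ℝ} (hl1 : l ≤ 1) (h : ℝ) (hh : h ∈ Ioo (-l) l) :
    ∫⁻ y, ‖g (x, y + h) - g (x, y)‖ₑ ^ 2 ≤ b * ENNReal.ofReal (l ^ (2 * s)) := by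
  have key : ∀ k : ℝ, 0 < k → k < l →
      ∫⁻ y, ‖g (x, y + k) - g (x, y)‖ₑ ^ 2 ≤ b * ENNReal.ofReal (l ^ (2 * s)) := by
    intro k hk hkl
    refine (hm k ⟨hk, by linarith⟩).trans ?_
    refine mul_le_mul_right (ENNReal.ofReal_le_ofReal ?_) _
    exact Real.rpow_le_rpow hk.le hkl.le (by linarith)
  rcases lt_trichotomy h 0 with hneg | hz | hpos
  · have h1 := key (-h) (by linarith) (by linarith [hh.1])
    refine le_trans (le_of_eq ?_) h1
    rw [← lintegral_add_right_eq_self _ (-h)]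
    refine lintegral_congr fun y => ?_
    rw [show y + -h + h = y by ring, enorm_sub_rev]
  · rw [hz]
    simp
  · exact key h hpos hh.2

theorem Rd_le {g : ℝ × ℝ → ℂ} (hg : Measurable g) {s : ℝ} (hs0 : 0 ≤ s) (j : ℕ) (x : ℝ)
    (hx : N2 g x ≠ ∞) (hs : ∀ y, y ∉ Ib → g (x, y) = 0) {b : ℝ≥0∞}
    (hm : ∀ h ∈ Ioc (0 : ℝ) 1,
      ∫⁻ y, ‖g (x, y + h) - g (x, y)‖ₑ ^ 2 ≤ b * ENNReal.ofReal (h ^ (2 * s))) :
    Rd g j x ≤ 2 * ENNReal.ofReal (((1 / 2) ^ j) ^ (2 * s)) * b := by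
  set l : ℝ := (1 / 2) ^ j with hl
  have hl0 : 0 < l := by positivity
  have hl1 : l ≤ 1 := pow_le_one₀ (by norm_num) (by norm_num)
  have hmm : Measurable fun z : ℝ × ℝ => ‖g (x, z.1 + z.2) - g (x, z.1)‖ₑ ^ 2 := by
    refine (Measurable.sub ?_ ?_).enorm.pow_const 2
    · have hq : Measurable fun z : ℝ × ℝ => (x, z.1 + z.2) := by fun_prop
      exact hg.comp hq
    · have hq : Measurable fun z : ℝ × ℝ => (x, z.1) := by fun_prop
      exact hg.comp hq
  calc Rd g j x ≤ ∫⁻ y, ENNReal.ofReal (2 ^ j) *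
        ∫⁻ h in Ioo (-l) l, ‖g (x, y + h) - g (x, y)‖ₑ ^ 2 :=
        lintegral_mono fun y => Rd_point hg j x hx hs y
    _ = ENNReal.ofReal (2 ^ j) *
        ∫⁻ h in Ioo (-l) l, ∫⁻ y, ‖g (x, y + h) - g (x, y)‖ₑ ^ 2 := by
        rw [lintegral_const_mul' _ _ ENNReal.ofReal_ne_top]
        congr 1
        exact lintegral_lintegral_swap (f := fun y h => ‖g (x, y + h) - g (x, y)‖ₑ ^ 2)
          hmm.aemeasurable
    _ ≤ ENNReal.ofReal (2 ^ j) * ∫⁻ _h in Ioo (-l) l, b * ENNReal.ofReal (l ^ (2 * s)) := by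
        refine mul_le_mul_right ?_ _
        refine setLIntegral_mono' measurableSet_Ioo fun h hh => ?_
        exact shift_all hs0 x hm hl1 h hh
    _ = _ := by
        rw [setLIntegral_const, Real.volume_Ioo, show l - -l = 2 * l by ring,
          ENNReal.ofReal_mul zero_le_two, show ENNReal.ofReal 2 = 2 by norm_num]
        calc ENNReal.ofReal (2 ^ j) * (b * ENNReal.ofReal (l ^ (2 * s)) * (2 * ENNReal.ofReal l))
            = (ENNReal.ofReal (2 ^ j) * ENNReal.ofReal l) *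
              (2 * ENNReal.ofReal (l ^ (2 * s)) * b) := by ring
          _ = _ := by
              rw [← ENNReal.ofReal_mul (by positivity), hl, ← mul_pow]
              norm_num

theorem sq_add_le (a b : ℝ≥0∞) : (a + b) ^ 2 ≤ 2 * (a ^ 2 + b ^ 2) := by
  have h := ENNReal.rpow_add_le_mul_rpow_add_rpow a b (p := 2) (by norm_num)
  norm_num at h
  exact h

theorem N2_sub {u v : ℝ × ℝ → ℂ} (hu : Measurable u) (_hv : Measurable v) (x : ℝ) :
    N2 (fun p => u p - v p) x ≤ 2 * (N2 u x + N2 v x) := by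
  have hux : Measurable fun y => ‖u (x, y)‖ₑ ^ 2 :=
    (hu.comp measurable_prodMk_left).enorm.pow_const 2
  unfold N2
  rw [← lintegral_add_left hux, ← lintegral_const_mul' _ _ (by norm_num)]
  refine lintegral_mono fun y => ?_
  refine le_trans ?_ (sq_add_le _ _)
  exact pow_le_pow_left' (enorm_sub_le) 2

theorem N2_step {g : ℝ × ℝ → ℂ} (hg : Measurable g) {s : ℝ} (hs0 : 0 ≤ s) (hs1 : s ≤ 1 / 2)
    (j : ℕ) (x : ℝ)
    {b : ℝ≥0∞} (hxt : N2 g x ≠ ∞) (hx : N2 g x ≤ b) (hs : ∀ y, y ∉ Ib → g (x, y) = 0)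
    (hm : ∀ h ∈ Ioc (0 : ℝ) 1,
      ∫⁻ y, ‖g (x, y + h) - g (x, y)‖ₑ ^ 2 ≤ b * ENNReal.ofReal (h ^ (2 * s))) :
    N2 (St j (co g j)) x ≤ 16 * ENNReal.ofReal (((1 / 2) ^ j) ^ (2 * s)) * b := by
  have hR := fun k => Rd_le hg hs0 k x hxt hs hm
  have hmA : ∀ k, Measurable (St k (Av g k)) := fun k => St_meas k _ fun i => Av_meas hg k i
  have hmD : ∀ k, Measurable fun p => g p - St k (Av g k) p := fun k => hg.sub (hmA k)
  have hRN : ∀ k, Rd g k x = N2 (fun p => g p - St k (Av g k) p) x := fun k => rfl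
  rcases j with - | j
  · have e : St 0 (co g 0) = fun p => g p - (g p - St 0 (Av g 0) p) := by
      ext p
      rw [sub_sub_cancel]
      rfl
    rw [e]
    refine (N2_sub hg (hmD 0) x).trans ?_
    rw [← hRN 0]
    have h0 := hR 0
    simp only [pow_zero, Real.one_rpow, ENNReal.ofReal_one, mul_one] at h0 ⊢
    calc 2 * (N2 g x + Rd g 0 x) ≤ 2 * (b + 2 * b) := by gcongr
      _ = 6 * b := by ring
      _ ≤ 16 * b := by gcongr; norm_num
  · have e : St (j + 1) (co g (j + 1)) =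
        fun p => (g p - St j (Av g j) p) - (g p - St (j + 1) (Av g (j + 1)) p) := by
      ext p
      rw [St_succ]
      ring
    rw [e]
    refine (N2_sub (hmD j) (hmD (j + 1)) x).trans ?_
    rw [← hRN j, ← hRN (j + 1)]
    set L : ℝ≥0∞ := ENNReal.ofReal (((1 / 2) ^ (j + 1)) ^ (2 * s)) with hL
    have h1 : ENNReal.ofReal (((1 / 2) ^ j) ^ (2 * s)) ≤ 2 * L := by
      rw [hL, show (2 : ℝ≥0∞) = ENNReal.ofReal 2 by norm_num, ← ENNReal.ofReal_mul (by norm_num)]
      refine ENNReal.ofReal_le_ofReal ?_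
      rw [show ((1 / 2 : ℝ)) ^ j = 2 * (1 / 2) ^ (j + 1) by rw [pow_succ]; ring,
        Real.mul_rpow (by norm_num) (by positivity)]
      have h2 : (2 : ℝ) ^ (2 * s) ≤ 2 := by
        calc (2 : ℝ) ^ (2 * s) ≤ 2 ^ (1 : ℝ) :=
              Real.rpow_le_rpow_of_exponent_le (by norm_num) (by linarith)
          _ = 2 := Real.rpow_one 2
      gcongr
    calc 2 * (Rd g j x + Rd g (j + 1) x) ≤ 2 * (2 * (2 * L) * b + 2 * L * b) := by
          have h3 := (hR j).trans (show _ ≤ 2 * (2 * L) * b by gcongr)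
          have h4 := hR (j + 1)
          rw [← hL] at h4
          gcongr
      _ = 12 * L * b := by ring
      _ ≤ 16 * L * b := by gcongr; norm_num

end H26.MX
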