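import Mathlib
import Pool.Agent.H26.MX.M6
set_option autoImplicit false

/-! The uniform (maximal) estimate. -/

namespace H26.MX

open MeasureTheory Complex Set Filter Topology
open scoped ENNReal
open Pool.Agent.R412.RT (ee ee_norm ee_add ee_conj ee_meas ee_cont)
open Pool.Agent.K4H66.RV (Pf Pf_meas volA Ef pph Ef_meas pph_int Ef_le)

theorem sq_rpow (x : ℝ≥0∞) (q : ℝ) : (x ^ 2) ^ (q / 2) = x ^ q := by
  rw [← ENNReal.rpow_two, ← ENNReal.rpow_mul]
  congr 1
  ring

theorem le_of_sq {a b : ℝ≥0∞} (h : a ^ 2 ≤ b ^ 2) : a ≤ b := by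
  by_contra hlt
  rw [not_le] at hlt
  exact absurd h (not_le.2 (ENNReal.pow_lt_pow_left two_ne_zero hlt))

theorem fin_ae {F : ℝ × ℝ → ℂ} (hF : Measurable F) {q : ℝ} (hq : 0 < q)
    (h : ∫⁻ x, N2 F x ^ (q / 2) ≠ ∞) : ∀ᵐ x, N2 F x ≠ ∞ := by
  have h1 : ∀ᵐ x, N2 F x ^ (q / 2) < ∞ := ae_lt_top ((N2_meas F hF).pow_const _) h
  filter_upwards [h1] with x hx hT
  rw [hT, ENNReal.top_rpow_of_pos (by linarith)] at hx
  exact lt_irrefl _ hx

theorem Reg.N2_le {s : ℝ} {B : ℝ → ℝ≥0∞} {g : ℝ × ℝ → ℂ} (hr : Reg s B g) {q : ℝ} (hq : 0 < q) :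
    ∫⁻ x, N2 g x ^ (q / 2) ≤ ∫⁻ x, B x ^ q := by
  refine lintegral_mono_ae ?_
  filter_upwards [hr.size] with x hx
  rw [← sq_rpow (B x)]
  exact ENNReal.rpow_le_rpow hx (by linarith)

/-- the distance to the averages in `L¹` -/
theorem err_le {s : ℝ} {B : ℝ → ℝ≥0∞} {g : ℝ × ℝ → ℂ} (hs0 : 0 ≤ s) (hr : Reg s B g) {q : ℝ}
    (hq : 1 ≤ q) (hB : ∫⁻ x, B x ^ q ≠ ∞) (J : ℕ) :
    ∫⁻ p, ‖g p - St J (Av g J) p‖ₑ ≤
      ENNReal.ofReal (2 * ((1 / 2) ^ J) ^ s) * (1 + ∫⁻ x, B x ^ q) := by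
  have hmA : Measurable (St J (Av g J)) := St_meas J _ fun i => Av_meas hr.meas J i
  have hmD : Measurable fun p => g p - St J (Av g J) p := hr.meas.sub hmA
  have hfin := fin_ae hr.meas (by linarith) (ne_top_of_le_ne_top hB (hr.N2_le (by linarith)))
  have hl0 : (0 : ℝ) < (1 / 2) ^ J := by positivity
  rw [Measure.volume_eq_prod, lintegral_prod _ hmD.enorm.aemeasurable]
  have hsupp : ∀ x, x ∉ Ib → ∀ y, g (x, y) = 0 := fun x hx y => hr.supp x y (Or.inl hx)
  have key : ∀ᵐ x, ∫⁻ y, ‖g (x, y) - St J (Av g J) (x, y)‖ₑ ≤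
      Ib.indicator (fun x => ENNReal.ofReal (2 * ((1 / 2) ^ J) ^ s) * (1 + B x ^ q)) x := by
    filter_upwards [hfin, hr.modu] with x hx hm
    by_cases hxI : x ∈ Ib
    · rw [indicator_of_mem hxI]
      have hR := Rd_le hr.meas hs0 J x hx (fun y hy => hr.supp x y (Or.inr hy)) hm
      have h0 : ∀ y, y ∉ Ico (-1 : ℝ) 1 → ‖g (x, y) - St J (Av g J) (x, y)‖ₑ = 0 := by
        intro y hy
        have h1 : g (x, y) = 0 := hr.supp x y (Or.inr fun h => hy
          ⟨by linarith [h.1], by linarith [h.2]⟩)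
        have h2 : St J (Av g J) (x, y) = 0 := by
          unfold St
          rw [indicator_of_notMem hy]
        rw [h1, h2, sub_zero, enorm_zero]
      have h1 : ∫⁻ y, ‖g (x, y) - St J (Av g J) (x, y)‖ₑ =
          ∫⁻ y in Ico (-1 : ℝ) 1, ‖g (x, y) - St J (Av g J) (x, y)‖ₑ := by
        rw [← lintegral_indicator measurableSet_Ico]
        refine lintegral_congr fun y => ?_
        by_cases hy : y ∈ Ico (-1 : ℝ) 1
        · rw [indicator_of_mem hy]
        · rw [indicator_of_notMem hy, h0 y hy]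
      have h2 : (∫⁻ y, ‖g (x, y) - St J (Av g J) (x, y)‖ₑ) ^ 2 ≤
          (ENNReal.ofReal (2 * ((1 / 2) ^ J) ^ s) * B x) ^ 2 := by
        rw [h1]
        refine (csS _ _ (hmD.comp measurable_prodMk_left).enorm).trans ?_
        rw [Real.volume_Ico]
        calc ENNReal.ofReal (1 - -1) *
            ∫⁻ y in Ico (-1 : ℝ) 1, ‖g (x, y) - St J (Av g J) (x, y)‖ₑ ^ 2
            ≤ ENNReal.ofReal (1 - -1) * Rd g J x := by
              gcongr
              exact setLIntegral_le_lintegral _ _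
          _ ≤ ENNReal.ofReal (1 - -1) * (2 * ENNReal.ofReal (((1 / 2) ^ J) ^ (2 * s)) * B x ^ 2) := by
              gcongr
          _ = _ := by
              rw [mul_pow, ← ENNReal.ofReal_pow (by positivity), mul_pow,
                ← Real.rpow_natCast (((1 / 2 : ℝ) ^ J) ^ s), ← Real.rpow_mul hl0.le,
                show (2 : ℝ≥0∞) = ENNReal.ofReal 2 by norm_num,
                ← ENNReal.ofReal_mul (by norm_num), ← mul_assoc,
                ← ENNReal.ofReal_mul (by norm_num)]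
              congr 2
              push_cast
              ring_nf
      refine (le_of_sq h2).trans ?_
      gcongr
      rcases le_total (B x) 1 with h3 | h3
      · exact h3.trans le_self_add
      · refine le_trans ?_ le_add_self
        calc B x = B x ^ (1 : ℝ) := (ENNReal.rpow_one _).symm
          _ ≤ B x ^ q := ENNReal.rpow_le_rpow_of_exponent_le h3 hq
    · rw [indicator_of_notMem hxI]
      have h2 : ∀ y, ‖g (x, y) - St J (Av g J) (x, y)‖ₑ = 0 := by
        intro y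
        have h3 : St J (Av g J) (x, y) = 0 := by
          unfold St Av
          by_cases hy : y ∈ Ico (-1 : ℝ) 1
          · rw [indicator_of_mem hy]
            simp [hsupp x hxI]
          · rw [indicator_of_notMem hy]
        rw [hsupp x hxI, h3, sub_zero, enorm_zero]
      simp [h2]
  refine (lintegral_mono_ae key).trans ?_
  rw [lintegral_indicator measurableSet_Icc, lintegral_const_mul' _ _ ENNReal.ofReal_ne_top,
    lintegral_add_left measurable_const, setLIntegral_const, one_mul]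
  gcongr
  · exact volA (le_refl Ib)
  · exact Measure.restrict_le_self

theorem err_lim {s : ℝ} {B : ℝ → ℝ≥0∞} {g : ℝ × ℝ → ℂ} (hs0 : 0 < s) (hr : Reg s B g) {q : ℝ}
    (hq : 1 ≤ q) (hB : ∫⁻ x, B x ^ q ≠ ∞) :
    Tendsto (fun J : ℕ => ∫⁻ p, ‖g p - St J (Av g J) p‖ₑ) atTop (𝓝 0) := by
  have h1 : Tendsto (fun J : ℕ => ENNReal.ofReal (2 * ((1 / 2) ^ J) ^ s) * (1 + ∫⁻ x, B x ^ q))
      atTop (𝓝 0) := by
    have h2 : Tendsto (fun J : ℕ => 2 * ((1 / 2 : ℝ) ^ J) ^ s) atTop (𝓝 (2 * 0 ^ s)) := by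
      refine Tendsto.const_mul _ ?_
      refine Tendsto.rpow_const (tendsto_pow_atTop_nhds_zero_of_lt_one (by norm_num) (by norm_num))
        (Or.inr hs0.le)
    rw [Real.zero_rpow hs0.ne', mul_zero] at h2
    have h3 := (ENNReal.continuous_ofReal.tendsto 0).comp h2
    have h4 := ENNReal.Tendsto.mul_const (b := 1 + ∫⁻ x, B x ^ q) h3 (Or.inr (by simp [hB]))
    simpa using h4
  exact tendsto_of_tendsto_of_tendsto_of_le_of_le tendsto_const_nhds h1 (fun J => zero_le)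
    fun J => err_le hs0.le hr hq hB J

theorem Ef_add (F G : ℝ × ℝ → ℂ) (hF : Integrable F) (hG : Integrable G) (ω : ℝ × (ℝ × ℝ)) :
    Ef (fun p => F p + G p) ω = Ef F ω + Ef G ω := by
  unfold Ef
  rw [← integral_add (pph_int F hF ω) (pph_int G hG ω)]
  refine integral_congr_ae (Eventually.of_forall fun p => ?_)
  show ee (pph ω p) * (F p + G p) = _
  ring

theorem tsum_bd {s : ℝ} {B : ℝ → ℝ≥0∞} {g : ℝ × ℝ → ℂ} (hs0 : 0 < s) (hr : Reg s B g) {q : ℝ}
    (hq : 1 ≤ q) (hB : ∫⁻ x, B x ^ q ≠ ∞) (ω : ℝ × (ℝ × ℝ)) :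
    ‖Ef g ω‖ₑ ≤ ∑' j, ‖Ef (St j (co g j)) ω‖ₑ := by
  by_cases hi : Integrable g
  · have hmA : ∀ J, Measurable (St J (Av g J)) := fun J => St_meas J _ fun i => Av_meas hr.meas J i
    have hmD : ∀ J, Measurable fun p => g p - St J (Av g J) p := fun J => hr.meas.sub (hmA J)
    have hiD : ∀ J, Integrable fun p => g p - St J (Av g J) p := fun J => by
      refine ⟨(hmD J).aestronglyMeasurable, ?_⟩
      rw [hasFiniteIntegral_iff_enorm]
      refine (err_le hs0.le hr hq hB J).trans_lt ?_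
      exact ENNReal.mul_lt_top ENNReal.ofReal_lt_top
        (ENNReal.add_lt_top.2 ⟨ENNReal.one_lt_top, lt_top_iff_ne_top.2 hB⟩)
    have hiA : ∀ J, Integrable (St J (Av g J)) := fun J => by
      refine (hi.sub (hiD J)).congr (Eventually.of_forall fun p => ?_)
      simp
    have hiC : ∀ k, Integrable (St k (co g k)) := by
      intro k
      rcases k with - | k
      · exact hiA 0
      · refine ((hiA (k + 1)).sub (hiA k)).congr (Eventually.of_forall fun p => ?_)
        exact (St_succ g k p).symm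
    have hsum : ∀ J, Ef (St J (Av g J)) ω = ∑ k ∈ Finset.range (J + 1), Ef (St k (co g k)) ω := by
      intro J
      unfold Ef
      rw [← integral_finsetSum _ fun k _ => pph_int _ (hiC k) ω]
      refine integral_congr_ae (Eventually.of_forall fun p => ?_)
      show ee (pph ω p) * _ = _
      rw [← St_tele, Finset.mul_sum]
    have h1 : ∀ J, ‖Ef g ω‖ₑ ≤ ∑' j, ‖Ef (St j (co g j)) ω‖ₑ +
        ∫⁻ p, ‖g p - St J (Av g J) p‖ₑ := by
      intro J
      have e1 : Ef g ω = Ef (St J (Av g J)) ω + Ef (fun p => g p - St J (Av g J) p) ω := by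
        rw [← Ef_add _ _ (hiA J) (hiD J)]
        congr 1
        ext p
        ring
      rw [e1]
      refine (enorm_add_le _ _).trans (add_le_add ?_ (Ef_le _ _))
      rw [hsum]
      exact (enorm_sum_le _ _).trans (ENNReal.sum_le_tsum _)
    have h2 : Tendsto (fun J : ℕ => ∑' j, ‖Ef (St j (co g j)) ω‖ₑ +
        ∫⁻ p, ‖g p - St J (Av g J) p‖ₑ) atTop (𝓝 (∑' j, ‖Ef (St j (co g j)) ω‖ₑ + 0)) :=
      tendsto_const_nhds.add (err_lim hs0 hr hq hB)
    rw [add_zero] at h2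
    exact ge_of_tendsto h2 (Eventually.of_forall h1)
  · rw [Ef_undef g hr.meas hi, enorm_zero]
    exact zero_le

/-- the majorant -/
noncomputable def Vm (σ : ℝ) (g : ℝ × ℝ → ℂ) (τ : ℝ × ℝ) : ℝ≥0∞ :=
  ∑' j : ℕ, ENNReal.ofReal (2 ^ (σ * j)) * Hh (St j (co g j)) τ

theorem Vm_meas (σ : ℝ) {g : ℝ × ℝ → ℂ} (hg : Measurable g) : Measurable (Vm σ g) := by
  unfold Vm
  exact Measurable.tsum fun j =>
    (Hh_meas _ (St_meas j _ fun i => co_meas hg j i)).const_mul _

theorem Vm_bd {s σ : ℝ} {B : ℝ → ℝ≥0∞} {g : ℝ × ℝ → ℂ} (hs0 : 0 < s) (h0 : 0 ≤ σ)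
    (h1 : σ ≤ 1 / 2) (hr : Reg s B g) {q : ℝ}
    (hq : 1 ≤ q) (hB : ∫⁻ x, B x ^ q ≠ ∞) (t α β : ℝ) :
    ‖Ef g (t, (α, β))‖ₑ ≤ ENNReal.ofReal (18 * (1 / (1 + |t|)) ^ σ) * Vm σ g (α, t) := by
  refine (tsum_bd hs0 hr hq hB _).trans ?_
  unfold Vm
  rw [← ENNReal.tsum_mul_left]
  exact ENNReal.tsum_le_tsum fun j => St_sup j _ (fun i => co_meas hr.meas j i) h0 h1 α β t

theorem Vm_norm {q κ p s σ : ℝ} (hq : 2 < q) (hκ : 1 ≤ κ) (hqκ : 2 < κ * (q - 2)) (hp : 1 ≤ p)
    (hpe : 1 < p * ((κ * q / 2 - 1) / (κ * q))) (hs : s ≤ 1 / 2)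
    (hs0 : 0 < s) (hσ : σ < s) :
    ∃ C : ℝ≥0∞, C ≠ ∞ ∧ ∀ (B : ℝ → ℝ≥0∞) (g : ℝ × ℝ → ℂ), Reg s B g →
      ∫⁻ x, B x ^ p ≠ ∞ → Ph κ q (Vm σ g) ≤ C * (∫⁻ x, B x ^ p) ^ (1 / p) := by
  obtain ⟨C, hC, h⟩ := strongH q κ p hq hκ hqκ hp hpe
  have hp0 : 0 < p := by linarith
  have hq0 : 0 < q := by linarith
  set r : ℝ := 2 ^ (σ - s) with hr
  have hr0 : 0 < r := Real.rpow_pos_of_pos (by norm_num) _
  have hr1 : r < 1 := Real.rpow_lt_one_of_one_lt_of_neg (by norm_num) (by linarith)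
  have hsum : ∑' j : ℕ, ENNReal.ofReal (r ^ j) ≠ ∞ := by
    rw [← ENNReal.ofReal_tsum_of_nonneg (fun m => by positivity)
      (summable_geometric_of_lt_one hr0.le hr1)]
    exact ENNReal.ofReal_ne_top
  refine ⟨C * 4 * ∑' j : ℕ, ENNReal.ofReal (r ^ j), ENNReal.mul_ne_top (ENNReal.mul_ne_top hC
    (by norm_num)) hsum, ?_⟩
  intro B g hreg hB
  have hmS : ∀ j, Measurable (St j (co g j)) := fun j => St_meas j _ fun i => co_meas hreg.meas j i
  have hfin := fin_ae hreg.meas hp0 (ne_top_of_le_ne_top hB (hreg.N2_le hp0))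
  have hpiece : ∀ j : ℕ, Ph κ q (Hh (St j (co g j))) ≤
      C * (4 * ENNReal.ofReal (((1 / 2) ^ j) ^ s) * (∫⁻ x, B x ^ p) ^ (1 / p)) := by
    intro j
    have hl0 : (0 : ℝ) < (1 / 2) ^ j := by positivity
    have hsupp : ∀ x y, x ∉ Ib → St j (co g j) (x, y) = 0 := by
      intro x y hx
      have h0 : ∀ k i, Av g k i x = 0 := by
        intro k i
        unfold Av
        simp [fun y => hreg.supp x y (Or.inl hx)]
      unfold St
      by_cases hy : y ∈ Ico (-1 : ℝ) 1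
      · rw [indicator_of_mem hy]
        rcases j with - | j
        · exact h0 _ _
        · show Av g (j + 1) _ x - Av g j _ x = 0
          rw [h0, h0, sub_zero]
      · rw [indicator_of_notMem hy]
    refine (h (St j (co g j)) (hmS j) hsupp).trans ?_
    refine mul_le_mul_right ?_ _
    have h2 : ∫⁻ x, N2 (St j (co g j)) x ^ (p / 2) ≤
        (4 * ENNReal.ofReal (((1 / 2) ^ j) ^ s)) ^ p * ∫⁻ x, B x ^ p := by
      rw [← lintegral_const_mul' _ _ (ENNReal.rpow_ne_top_of_nonneg hp0.le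
        (ENNReal.mul_ne_top (by norm_num) ENNReal.ofReal_ne_top))]
      refine lintegral_mono_ae ?_
      filter_upwards [hfin, hreg.size, hreg.modu] with x hx hsz hm
      have h3 := N2_step hreg.meas hs0.le hs j x hx hsz
        (fun y hy => hreg.supp x y (Or.inr hy)) hm
      refine (ENNReal.rpow_le_rpow h3 (by linarith)).trans (le_of_eq ?_)
      rw [← ENNReal.mul_rpow_of_nonneg _ _ hp0.le, ← sq_rpow (4 * _ * _)]
      congr 1
      rw [mul_pow, mul_pow, ← ENNReal.ofReal_pow (by positivity),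
        ← Real.rpow_natCast (((1 / 2 : ℝ) ^ j) ^ s), ← Real.rpow_mul hl0.le]
      congr 2
      · norm_num
      · congr 2
        push_cast
        ring
    refine (ENNReal.rpow_le_rpow h2 (by positivity)).trans (le_of_eq ?_)
    rw [ENNReal.mul_rpow_of_nonneg _ _ (by positivity), ← ENNReal.rpow_mul,
      mul_one_div_cancel hp0.ne', ENNReal.rpow_one]
  calc Ph κ q (Vm σ g)
      ≤ ∑' j : ℕ, Ph κ q (fun τ => ENNReal.ofReal (2 ^ (σ * j)) * Hh (St j (co g j)) τ) :=
        Ph_tsum hκ (by linarith) _ fun j => (Hh_meas _ (hmS j)).const_mul _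
    _ = ∑' j : ℕ, ENNReal.ofReal (2 ^ (σ * j)) * Ph κ q (Hh (St j (co g j))) := by
        congr 1
        ext j
        exact Ph_const (by linarith) hq0 _ (Hh_meas _ (hmS j))
    _ ≤ ∑' j : ℕ, C * 4 * ENNReal.ofReal (r ^ j) * (∫⁻ x, B x ^ p) ^ (1 / p) := by
        refine ENNReal.tsum_le_tsum fun j => ?_
        calc ENNReal.ofReal (2 ^ (σ * j)) * Ph κ q (Hh (St j (co g j)))
            ≤ ENNReal.ofReal (2 ^ (σ * j)) *
              (C * (4 * ENNReal.ofReal (((1 / 2) ^ j) ^ s) * (∫⁻ x, B x ^ p) ^ (1 / p))) := by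
              gcongr
              exact hpiece j
          _ = C * 4 * (ENNReal.ofReal (2 ^ (σ * j)) * ENNReal.ofReal (((1 / 2) ^ j) ^ s)) *
              (∫⁻ x, B x ^ p) ^ (1 / p) := by ring
          _ = _ := by
              rw [← ENNReal.ofReal_mul (by positivity)]
              congr 3
              rw [hr, one_div, inv_pow, Real.inv_rpow (by positivity), ← Real.rpow_natCast,
                ← Real.rpow_natCast, ← Real.rpow_mul (by norm_num), ← Real.rpow_mul (by norm_num),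
                ← Real.rpow_neg (by norm_num), ← Real.rpow_add (by norm_num)]
              congr 1
              ring
    _ = _ := by
        rw [ENNReal.tsum_mul_right, ENNReal.tsum_mul_left]

end H26.MX
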