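import Mathlib
import Pool.Agent.H26.MX.M7
set_option autoImplicit false

/-! The bilinear estimate: one factor arbitrary, the other one regular in the second variable. -/

namespace H26.MX

open MeasureTheory Complex Set Filter Topology
open scoped ENNReal
open Pool.Agent.R412.RT (ee ee_norm ee_add ee_conj ee_meas ee_cont)
open Pool.Agent.K4H66.RV (Pf Pf_meas volA Ef pph Ef_meas pph_int Ef_le)

theorem w_fin {κ a : ℝ} (hκ : 1 < κ) (_ha : 0 ≤ a) (h : 1 - 1 / κ < a) (M : ℝ) (hM : 0 < M) :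
    ∫⁻ t : ℝ, ENNReal.ofReal (M * (1 / (1 + |t|)) ^ a) ^ (κ / (κ - 1)) ≠ ∞ := by
  have hκ1 : 0 < κ - 1 := by linarith
  have hκ' : 0 < κ / (κ - 1) := by positivity
  have h1 : 1 < a * (κ / (κ - 1)) := by
    have h2 : (1 - 1 / κ) * (κ / (κ - 1)) = 1 := by
      have : κ ≠ 0 := by linarith
      field_simp
    calc (1 : ℝ) = (1 - 1 / κ) * (κ / (κ - 1)) := h2.symm
      _ < a * (κ / (κ - 1)) := by gcongr
  have h3 : ∀ t : ℝ, ENNReal.ofReal (M * (1 / (1 + |t|)) ^ a) ^ (κ / (κ - 1)) =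
      ENNReal.ofReal (M ^ (κ / (κ - 1))) *
        ENNReal.ofReal ((1 + ‖t‖) ^ (-(a * (κ / (κ - 1))))) := by
    intro t
    have ht : (0 : ℝ) < 1 + |t| := by positivity
    rw [ENNReal.ofReal_rpow_of_nonneg (by positivity) hκ'.le, ← ENNReal.ofReal_mul (by positivity),
      Real.mul_rpow hM.le (by positivity), ← Real.rpow_mul (by positivity), Real.norm_eq_abs,
      one_div, Real.inv_rpow ht.le, ← Real.rpow_neg ht.le]
  simp_rw [h3]
  rw [lintegral_const_mul' _ _ ENNReal.ofReal_ne_top]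
  refine ENNReal.mul_ne_top ENNReal.ofReal_ne_top ?_
  refine (finite_integral_one_add_norm (E := ℝ) (μ := volume) ?_).ne
  simpa using h1

theorem pw (x : ℝ≥0∞) {κ : ℝ} (e : ℝ) (hκ : κ ≠ 0) : ((x ^ κ) ^ e) ^ (1 / κ) = x ^ e := by
  rw [← ENNReal.rpow_mul, ← ENNReal.rpow_mul]
  congr 1
  field_simp

theorem bil (q κ p s σ : ℝ) (hq : 2 < q) (hκ : 1 < κ) (hqκ : 2 < κ * (q - 2)) (hp : 1 ≤ p)
    (hpe : 1 < p * ((κ * q / 2 - 1) / (κ * q))) (hs : s ≤ 1 / 2)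
    (hs0 : 0 < s) (h0 : 0 ≤ σ) (hσ : σ < s) (hσκ : 1 - 1 / κ < σ * (q - 2)) :
    ∃ C : ℝ≥0∞, C ≠ ∞ ∧ ∀ (F : ℝ × ℝ → ℂ) (B : ℝ → ℝ≥0∞) (g : ℝ × ℝ → ℂ),
      Measurable F → (∀ x y, x ∉ Ib → F (x, y) = 0) → Reg s B g → ∫⁻ x, B x ^ p ≠ ∞ →
      ∫⁻ ω, ‖Ef F ω‖ₑ ^ 2 * ‖Ef g ω‖ₑ ^ (q - 2) ≤
        C * (((∫⁻ x, N2 F x ^ (p / 2)) ^ (1 / p)) ^ 2 *
          ((∫⁻ x, B x ^ p) ^ (1 / p)) ^ (q - 2)) := by
  obtain ⟨C1, hC1, h1⟩ := strongH q κ p hq hκ.le hqκ hp hpe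
  obtain ⟨C2, hC2, h2⟩ := Vm_norm hq hκ.le hqκ hp hpe hs hs0 hσ
  have hq0 : 0 < q := by linarith
  have hq2 : 0 < q - 2 := by linarith
  have hκ0 : 0 < κ := by linarith
  set w : ℝ → ℝ≥0∞ := fun t => ENNReal.ofReal (18 * (1 / (1 + |t|)) ^ σ) ^ (q - 2) with hw
  have hwm : Measurable w := by
    rw [hw]
    refine Measurable.pow_const ?_ _
    fun_prop
  have hwf : ∫⁻ t, w t ^ (κ / (κ - 1)) ≠ ∞ := by
    have h3 := w_fin hκ (a := σ * (q - 2)) (by positivity) hσκ (18 ^ (q - 2)) (by positivity)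
    refine ne_of_eq_of_ne (lintegral_congr fun t => ?_) h3
    rw [hw]
    simp only
    rw [ENNReal.ofReal_rpow_of_nonneg (by positivity) hq2.le, Real.mul_rpow (by norm_num)
      (by positivity), ← Real.rpow_mul (by positivity)]
  refine ⟨(∫⁻ t, w t ^ (κ / (κ - 1))) ^ (1 - 1 / κ) * (C1 ^ 2 * C2 ^ (q - 2)), ?_, ?_⟩
  · refine ENNReal.mul_ne_top (ENNReal.rpow_ne_top_of_nonneg ?_ hwf)
      (ENNReal.mul_ne_top (ENNReal.pow_ne_top hC1) (ENNReal.rpow_ne_top_of_nonneg hq2.le hC2))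
    rw [sub_nonneg, div_le_one hκ0]
    exact hκ.le
  intro F B g hF hFs hr hB
  have hEF := Ef_meas F hF
  have hEg := Ef_meas g hr.meas
  have hH := Hh_meas F hF
  have hV := Vm_meas σ hr.meas
  set P : ℝ → ℝ≥0∞ := fun t => ∫⁻ α, Hh F (α, t) ^ q with hP
  set Q : ℝ → ℝ≥0∞ := fun t => ∫⁻ α, Vm σ g (α, t) ^ q with hQ
  have hPm : Measurable P := ((hH.pow_const q).comp measurable_swap).lintegral_prod_right'
  have hQm : Measurable Q := ((hV.pow_const q).comp measurable_swap).lintegral_prod_right'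
  -- the inner integrals
  have hin : ∀ t, ∫⁻ η : ℝ × ℝ, ‖Ef F (t, η)‖ₑ ^ 2 * ‖Ef g (t, η)‖ₑ ^ (q - 2) ≤
      w t * (P t ^ (2 / q) * Q t ^ ((q - 2) / q)) := by
    intro t
    have hm1 : Measurable fun η : ℝ × ℝ => ‖Ef F (t, η)‖ₑ ^ 2 * ‖Ef g (t, η)‖ₑ ^ (q - 2) :=
      ((hEF.comp measurable_prodMk_left).enorm.pow_const 2).mul
        ((hEg.comp measurable_prodMk_left).enorm.pow_const _)
    rw [Measure.volume_eq_prod, lintegral_prod _ hm1.aemeasurable]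
    have hHm : Measurable fun α => Hh F (α, t) := hH.comp measurable_prodMk_right
    have hVm' : Measurable fun α => Vm σ g (α, t) := hV.comp measurable_prodMk_right
    calc ∫⁻ α, ∫⁻ β, ‖Ef F (t, (α, β))‖ₑ ^ 2 * ‖Ef g (t, (α, β))‖ₑ ^ (q - 2)
        ≤ ∫⁻ α, ∫⁻ β, ‖Ef F (t, (α, β))‖ₑ ^ 2 * (w t * Vm σ g (α, t) ^ (q - 2)) := by
          refine lintegral_mono fun α => lintegral_mono fun β => ?_
          refine mul_le_mul_right ?_ _
          rw [hw]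
          simp only
          rw [← ENNReal.mul_rpow_of_nonneg _ _ hq2.le]
          exact ENNReal.rpow_le_rpow (Vm_bd hs0 h0 (by linarith) hr hp hB t α β) hq2.le
      _ = ∫⁻ α, (∫⁻ β, ‖Ef F (t, (α, β))‖ₑ ^ 2) * (w t * Vm σ g (α, t) ^ (q - 2)) := by
          refine lintegral_congr fun α => ?_
          rw [lintegral_mul_const]
          have hq' : Measurable fun β : ℝ => (t, (α, β)) := by fun_prop
          exact (hEF.comp hq').enorm.pow_const 2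
      _ ≤ ∫⁻ α, H2 F (α, t) * (w t * Vm σ g (α, t) ^ (q - 2)) := by
          refine lintegral_mono fun α => ?_
          exact mul_le_mul_left (planB F hF α t) _
      _ = w t * ∫⁻ α, (Hh F (α, t) ^ q) ^ (2 / q) * (Vm σ g (α, t) ^ q) ^ ((q - 2) / q) := by
          rw [← lintegral_const_mul]
          · refine lintegral_congr fun α => ?_
            rw [← ENNReal.rpow_mul, ← ENNReal.rpow_mul, ← Hh_sq,
              show q * (2 / q) = 2 by field_simp, show q * ((q - 2) / q) = q - 2 by field_simp,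
              ENNReal.rpow_two]
            ring
          · exact ((hHm.pow_const _).pow_const _).mul ((hVm'.pow_const _).pow_const _)
      _ ≤ w t * (P t ^ (2 / q) * Q t ^ ((q - 2) / q)) := by
          refine mul_le_mul_right ?_ _
          exact ENNReal.lintegral_mul_norm_pow_le (hHm.pow_const _).aemeasurable
            (hVm'.pow_const _).aemeasurable (by positivity) (by positivity) (by field_simp; ring)
  have hm2 : Measurable fun ω : ℝ × (ℝ × ℝ) => ‖Ef F ω‖ₑ ^ 2 * ‖Ef g ω‖ₑ ^ (q - 2) :=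
    (hEF.enorm.pow_const 2).mul (hEg.enorm.pow_const _)
  have hκ1 : 0 < κ - 1 := by linarith
  calc ∫⁻ ω, ‖Ef F ω‖ₑ ^ 2 * ‖Ef g ω‖ₑ ^ (q - 2)
      = ∫⁻ t, ∫⁻ η : ℝ × ℝ, ‖Ef F (t, η)‖ₑ ^ 2 * ‖Ef g (t, η)‖ₑ ^ (q - 2) := by
        rw [Measure.volume_eq_prod, lintegral_prod _ hm2.aemeasurable]
    _ ≤ ∫⁻ t, w t * (P t ^ (2 / q) * Q t ^ ((q - 2) / q)) := lintegral_mono hin
    _ = ∫⁻ t, (w t ^ (κ / (κ - 1))) ^ (1 - 1 / κ) *
          ((P t ^ κ) ^ (2 / q) * (Q t ^ κ) ^ ((q - 2) / q)) ^ (1 / κ) := by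
        refine lintegral_congr fun t => ?_
        rw [ENNReal.mul_rpow_of_nonneg _ _ (by positivity), pw _ _ hκ0.ne', pw _ _ hκ0.ne',
          ← ENNReal.rpow_mul (w t), show κ / (κ - 1) * (1 - 1 / κ) = 1 by field_simp,
          ENNReal.rpow_one]
    _ ≤ (∫⁻ t, w t ^ (κ / (κ - 1))) ^ (1 - 1 / κ) *
          (∫⁻ t, (P t ^ κ) ^ (2 / q) * (Q t ^ κ) ^ ((q - 2) / q)) ^ (1 / κ) := by
        refine ENNReal.lintegral_mul_norm_pow_le (hwm.pow_const _).aemeasurable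
          (((hPm.pow_const _).pow_const _).mul ((hQm.pow_const _).pow_const _)).aemeasurable
          ?_ (by positivity) (by ring)
        rw [sub_nonneg, div_le_one hκ0]
        exact hκ.le
    _ ≤ (∫⁻ t, w t ^ (κ / (κ - 1))) ^ (1 - 1 / κ) *
          ((∫⁻ t, P t ^ κ) ^ (2 / q) * (∫⁻ t, Q t ^ κ) ^ ((q - 2) / q)) ^ (1 / κ) := by
        refine mul_le_mul_right (ENNReal.rpow_le_rpow ?_ (by positivity)) _
        exact ENNReal.lintegral_mul_norm_pow_le (hPm.pow_const _).aemeasurable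
            (hQm.pow_const _).aemeasurable (by positivity) (by positivity) (by field_simp; ring)
    _ = (∫⁻ t, w t ^ (κ / (κ - 1))) ^ (1 - 1 / κ) *
          (Ph κ q (Hh F) ^ 2 * Ph κ q (Vm σ g) ^ (q - 2)) := by
        unfold Ph
        rw [ENNReal.mul_rpow_of_nonneg _ _ (by positivity), ← ENNReal.rpow_mul,
          ← ENNReal.rpow_mul, ← ENNReal.rpow_mul, ← ENNReal.rpow_two, ← ENNReal.rpow_mul]
        congr 3
        · field_simp
        · field_simp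
    _ ≤ (∫⁻ t, w t ^ (κ / (κ - 1))) ^ (1 - 1 / κ) *
          ((C1 * (∫⁻ x, N2 F x ^ (p / 2)) ^ (1 / p)) ^ 2 *
            (C2 * (∫⁻ x, B x ^ p) ^ (1 / p)) ^ (q - 2)) := by
        refine mul_le_mul_right ?_ _
        exact mul_le_mul' (pow_le_pow_left' (h1 F hF hFs) 2)
          (ENNReal.rpow_le_rpow (h2 B g hr hB) hq2.le)
    _ = _ := by
        rw [mul_pow, ENNReal.mul_rpow_of_nonneg _ _ hq2.le]
        ring

/-- choice of the parameters -/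
theorem params {s p q : ℝ} (hs0 : 0 < s) (hp : 2 < p) (hpq : p ≤ q)
    (h : 2 * q < p * ((q - 2) * (1 + 2 * s))) :
    ∃ κ σ : ℝ, 1 < κ ∧ 2 < κ * (q - 2) ∧ 1 < p * ((κ * q / 2 - 1) / (κ * q)) ∧
      0 ≤ σ ∧ σ < s ∧ 1 - 1 / κ < σ * (q - 2) := by
  have hq2 : 0 < q - 2 := by linarith
  have hq0 : 0 < q := by linarith
  have hp0 : 0 < p := by linarith
  have hC2 : 1 - s * (q - 2) < q / 2 - q / p := by
    have : q / p < (q - 2) * (1 + 2 * s) / 2 := by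
      rw [div_lt_div_iff₀ hp0 (by norm_num)]
      linarith
    nlinarith
  have hC1 : 1 - s * (q - 2) < (q - 2) / 2 := by
    have : 1 ≤ q / p := by
      rw [le_div_iff₀ hp0]
      linarith
    linarith
  have hqp : 0 < q / 2 - q / p := by
    have : q / p < q / 2 := div_lt_div_of_pos_left hq0 (by norm_num) hp
    linarith
  obtain ⟨x, hx1, hx2⟩ : ∃ x, max 0 (1 - s * (q - 2)) < x ∧
      x < min (min 1 ((q - 2) / 2)) (q / 2 - q / p) := by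
    refine exists_between ?_
    rw [max_lt_iff, lt_min_iff, lt_min_iff, lt_min_iff, lt_min_iff]
    refine ⟨⟨⟨by norm_num, by positivity⟩, hqp⟩, ⟨⟨?_, hC1⟩, hC2⟩⟩
    have : 0 < s * (q - 2) := by positivity
    linarith
  rw [max_lt_iff] at hx1
  rw [lt_min_iff, lt_min_iff] at hx2
  obtain ⟨hx0, hxs⟩ := hx1
  obtain ⟨⟨hx1, hxq⟩, hxp⟩ := hx2
  obtain ⟨σ, hσ1, hσ2⟩ : ∃ σ, (1 - x) / (q - 2) < σ ∧ σ < s := by
    refine exists_between ?_
    rw [div_lt_iff₀ hq2]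
    linarith
  refine ⟨1 / x, σ, ?_, ?_, ?_, ?_, hσ2, ?_⟩
  · rw [lt_div_iff₀ hx0]
    linarith
  · rw [one_div_mul_eq_div, lt_div_iff₀ hx0]
    linarith
  · have e : (1 / x * q / 2 - 1) / (1 / x * q) = 1 / 2 - x / q := by
      field_simp
    rw [e]
    have h1 : x / q < 1 / 2 - 1 / p := by
      rw [div_lt_iff₀ hq0]
      have : (1 / 2 - 1 / p) * q = q / 2 - q / p := by ring
      linarith
    have h2 : p * (1 / p) = 1 := mul_one_div_cancel hp0.ne'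
    nlinarith
  · have : 0 ≤ (1 - x) / (q - 2) := by
      apply div_nonneg <;> linarith
    linarith
  · rw [one_div_one_div]
    rw [div_lt_iff₀ hq2] at hσ1
    exact hσ1

/-- norm of the arbitrary factor -/
noncomputable def NF (p : ℝ) (F : ℝ × ℝ → ℂ) : ℝ≥0∞ := (∫⁻ x, N2 F x ^ (p / 2)) ^ (1 / p)

/-- norm of the majorant -/
noncomputable def NB (p : ℝ) (B : ℝ → ℝ≥0∞) : ℝ≥0∞ := (∫⁻ x, B x ^ p) ^ (1 / p)

theorem bil2 {s p q : ℝ} (hs0 : 0 < s) (hs : s ≤ 1 / 2) (hp : 2 < p) (hpq : p ≤ q)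
    (h : 2 * q < p * ((q - 2) * (1 + 2 * s))) :
    ∃ C : ℝ≥0∞, C ≠ ∞ ∧ ∀ (F : ℝ × ℝ → ℂ) (B : ℝ → ℝ≥0∞) (g : ℝ × ℝ → ℂ),
      Measurable F → (∀ x y, x ∉ Ib → F (x, y) = 0) → Reg s B g → ∫⁻ x, B x ^ p ≠ ∞ →
      ∫⁻ ω, ‖Ef F ω‖ₑ ^ 2 * ‖Ef g ω‖ₑ ^ (q - 2) ≤ C * (NF p F ^ 2 * NB p B ^ (q - 2)) := by
  obtain ⟨κ, σ, h1, h2, h3, h4, h5, h6⟩ := params hs0 hp hpq h
  exact bil q κ p s σ (by linarith) h1 h2 (by linarith) h3 hs hs0 h4 h5 h6

theorem split_pow (x y : ℝ≥0∞) {a q : ℝ} (h0 : 0 ≤ a) (h2 : a ≤ 2) (hq : 2 < q) :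
    (x ^ 2 * y ^ (q - 2)) ^ (a / 2) * (y ^ q) ^ (1 - a / 2) = x ^ a * y ^ (q - a) := by
  rw [ENNReal.mul_rpow_of_nonneg _ _ (by linarith), sq_rpow, ← ENNReal.rpow_mul,
    ← ENNReal.rpow_mul, mul_assoc, ← ENNReal.rpow_add_of_nonneg]
  · congr 2
    ring
  · apply mul_nonneg <;> linarith
  · apply mul_nonneg <;> linarith

theorem sq_q (y : ℝ≥0∞) {q : ℝ} (hq : 2 < q) : y ^ 2 * y ^ (q - 2) = y ^ q := by
  rw [← ENNReal.rpow_two, ← ENNReal.rpow_add_of_nonneg _ _ (by norm_num) (by linarith)]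
  congr 1
  ring

theorem Reg.NF_le {s : ℝ} {B : ℝ → ℝ≥0∞} {g : ℝ × ℝ → ℂ} (hr : Reg s B g) {p : ℝ} (hp : 0 < p) :
    NF p g ≤ NB p B := by
  unfold NF NB
  exact ENNReal.rpow_le_rpow (hr.N2_le hp) (by positivity)

/-- **the estimate in coordinates** -/
theorem bil3 {s p q : ℝ} (hs0 : 0 < s) (hs : s ≤ 1 / 2) (hp : 2 < p) (hpq : p ≤ q)
    (h : 2 * q < p * ((q - 2) * (1 + 2 * s))) :
    ∃ C : ℝ≥0∞, C ≠ ∞ ∧ ∀ (F : ℝ × ℝ → ℂ) (B : ℝ → ℝ≥0∞) (g : ℝ × ℝ → ℂ) (a : ℝ),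
      Measurable F → (∀ x y, x ∉ Ib → F (x, y) = 0) → Reg s B g → ∫⁻ x, B x ^ p ≠ ∞ →
      0 ≤ a → a ≤ 2 →
      ∫⁻ ω, ‖Ef F ω‖ₑ ^ a * ‖Ef g ω‖ₑ ^ (q - a) ≤ C * (NF p F ^ a * NB p B ^ (q - a)) := by
  obtain ⟨C, hC, h1⟩ := bil2 hs0 hs hp hpq h
  refine ⟨C, hC, fun F B g a hF hFs hr hB h0 h2 => ?_⟩
  have hq : 2 < q := by linarith
  have hEF := Ef_meas F hF
  have hEg := Ef_meas g hr.meas
  have e1 := h1 F B g hF hFs hr hB
  have e2 := h1 g B g hr.meas (fun x y hx => hr.supp x y (Or.inl hx)) hr hB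
  have e3 : ∫⁻ ω, ‖Ef g ω‖ₑ ^ q ≤ C * NB p B ^ q := by
    simp only [sq_q _ hq] at e2
    refine e2.trans ?_
    refine mul_le_mul_right ?_ _
    rw [← sq_q (NB p B) hq]
    gcongr
    exact hr.NF_le (by linarith)
  have hm : Measurable fun ω => ‖Ef F ω‖ₑ ^ 2 * ‖Ef g ω‖ₑ ^ (q - 2) :=
    (hEF.enorm.pow_const 2).mul (hEg.enorm.pow_const _)
  have h3 := ENNReal.lintegral_mul_norm_pow_le (μ := (volume : Measure (ℝ × (ℝ × ℝ))))
    (f := fun ω => ‖Ef F ω‖ₑ ^ 2 * ‖Ef g ω‖ₑ ^ (q - 2)) (g := fun ω => ‖Ef g ω‖ₑ ^ q)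
    hm.aemeasurable
    (hEg.enorm.pow_const _).aemeasurable (p := a / 2) (q := 1 - a / 2) (by linarith)
    (by linarith) (by ring)
  simp only [split_pow _ _ h0 h2 hq] at h3
  refine h3.trans ?_
  calc (∫⁻ ω, ‖Ef F ω‖ₑ ^ 2 * ‖Ef g ω‖ₑ ^ (q - 2)) ^ (a / 2) *
        (∫⁻ ω, ‖Ef g ω‖ₑ ^ q) ^ (1 - a / 2)
      ≤ (C * (NF p F ^ 2 * NB p B ^ (q - 2))) ^ (a / 2) * (C * NB p B ^ q) ^ (1 - a / 2) :=
        mul_le_mul' (ENNReal.rpow_le_rpow e1 (by linarith))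
          (ENNReal.rpow_le_rpow e3 (by linarith))
    _ = C * (NF p F ^ a * NB p B ^ (q - a)) := by
        rw [ENNReal.mul_rpow_of_nonneg C _ (by linarith), ENNReal.mul_rpow_of_nonneg C _
          (by linarith), ← split_pow (NF p F) (NB p B) h0 h2 hq]
        have : C ^ (a / 2) * C ^ (1 - a / 2) = C := by
          rw [← ENNReal.rpow_add_of_nonneg _ _ (by linarith) (by linarith)]
          norm_num
        calc C ^ (a / 2) * (NF p F ^ 2 * NB p B ^ (q - 2)) ^ (a / 2) *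
              (C ^ (1 - a / 2) * (NB p B ^ q) ^ (1 - a / 2))
            = (C ^ (a / 2) * C ^ (1 - a / 2)) * ((NF p F ^ 2 * NB p B ^ (q - 2)) ^ (a / 2) *
                (NB p B ^ q) ^ (1 - a / 2)) := by ring
          _ = _ := by rw [this]

end H26.MX
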