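import Mathlib
import Pool.Agent.H26.MX.M8
set_option autoImplicit false

/-! Coordinates: the plane as `ℂ`, the space as `ℂ × ℝ`, frames `θ, iθ`. -/

namespace H26.MX

open MeasureTheory Complex Set Filter Topology Metric
open scoped ENNReal
open Pool.Agent.R412.RT (ee ee_norm ee_add ee_conj ee_meas ee_cont)
open Pool.Agent.K4H66.RV (Pf Pf_meas volA Ef pph Ef_meas pph_int Ef_le)

/-- the phase -/
noncomputable def ph (x : ℂ) (ξ : ℂ × ℝ) : ℝ :=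
  x.re * ξ.1.re + x.im * ξ.1.im + (x.re ^ 2 + x.im ^ 2) * ξ.2

/-- the extension operator -/
noncomputable def E (f : ℂ → ℂ) (ξ : ℂ × ℝ) : ℂ := ∫ x, cexp (-(I * (ph x ξ : ℂ))) * f x

/-- the point with the coordinates `p` in the frame `θ, iθ` -/
noncomputable def fr (θ : ℂ) (p : ℝ × ℝ) : ℂ := θ * (p.1 + p.2 * I)

theorem mp_mul {c : ℂ} (hc : ‖c‖ = 1) : MeasurePreserving (fun z : ℂ => c * z) volume volume := by
  have h := (rotation ⟨c, by simp [Submonoid.unitSphere, hc]⟩).measurePreserving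
  exact h

theorem mul_emb {c : ℂ} (hc : ‖c‖ = 1) : MeasurableEmbedding (fun z : ℂ => c * z) :=
  (Homeomorph.mulLeft₀ c (by intro h; rw [h] at hc; simp at hc)).measurableEmbedding

theorem fr_mp {θ : ℂ} (hθ : ‖θ‖ = 1) : MeasurePreserving (fr θ) volume volume := by
  have h0 : MeasurePreserving (fun p : ℝ × ℝ => (p.1 : ℂ) + p.2 * I) volume volume := by
    have h := Complex.volume_preserving_equiv_real_prod.symm
    have e : (fun p : ℝ × ℝ => (p.1 : ℂ) + p.2 * I) = Complex.measurableEquivRealProd.symm := by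
      ext p
      apply Complex.ext <;> simp [Complex.measurableEquivRealProd]
    rw [e]
    exact h
  exact (mp_mul hθ).comp h0

theorem fr_emb {θ : ℂ} (hθ : ‖θ‖ = 1) : MeasurableEmbedding (fr θ) := by
  have hemb : MeasurableEmbedding (fun p : ℝ × ℝ => (p.1 : ℂ) + p.2 * I) := by
    have e : (fun p : ℝ × ℝ => (p.1 : ℂ) + p.2 * I) = Complex.measurableEquivRealProd.symm := by
      ext p
      apply Complex.ext <;> simp [Complex.measurableEquivRealProd]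
    rw [e]
    exact MeasurableEquiv.measurableEmbedding _
  exact (mul_emb hθ).comp hemb

theorem fr_meas (θ : ℂ) : Measurable (fr θ) := by
  unfold fr
  fun_prop

theorem ph_fr {θ : ℂ} (hθ : ‖θ‖ = 1) (p w : ℝ × ℝ) (t : ℝ) :
    ph (fr θ p) (fr θ w, t) = p.1 * w.1 + p.2 * w.2 + (p.1 ^ 2 + p.2 ^ 2) * t := by
  have h : θ.re ^ 2 + θ.im ^ 2 = 1 := by
    have := Complex.sq_norm θ
    rw [hθ, Complex.normSq_apply] at this
    nlinarith
  unfold ph fr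
  simp only [Complex.mul_re, Complex.mul_im, Complex.add_re, Complex.add_im, Complex.ofReal_re,
    Complex.ofReal_im, Complex.I_re, Complex.I_im, mul_zero, mul_one, sub_zero,
    add_zero, zero_add]
  linear_combination (p.1 * w.1 + p.2 * w.2 + (p.1 ^ 2 + p.2 ^ 2) * t) * h

/-- the scaling factor -/
noncomputable def sc : ℝ := -(1 / (2 * Real.pi))

theorem sc_ne : sc ≠ 0 := by
  unfold sc
  have := Real.pi_pos
  rw [neg_ne_zero]
  positivity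

theorem E_fr {θ : ℂ} (hθ : ‖θ‖ = 1) (f : ℂ → ℂ) (w : ℝ × ℝ) (t : ℝ) :
    E f (fr θ w, t) = Ef (fun p => f (fr θ p)) (sc * t, (sc * w.1, sc * w.2)) := by
  unfold E Ef
  rw [← (fr_mp hθ).integral_comp (fr_emb hθ)]
  refine integral_congr_ae (Eventually.of_forall fun p => ?_)
  show cexp (-(I * (ph (fr θ p) (fr θ w, t) : ℂ))) * f (fr θ p) = _ * f (fr θ p)
  congr 1
  rw [ph_fr hθ]
  unfold ee pph
  congr 1
  have : (Real.pi : ℂ) ≠ 0 := by exact_mod_cast Real.pi_pos.ne'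
  unfold sc
  push_cast
  field_simp
  ring

theorem E_meas {f : ℂ → ℂ} (hf : Measurable f) : Measurable (E f) := by
  apply StronglyMeasurable.measurable
  unfold E
  apply StronglyMeasurable.integral_prod_right'
    (f := fun p : (ℂ × ℝ) × ℂ => cexp (-(I * (ph p.2 p.1 : ℂ))) * f p.2)
  apply Measurable.stronglyMeasurable
  apply Measurable.mul _ (hf.comp measurable_snd)
  unfold ph
  fun_prop

/-- scaling on the space -/
theorem scale3 (Φ : ℝ × (ℝ × ℝ) → ℝ≥0∞) (hΦ : Measurable Φ) :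
    ∫⁻ ω : ℝ × (ℝ × ℝ), Φ (sc • ω) = ENNReal.ofReal |(sc ^ 3)⁻¹| * ∫⁻ ω, Φ ω := by
  have hi2 : (volume : Measure (ℝ × ℝ)).IsAddHaarMeasure := by
    rw [Measure.volume_eq_prod]
    infer_instance
  have hi3 : (volume : Measure (ℝ × (ℝ × ℝ))).IsAddHaarMeasure := by
    rw [Measure.volume_eq_prod]
    infer_instance
  have h := Measure.map_addHaar_smul (volume : Measure (ℝ × (ℝ × ℝ))) sc_ne
  have hm : Measurable fun ω : ℝ × (ℝ × ℝ) => sc • ω := measurable_const_smul sc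
  have hfr : Module.finrank ℝ (ℝ × (ℝ × ℝ)) = 3 := by simp
  rw [hfr] at h
  rw [← lintegral_map hΦ hm, h, lintegral_smul_measure, smul_eq_mul]

theorem scale1 (φ : ℝ → ℝ≥0∞) (hφ : Measurable φ) :
    ∫⁻ x : ℝ, φ (sc * x) = ENNReal.ofReal |sc⁻¹| * ∫⁻ x, φ x := by
  have h := Measure.map_addHaar_smul (volume : Measure ℝ) sc_ne
  have hm : Measurable fun x : ℝ => sc • x := measurable_const_smul sc
  rw [Module.finrank_self, pow_one] at h
  have h2 : ∫⁻ x : ℝ, φ (sc * x) = ∫⁻ x : ℝ, φ (sc • x) := rfl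
  rw [h2, ← lintegral_map hφ hm, h, lintegral_smul_measure, smul_eq_mul]

/-- integration over the space in the frame `θ` -/
theorem int_fr {θ : ℂ} (hθ : ‖θ‖ = 1) (Ψ : ℂ × ℝ → ℝ≥0∞) (hΨ : Measurable Ψ) :
    ∫⁻ ξ : ℂ × ℝ, Ψ ξ = ∫⁻ ω : ℝ × (ℝ × ℝ), Ψ (fr θ ω.2, ω.1) := by
  have h1 : MeasurePreserving (fun ξ : (ℝ × ℝ) × ℝ => (fr θ ξ.1, ξ.2)) volume volume :=
    (fr_mp hθ).prod (MeasurePreserving.id (volume : Measure ℝ))
  have h2 : MeasurePreserving (Prod.swap : ℝ × (ℝ × ℝ) → (ℝ × ℝ) × ℝ) volume volume :=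
    Measure.measurePreserving_swap
  have h3 := h1.comp h2
  rw [← h3.lintegral_comp hΨ]
  rfl

/-- the two-function integral in coordinates -/
theorem EE_int {θ : ℂ} (hθ : ‖θ‖ = 1) {f g : ℂ → ℂ} (hf : Measurable f) (hg : Measurable g)
    (a b : ℝ) :
    ∫⁻ ξ : ℂ × ℝ, ‖E f ξ‖ₑ ^ a * ‖E g ξ‖ₑ ^ b = ENNReal.ofReal |(sc ^ 3)⁻¹| *
      ∫⁻ ω, ‖Ef (fun p => f (fr θ p)) ω‖ₑ ^ a * ‖Ef (fun p => g (fr θ p)) ω‖ₑ ^ b := by
  have hF : Measurable fun p => f (fr θ p) := hf.comp (fr_meas θ)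
  have hG : Measurable fun p => g (fr θ p) := hg.comp (fr_meas θ)
  have hm1 : Measurable fun ξ => ‖E f ξ‖ₑ ^ a * ‖E g ξ‖ₑ ^ b :=
    ((E_meas hf).enorm.pow_const a).mul ((E_meas hg).enorm.pow_const b)
  have hm2 : Measurable fun ω => ‖Ef (fun p => f (fr θ p)) ω‖ₑ ^ a *
      ‖Ef (fun p => g (fr θ p)) ω‖ₑ ^ b :=
    ((Ef_meas _ hF).enorm.pow_const a).mul ((Ef_meas _ hG).enorm.pow_const b)
  rw [int_fr hθ _ hm1, ← scale3 _ hm2]
  refine lintegral_congr fun ω => ?_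
  rw [E_fr hθ, E_fr hθ]
  rfl

/-- the norm in `L^p(da; L²(db))`, `x = θ (a + i b)` -/
noncomputable def mixedNorm (p : ℝ) (θ : ℂ) (f : ℂ → ℂ) : ℝ≥0∞ :=
  (∫⁻ a : ℝ, (∫⁻ b : ℝ, ‖f (fr θ (a, b))‖ₑ ^ 2) ^ (p / 2)) ^ (1 / p)

theorem mixedNorm_eq (p : ℝ) (θ : ℂ) (f : ℂ → ℂ) :
    mixedNorm p θ f = NF p (fun q => f (fr θ q)) := rfl

/-- regularity of order `s` in the direction `iθ` -/
structure Rg (s : ℝ) (θ : ℂ) (B : ℝ → ℝ≥0∞) (g : ℂ → ℂ) : Prop where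
  meas : Measurable g
  supp : ∀ x, x ∉ closedBall (0 : ℂ) (1 / 2) → g x = 0
  size : ∀ᵐ a : ℝ, ∫⁻ b : ℝ, ‖g (fr θ (a, b))‖ₑ ^ 2 ≤ B a ^ 2
  modu : ∀ᵐ a : ℝ, ∀ h ∈ Ioc (0 : ℝ) 1, ∫⁻ b : ℝ, ‖g (fr θ (a, b + h)) - g (fr θ (a, b))‖ₑ ^ 2 ≤
    B a ^ 2 * ENNReal.ofReal (h ^ (2 * s))

theorem fr_norm {θ : ℂ} (hθ : ‖θ‖ = 1) (p : ℝ × ℝ) : ‖fr θ p‖ ^ 2 = p.1 ^ 2 + p.2 ^ 2 := by
  unfold fr
  rw [norm_mul, hθ, one_mul, Complex.sq_norm, Complex.normSq_add_mul_I]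

theorem fr_supp {θ : ℂ} (hθ : ‖θ‖ = 1) {g : ℂ → ℂ}
    (hs : ∀ x, x ∉ closedBall (0 : ℂ) (1 / 2) → g x = 0) (x y : ℝ) (h : x ∉ Ib ∨ y ∉ Ib) :
    g (fr θ (x, y)) = 0 := by
  refine hs _ fun hc => ?_
  rw [mem_closedBall_zero_iff] at hc
  have h1 := fr_norm hθ (x, y)
  have h2 : x ^ 2 + y ^ 2 ≤ (1 / 2) ^ 2 := by
    have := norm_nonneg (fr θ (x, y))
    simp only at h1
    nlinarith
  have key : ∀ z : ℝ, z ^ 2 ≤ (1 / 2) ^ 2 → z ∈ Ib := fun z hz =>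
    ⟨by nlinarith [sq_nonneg (z - 1 / 2)], by nlinarith [sq_nonneg (z + 1 / 2)]⟩
  rcases h with h | h
  · exact h (key x (by nlinarith [sq_nonneg y]))
  · exact h (key y (by nlinarith [sq_nonneg x]))

theorem Rg.reg {s : ℝ} {θ : ℂ} (hθ : ‖θ‖ = 1) {B : ℝ → ℝ≥0∞} {g : ℂ → ℂ} (h : Rg s θ B g) :
    Reg s B (fun p => g (fr θ p)) :=
  ⟨h.meas.comp (fr_meas θ), fr_supp hθ h.supp, h.size, h.modu⟩

/-- the mixed norm is bounded by the norm in `L^p` -/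
theorem mixedNorm_le {p : ℝ} (hp : 2 < p) {θ : ℂ} (hθ : ‖θ‖ = 1) {f : ℂ → ℂ} (hf : Measurable f)
    (hs : ∀ x, x ∉ closedBall (0 : ℂ) (1 / 2) → f x = 0) :
    mixedNorm p θ f ≤ (∫⁻ x, ‖f x‖ₑ ^ p) ^ (1 / p) := by
  have hp0 : 0 < p := by linarith
  unfold mixedNorm
  refine ENNReal.rpow_le_rpow ?_ (by positivity)
  rw [← (fr_mp hθ).lintegral_comp (hf.enorm.pow_const p)]
  have hm : Measurable fun q : ℝ × ℝ => ‖f (fr θ q)‖ₑ ^ p := (hf.comp (fr_meas θ)).enorm.pow_const p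
  rw [Measure.volume_eq_prod, lintegral_prod _ hm.aemeasurable]
  refine lintegral_mono fun a => ?_
  have hma : Measurable fun b : ℝ => ‖f (fr θ (a, b))‖ₑ ^ p := hm.comp measurable_prodMk_left
  have h1 : ∫⁻ b : ℝ, ‖f (fr θ (a, b))‖ₑ ^ 2 =
      ∫⁻ b in Ib, (‖f (fr θ (a, b))‖ₑ ^ p) ^ (2 / p) * 1 ^ (1 - 2 / p) := by
    rw [← lintegral_indicator measurableSet_Icc]
    refine lintegral_congr fun b => ?_
    by_cases hb : b ∈ Icc (-(1 / 2) : ℝ) (1 / 2)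
    · rw [indicator_of_mem hb, ENNReal.one_rpow, mul_one, ← ENNReal.rpow_mul,
        mul_div_cancel₀ _ hp0.ne', ENNReal.rpow_two]
    · rw [indicator_of_notMem hb, fr_supp hθ hs a b (Or.inr hb), enorm_zero]
      norm_num
  have h2 : (∫⁻ b : ℝ, ‖f (fr θ (a, b))‖ₑ ^ 2) ≤
      (∫⁻ b : ℝ, ‖f (fr θ (a, b))‖ₑ ^ p) ^ (2 / p) := by
    have hp2 : 0 ≤ 1 - 2 / p := by
      rw [sub_nonneg, div_le_one hp0]
      linarith
    rw [h1]
    refine (ENNReal.lintegral_mul_norm_pow_le (μ := volume.restrict Ib) hma.aemeasurable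
      (aemeasurable_const (b := (1 : ℝ≥0∞))) (p := 2 / p) (q := 1 - 2 / p) (by positivity) hp2
      (by ring)).trans ?_
    have h3 : (∫⁻ _b in Ib, (1 : ℝ≥0∞)) ^ (1 - 2 / p) ≤ 1 := by
      rw [setLIntegral_one]
      calc volume Ib ^ (1 - 2 / p) ≤ 1 ^ (1 - 2 / p) :=
            ENNReal.rpow_le_rpow (volA (le_refl Ib)) hp2
        _ = 1 := ENNReal.one_rpow _
    calc (∫⁻ b in Ib, ‖f (fr θ (a, b))‖ₑ ^ p) ^ (2 / p) * (∫⁻ _b in Ib, (1 : ℝ≥0∞)) ^ (1 - 2 / p)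
        ≤ (∫⁻ b, ‖f (fr θ (a, b))‖ₑ ^ p) ^ (2 / p) * 1 := by
          refine mul_le_mul' (ENNReal.rpow_le_rpow ?_ (by positivity)) h3
          exact setLIntegral_le_lintegral _ _
      _ = _ := mul_one _
  refine (ENNReal.rpow_le_rpow h2 (by linarith : 0 ≤ p / 2)).trans (le_of_eq ?_)
  rw [← ENNReal.rpow_mul, show 2 / p * (p / 2) = 1 by field_simp, ENNReal.rpow_one]

/-- `L¹` norm of a regular function -/
theorem Rg.L1 {s p : ℝ} (hp : 1 ≤ p) {θ : ℂ} (hθ : ‖θ‖ = 1) {B : ℝ → ℝ≥0∞} {g : ℂ → ℂ}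
    (h : Rg s θ B g) : ∫⁻ x, ‖g x‖ₑ ≤ NB p B := by
  have hp0 : 0 < p := by linarith
  rw [← (fr_mp hθ).lintegral_comp h.meas.enorm]
  have hm : Measurable fun q : ℝ × ℝ => ‖g (fr θ q)‖ₑ := (h.meas.comp (fr_meas θ)).enorm
  rw [Measure.volume_eq_prod, lintegral_prod _ hm.aemeasurable]
  have hN := N2_meas (fun q => g (fr θ q)) (h.meas.comp (fr_meas θ))
  have key : ∀ a : ℝ, ∫⁻ b : ℝ, ‖g (fr θ (a, b))‖ₑ ≤
      Ib.indicator (fun a => (N2 (fun q => g (fr θ q)) a) ^ (1 / 2 : ℝ)) a := by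
    intro a
    by_cases ha : a ∈ Ib
    · rw [indicator_of_mem ha]
      have hma : Measurable fun b : ℝ => ‖g (fr θ (a, b))‖ₑ := hm.comp measurable_prodMk_left
      have h1 : ∫⁻ b : ℝ, ‖g (fr θ (a, b))‖ₑ = ∫⁻ b in Ib, ‖g (fr θ (a, b))‖ₑ := by
        rw [← lintegral_indicator measurableSet_Icc]
        refine lintegral_congr fun b => ?_
        by_cases hb : b ∈ Icc (-(1 / 2) : ℝ) (1 / 2)
        · rw [indicator_of_mem hb]
        · rw [indicator_of_notMem hb, fr_supp hθ h.supp a b (Or.inr hb), enorm_zero]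
      refine le_of_sq ?_
      rw [Pool.Agent.K4H66.RV.half_two', h1]
      refine (csS Ib _ hma).trans ?_
      calc volume Ib * ∫⁻ b in Ib, ‖g (fr θ (a, b))‖ₑ ^ 2
          ≤ 1 * ∫⁻ b, ‖g (fr θ (a, b))‖ₑ ^ 2 :=
            mul_le_mul' (volA (le_refl Ib)) (setLIntegral_le_lintegral _ _)
        _ = _ := one_mul _
    · rw [indicator_of_notMem ha]
      have : ∀ b : ℝ, ‖g (fr θ (a, b))‖ₑ = 0 := fun b => by
        rw [fr_supp hθ h.supp a b (Or.inl ha), enorm_zero]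
      simp [this]
  refine (lintegral_mono key).trans ?_
  rw [lintegral_indicator measurableSet_Icc]
  have h2 := ENNReal.lintegral_mul_norm_pow_le (μ := volume.restrict Ib)
    (f := fun a => N2 (fun q => g (fr θ q)) a ^ (p / 2)) (hN.pow_const _).aemeasurable
    (aemeasurable_const (b := (1 : ℝ≥0∞))) (p := 1 / p) (q := 1 - 1 / p) (by positivity)
    (by rw [sub_nonneg, div_le_one hp0]; exact hp) (by ring)
  have e : ∀ a, (N2 (fun q => g (fr θ q)) a ^ (p / 2)) ^ (1 / p) * (1 : ℝ≥0∞) ^ (1 - 1 / p) =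
      N2 (fun q => g (fr θ q)) a ^ (1 / 2 : ℝ) := by
    intro a
    rw [ENNReal.one_rpow, mul_one, ← ENNReal.rpow_mul]
    congr 1
    field_simp
  simp only [e] at h2
  refine h2.trans ?_
  have h3 : (∫⁻ _b in Ib, (1 : ℝ≥0∞)) ^ (1 - 1 / p) ≤ 1 := by
    rw [setLIntegral_one]
    calc volume Ib ^ (1 - 1 / p) ≤ 1 ^ (1 - 1 / p) :=
          ENNReal.rpow_le_rpow (volA (le_refl Ib))
            (by rw [sub_nonneg, div_le_one hp0]; exact hp)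
      _ = 1 := ENNReal.one_rpow _
  calc (∫⁻ a in Ib, N2 (fun q => g (fr θ q)) a ^ (p / 2)) ^ (1 / p) *
        (∫⁻ _b in Ib, (1 : ℝ≥0∞)) ^ (1 - 1 / p)
      ≤ (∫⁻ a, N2 (fun q => g (fr θ q)) a ^ (p / 2)) ^ (1 / p) * 1 := by
        refine mul_le_mul' (ENNReal.rpow_le_rpow ?_ (by positivity)) h3
        exact setLIntegral_le_lintegral _ _
    _ = NF p (fun q => g (fr θ q)) := by rw [mul_one]; rfl
    _ ≤ NB p B := (h.reg hθ).NF_le hp0

end H26.MX
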