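import Mathlib
import Pool.Agent.H26.MX.M9
set_option autoImplicit false

/-! Sums over directions, the maximal estimate, and functions of bounded variation on lines. -/

namespace H26.MX

open MeasureTheory Complex Set Filter Topology Metric
open scoped ENNReal
open Pool.Agent.R412.RT (ee ee_norm ee_add ee_conj ee_meas ee_cont)
open Pool.Agent.K4H66.RV (Pf Pf_meas volA Ef pph Ef_meas pph_int Ef_le)

theorem ph_norm (x : ℂ) (ξ : ℂ × ℝ) : ‖cexp (-(I * (ph x ξ : ℂ)))‖ = 1 := by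
  rw [show -(I * (ph x ξ : ℂ)) = ((-ph x ξ : ℝ) : ℂ) * I by push_cast; ring]
  exact Complex.norm_exp_ofReal_mul_I _

theorem ph_meas (ξ : ℂ × ℝ) : Measurable fun x : ℂ => cexp (-(I * (ph x ξ : ℂ))) := by
  unfold ph
  fun_prop

theorem E_sum {g : ℂ → ℂ} {G : ℕ → ℂ → ℂ} (hG : ∀ n, Measurable (G n))
    (h1 : ∑' n, ∫⁻ x, ‖G n x‖ₑ ≠ ∞) (hs : ∀ᵐ x, HasSum (fun n => G n x) (g x)) (ξ : ℂ × ℝ) :
    ‖E g ξ‖ₑ ≤ ∑' n, ‖E (G n) ξ‖ₑ := by
  have h2 : E g ξ = ∫ x, ∑' n, cexp (-(I * (ph x ξ : ℂ))) * G n x := by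
    unfold E
    refine integral_congr_ae ?_
    filter_upwards [hs] with x hx
    rw [tsum_mul_left, hx.tsum_eq]
  have h3 : ∀ n, ∫⁻ x, ‖cexp (-(I * (ph x ξ : ℂ))) * G n x‖ₑ = ∫⁻ x, ‖G n x‖ₑ := by
    intro n
    refine lintegral_congr fun x => ?_
    rw [enorm_mul, ← ofReal_norm (cexp _), ph_norm, ENNReal.ofReal_one, one_mul]
  rw [h2, integral_tsum (f := fun n x => cexp (-(I * (ph x ξ : ℂ))) * G n x)
    (fun n => ((ph_meas ξ).mul (hG n)).aestronglyMeasurable)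
    (by simp only [h3]; exact h1)]
  exact enorm_tsum_le_tsum_enorm

/-- Minkowski's inequality with a density, raised to the power -/
theorem mink_w {Ω : Type*} [MeasurableSpace Ω] (μ : Measure Ω) (w : Ω → ℝ≥0∞) (hw : Measurable w)
    (p : ℝ) (hp : 1 ≤ p) (u : ℕ → Ω → ℝ≥0∞) (hu : ∀ j, Measurable (u j)) (K : ℝ≥0∞)
    (b : ℕ → ℝ≥0∞) (h : ∀ j, ∫⁻ x, w x * u j x ^ p ∂μ ≤ K * b j ^ p) :
    ∫⁻ x, w x * (∑' j, u j x) ^ p ∂μ ≤ K * (∑' j, b j) ^ p := by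
  have hp0 : 0 < p := by linarith
  have e : ∀ f : Ω → ℝ≥0∞, Measurable f → ∫⁻ x, f x ∂(μ.withDensity w) = ∫⁻ x, w x * f x ∂μ := by
    intro f hf
    exact lintegral_withDensity_eq_lintegral_mul _ hw hf
  have h1 := mink (μ.withDensity w) p hp u hu
  rw [e _ ((Measurable.tsum hu).pow_const p)] at h1
  simp only [e _ ((hu _).pow_const p)] at h1
  have h2 : (∫⁻ x, w x * (∑' j, u j x) ^ p ∂μ) ^ (1 / p) ≤ K ^ (1 / p) * ∑' j, b j := by
    refine h1.trans ?_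
    rw [← ENNReal.tsum_mul_left]
    refine ENNReal.tsum_le_tsum fun j => ?_
    refine (ENNReal.rpow_le_rpow (h j) (by positivity)).trans (le_of_eq ?_)
    rw [ENNReal.mul_rpow_of_nonneg _ _ (by positivity), ← ENNReal.rpow_mul (b j),
      mul_one_div_cancel hp0.ne', ENNReal.rpow_one]
  have h3 := ENNReal.rpow_le_rpow h2 hp0.le
  rwa [← ENNReal.rpow_mul, one_div_mul_cancel hp0.ne', ENNReal.rpow_one,
    ENNReal.mul_rpow_of_nonneg _ _ hp0.le, ← ENNReal.rpow_mul, one_div_mul_cancel hp0.ne',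
    ENNReal.rpow_one] at h3

/-- **sums over directions** -/
theorem atomic {s p q : ℝ} (hs0 : 0 < s) (hs : s ≤ 1 / 2) (hp : 2 < p) (hpq : p ≤ q)
    (h : 2 * q < p * ((q - 2) * (1 + 2 * s))) :
    ∃ C : ℝ≥0∞, C ≠ ∞ ∧ ∀ (f g : ℂ → ℂ) (θ : ℕ → ℂ) (B : ℕ → ℝ → ℝ≥0∞) (G : ℕ → ℂ → ℂ) (M : ℝ≥0∞)
      (a : ℝ), Measurable f → (∀ x, x ∉ closedBall (0 : ℂ) (1 / 2) → f x = 0) → Measurable g →
      (∀ n, ‖θ n‖ = 1) → (∀ n, mixedNorm p (θ n) f ≤ M) → (∀ n, Rg s (θ n) (B n) (G n)) →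
      ∑' n, NB p (B n) ≠ ∞ → (∀ᵐ x, HasSum (fun n => G n x) (g x)) → 0 ≤ a → a ≤ 2 →
      ∫⁻ ξ : ℂ × ℝ, ‖E f ξ‖ₑ ^ a * ‖E g ξ‖ₑ ^ (q - a) ≤
        C * (M ^ a * (∑' n, NB p (B n)) ^ (q - a)) := by
  obtain ⟨C0, hC0, h0⟩ := bil3 hs0 hs hp hpq h
  set C : ℝ≥0∞ := ENNReal.ofReal |(sc ^ 3)⁻¹| * C0 with hC
  refine ⟨C, ENNReal.mul_ne_top ENNReal.ofReal_ne_top hC0, ?_⟩
  intro f g θ B G M a hf hfs hg hθ hM hG hB hsum ha0 ha2
  have hp0 : 0 < p := by linarith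
  have hq2 : 1 ≤ q - 2 := by
    have h1 : 2 < (q - 2) * (1 + 2 * s) := by
      by_contra hle
      rw [not_lt] at hle
      have : p * ((q - 2) * (1 + 2 * s)) ≤ p * 2 := by gcongr
      linarith
    by_contra hlt
    rw [not_le] at hlt
    have : (q - 2) * (1 + 2 * s) ≤ 1 * 2 := by
      refine mul_le_mul hlt.le (by linarith) (by linarith) (by norm_num)
    linarith
  have hq : 2 < q := by linarith
  set S : ℝ≥0∞ := ∑' n, NB p (B n) with hS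
  have hBn : ∀ n, ∫⁻ x, B n x ^ p ≠ ∞ := by
    intro n hT
    refine hB ?_
    refine ENNReal.tsum_eq_top_of_eq_top ⟨n, ?_⟩
    unfold NB
    rw [hT, ENNReal.top_rpow_of_pos (by positivity)]
  -- one function
  have one : ∀ n (c : ℝ), 0 ≤ c → c ≤ 2 →
      ∫⁻ ξ : ℂ × ℝ, ‖E f ξ‖ₑ ^ c * ‖E (G n) ξ‖ₑ ^ (q - c) ≤ C * (M ^ c * NB p (B n) ^ (q - c)) := by
    intro n c hc0 hc2
    rw [EE_int (hθ n) hf (hG n).meas, hC, mul_assoc]
    refine mul_le_mul_right ?_ _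
    refine (h0 _ (B n) _ c (hf.comp (fr_meas (θ n)))
      (fun x y hx => fr_supp (hθ n) hfs x y (Or.inl hx)) ((hG n).reg (hθ n)) (hBn n) hc0
      hc2).trans ?_
    gcongr
    exact hM n
  have hL1 : ∑' n, ∫⁻ x, ‖G n x‖ₑ ≠ ∞ := by
    refine ne_top_of_le_ne_top hB (ENNReal.tsum_le_tsum fun n => ?_)
    exact (hG n).L1 (by linarith) (hθ n)
  have hE := E_sum (fun n => (hG n).meas) hL1 hsum
  have hmE : ∀ n, Measurable fun ξ => ‖E (G n) ξ‖ₑ := fun n => (E_meas (hG n).meas).enorm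
  have hEf := E_meas hf
  have hEg := E_meas hg
  -- exponent two
  have e2 : ∫⁻ ξ : ℂ × ℝ, ‖E f ξ‖ₑ ^ 2 * ‖E g ξ‖ₑ ^ (q - 2) ≤ C * M ^ 2 * S ^ (q - 2) := by
    calc ∫⁻ ξ : ℂ × ℝ, ‖E f ξ‖ₑ ^ 2 * ‖E g ξ‖ₑ ^ (q - 2)
        ≤ ∫⁻ ξ : ℂ × ℝ, ‖E f ξ‖ₑ ^ 2 * (∑' n, ‖E (G n) ξ‖ₑ) ^ (q - 2) := by
          refine lintegral_mono fun ξ => mul_le_mul_right ?_ _
          exact ENNReal.rpow_le_rpow (hE ξ) (by linarith)
      _ ≤ C * M ^ 2 * S ^ (q - 2) := by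
          refine mink_w _ _ (hEf.enorm.pow_const 2) _ hq2 _ hmE _ _ fun n => ?_
          have h1 := one n 2 (by norm_num) le_rfl
          simp only [ENNReal.rpow_two] at h1
          rw [mul_assoc]
          exact h1
  have e0 : ∫⁻ ξ : ℂ × ℝ, ‖E g ξ‖ₑ ^ q ≤ C * S ^ q := by
    calc ∫⁻ ξ : ℂ × ℝ, ‖E g ξ‖ₑ ^ q
        ≤ ∫⁻ ξ : ℂ × ℝ, 1 * (∑' n, ‖E (G n) ξ‖ₑ) ^ q := by
          refine lintegral_mono fun ξ => ?_
          rw [one_mul]
          exact ENNReal.rpow_le_rpow (hE ξ) (by linarith)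
      _ ≤ C * S ^ q := by
          refine mink_w _ (fun _ => 1) measurable_const _ (by linarith) _ hmE _ _ fun n => ?_
          have h1 := one n 0 le_rfl (by norm_num)
          simp only [ENNReal.rpow_zero, one_mul, sub_zero] at h1
          simpa only [one_mul] using h1
  have hm : Measurable fun ξ => ‖E f ξ‖ₑ ^ 2 * ‖E g ξ‖ₑ ^ (q - 2) :=
    (hEf.enorm.pow_const 2).mul (hEg.enorm.pow_const _)
  have h3 := ENNReal.lintegral_mul_norm_pow_le (μ := (volume : Measure (ℂ × ℝ)))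
    (f := fun ξ => ‖E f ξ‖ₑ ^ 2 * ‖E g ξ‖ₑ ^ (q - 2)) (g := fun ξ => ‖E g ξ‖ₑ ^ q)
    hm.aemeasurable (hEg.enorm.pow_const _).aemeasurable (p := a / 2) (q := 1 - a / 2)
    (by linarith) (by linarith) (by ring)
  simp only [split_pow _ _ ha0 ha2 hq] at h3
  refine h3.trans ?_
  calc (∫⁻ ξ, ‖E f ξ‖ₑ ^ 2 * ‖E g ξ‖ₑ ^ (q - 2)) ^ (a / 2) *
        (∫⁻ ξ, ‖E g ξ‖ₑ ^ q) ^ (1 - a / 2)
      ≤ (C * M ^ 2 * S ^ (q - 2)) ^ (a / 2) * (C * S ^ q) ^ (1 - a / 2) :=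
        mul_le_mul' (ENNReal.rpow_le_rpow e2 (by linarith))
          (ENNReal.rpow_le_rpow e0 (by linarith))
    _ = C * (M ^ a * S ^ (q - a)) := by
        rw [mul_assoc C, ENNReal.mul_rpow_of_nonneg C _ (by linarith),
          ENNReal.mul_rpow_of_nonneg C _ (by linarith), ← split_pow M S ha0 ha2 hq]
        have : C ^ (a / 2) * C ^ (1 - a / 2) = C := by
          rw [← ENNReal.rpow_add_of_nonneg _ _ (by linarith) (by linarith)]
          norm_num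
        calc C ^ (a / 2) * (M ^ 2 * S ^ (q - 2)) ^ (a / 2) *
              (C ^ (1 - a / 2) * (S ^ q) ^ (1 - a / 2))
            = (C ^ (a / 2) * C ^ (1 - a / 2)) * ((M ^ 2 * S ^ (q - 2)) ^ (a / 2) *
                (S ^ q) ^ (1 - a / 2)) := by ring
          _ = _ := by rw [this]

/-- scaling of the mixed norm -/
theorem Ph_scale {κ q : ℝ} (hκ : 0 < κ) (hq : 0 < q) {V : ℝ × ℝ → ℝ≥0∞} (hV : Measurable V) :
    Ph κ q (fun τ => V (sc * τ.1, sc * τ.2)) =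
      (ENNReal.ofReal |sc⁻¹| ^ κ * ENNReal.ofReal |sc⁻¹|) ^ (1 / (κ * q)) * Ph κ q V := by
  unfold Ph
  rw [← ENNReal.mul_rpow_of_nonneg _ _ (by positivity)]
  congr 1
  have h1 : ∀ t : ℝ, ∫⁻ α : ℝ, V (sc * α, sc * t) ^ q =
      ENNReal.ofReal |sc⁻¹| * ∫⁻ α, V (α, sc * t) ^ q := fun t =>
    scale1 (fun x => V (x, sc * t) ^ q) ((hV.comp measurable_prodMk_right).pow_const q)
  have hm : Measurable fun t => (∫⁻ α, V (α, t) ^ q) ^ κ :=
    (((hV.pow_const q).comp measurable_swap).lintegral_prod_right').pow_const κ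
  simp_rw [h1, ENNReal.mul_rpow_of_nonneg _ _ hκ.le]
  rw [lintegral_const_mul' _ _ (ENNReal.rpow_ne_top_of_nonneg hκ.le ENNReal.ofReal_ne_top),
    scale1 (fun t => (∫⁻ α, V (α, t) ^ q) ^ κ) hm]
  ring

/-- the maximal estimate, with a measurable majorant -/
theorem maximal0 {s p r m σ : ℝ} (hs0 : 0 < s) (hs : s ≤ 1 / 2) (h0 : 0 ≤ σ) (hσ : σ < s)
    (hr : 2 < r) (hrm : r ≤ m) (hp : 1 ≤ p) (h1 : 1 / m + 1 / r < 1 / 2)
    (h2 : 1 / m + 1 / p < 1 / 2) :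
    ∃ C : ℝ≥0∞, C ≠ ∞ ∧ ∀ (θ : ℂ) (B : ℝ → ℝ≥0∞) (g : ℂ → ℂ), ‖θ‖ = 1 → Rg s θ B g →
      ∫⁻ x, B x ^ p ≠ ∞ → ∃ U : ℝ × ℝ → ℝ≥0∞, Measurable U ∧
        (∀ t u v : ℝ, ENNReal.ofReal ((1 + |t|) ^ σ) * ‖E g (fr θ (u, v), t)‖ₑ ≤ U (u, t)) ∧
        Ph (m / r) r U ≤ C * NB p B := by
  have hm0 : 0 < m := by linarith
  have hr0 : 0 < r := by linarith
  have hp0 : 0 < p := by linarith
  have hκ : 1 ≤ m / r := by rw [le_div_iff₀ hr0]; linarith
  have hκr : m / r * r = m := div_mul_cancel₀ m hr0.ne'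
  have hqκ : 2 < m / r * (r - 2) := by
    have e : m / r * (r - 2) = m - 2 * m * (1 / r) := by field_simp
    have e2 : m * (1 / m) = 1 := mul_one_div_cancel hm0.ne'
    rw [e]
    nlinarith
  have hpe : 1 < p * ((m / r * r / 2 - 1) / (m / r * r)) := by
    rw [hκr]
    have e : p * ((m / 2 - 1) / m) = p * (1 / 2 - 1 / m) := by field_simp
    have e2 : p * (1 / p) = 1 := mul_one_div_cancel hp0.ne'
    rw [e]
    nlinarith
  obtain ⟨C0, hC0, hV⟩ := Vm_norm hr hκ hqκ hp hpe hs hs0 hσ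
  set K : ℝ≥0∞ := (ENNReal.ofReal |sc⁻¹| ^ (m / r) * ENNReal.ofReal |sc⁻¹|) ^ (1 / (m / r * r))
    with hK
  have hKt : K ≠ ∞ := by
    rw [hK]
    refine ENNReal.rpow_ne_top_of_nonneg (by positivity) (ENNReal.mul_ne_top
      (ENNReal.rpow_ne_top_of_nonneg (by positivity) ENNReal.ofReal_ne_top) ENNReal.ofReal_ne_top)
  refine ⟨144 * (K * C0), ENNReal.mul_ne_top (by norm_num) (ENNReal.mul_ne_top hKt hC0), ?_⟩
  intro θ B g hθ hg hB
  have hreg := hg.reg hθ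
  set V := Vm σ (fun q => g (fr θ q)) with hVd
  have hVm : Measurable V := Vm_meas σ hreg.meas
  have hms : Measurable fun τ : ℝ × ℝ => V (sc * τ.1, sc * τ.2) := by
    have : Measurable fun τ : ℝ × ℝ => (sc * τ.1, sc * τ.2) := by fun_prop
    exact hVm.comp this
  refine ⟨fun τ => 144 * V (sc * τ.1, sc * τ.2), hms.const_mul _, ?_, ?_⟩
  · intro t u v
    rw [E_fr hθ]
    have h3 := Vm_bd hs0 h0 (by linarith) hreg hp hB (sc * t) (sc * u) (sc * v)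
    calc ENNReal.ofReal ((1 + |t|) ^ σ) * ‖Ef (fun p => g (fr θ p)) (sc * t, (sc * u, sc * v))‖ₑ
        ≤ ENNReal.ofReal ((1 + |t|) ^ σ) * (ENNReal.ofReal (18 * (1 / (1 + |sc * t|)) ^ σ) *
          V (sc * u, sc * t)) := by gcongr
      _ = ENNReal.ofReal ((1 + |t|) ^ σ * (18 * (1 / (1 + |sc * t|)) ^ σ)) *
          V (sc * u, sc * t) := by
          rw [← mul_assoc, ← ENNReal.ofReal_mul (by positivity)]
      _ ≤ ENNReal.ofReal 144 * V (sc * u, sc * t) := by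
          refine mul_le_mul_left (ENNReal.ofReal_le_ofReal ?_) _
          have hsc : |sc * t| = |t| / (2 * Real.pi) := by
            unfold sc
            rw [abs_mul, abs_neg, abs_of_pos (by positivity)]
            ring
          have h4 : (1 + |t|) * (1 / (1 + |sc * t|)) ≤ 8 := by
            rw [mul_one_div, div_le_iff₀ (by positivity), hsc]
            have hpi := Real.pi_lt_d2
            have hpi0 := Real.pi_pos
            have h5 : |t| / 8 ≤ |t| / (2 * Real.pi) := by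
              gcongr
              linarith
            have := abs_nonneg t
            nlinarith
          have h5 : (1 + |t|) ^ σ * (18 * (1 / (1 + |sc * t|)) ^ σ) =
              18 * ((1 + |t|) * (1 / (1 + |sc * t|))) ^ σ := by
            rw [Real.mul_rpow (by positivity) (by positivity)]
            ring
          rw [h5]
          have h6 : ((1 + |t|) * (1 / (1 + |sc * t|))) ^ σ ≤ 8 := by
            calc ((1 + |t|) * (1 / (1 + |sc * t|))) ^ σ ≤ 8 ^ σ :=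
                  Real.rpow_le_rpow (by positivity) h4 h0
              _ ≤ 8 ^ (1 : ℝ) := Real.rpow_le_rpow_of_exponent_le (by norm_num) (by linarith)
              _ = 8 := Real.rpow_one 8
          linarith
      _ = _ := by norm_num
  · have h7 := hV B _ hreg hB
    rw [Ph_const (by positivity) hr0 _ hms, Ph_scale (by positivity) hr0 hVm, ← hK]
    calc 144 * (K * Ph (m / r) r V) ≤ 144 * (K * (C0 * (∫⁻ x, B x ^ p) ^ (1 / p))) := by gcongr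
      _ = 144 * (K * C0) * NB p B := by unfold NB; ring

/-- **the maximal estimate** -/
theorem maximal {s p r m σ : ℝ} (hs0 : 0 < s) (hs : s ≤ 1 / 2) (h0 : 0 ≤ σ) (hσ : σ < s)
    (hr : 2 < r) (hrm : r ≤ m) (hp : 1 ≤ p) (h1 : 1 / m + 1 / r < 1 / 2)
    (h2 : 1 / m + 1 / p < 1 / 2) :
    ∃ C : ℝ≥0∞, C ≠ ∞ ∧ ∀ (θ : ℂ) (B : ℝ → ℝ≥0∞) (g : ℂ → ℂ), ‖θ‖ = 1 → Rg s θ B g →
      (∫⁻ t : ℝ, (∫⁻ u : ℝ, (⨆ v : ℝ, ENNReal.ofReal ((1 + |t|) ^ σ) *
        ‖E g (fr θ (u, v), t)‖ₑ) ^ r) ^ (m / r)) ^ (1 / m) ≤ C * NB p B := by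
  have hm0 : 0 < m := by linarith
  have hr0 : 0 < r := by linarith
  obtain ⟨C, hC, hmax⟩ := maximal0 hs0 hs h0 hσ hr hrm hp h1 h2
  refine ⟨C + 1, ENNReal.add_ne_top.2 ⟨hC, ENNReal.one_ne_top⟩, ?_⟩
  intro θ B g hθ hg
  by_cases hB : ∫⁻ x, B x ^ p = ∞
  · unfold NB
    rw [hB, ENNReal.top_rpow_of_pos (by positivity), ENNReal.mul_top (by simp)]
    exact le_top
  obtain ⟨U, -, hU, hUn⟩ := hmax θ B g hθ hg hB
  have hκr : m / r * r = m := div_mul_cancel₀ m hr0.ne'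
  have h8 : (∫⁻ t : ℝ, (∫⁻ u : ℝ, (⨆ v : ℝ, ENNReal.ofReal ((1 + |t|) ^ σ) *
        ‖E g (fr θ (u, v), t)‖ₑ) ^ r) ^ (m / r)) ^ (1 / m) ≤ Ph (m / r) r U := by
    unfold Ph
    rw [hκr]
    refine ENNReal.rpow_le_rpow (lintegral_mono fun t => ?_) (by positivity)
    refine ENNReal.rpow_le_rpow (lintegral_mono fun u => ?_) (by positivity)
    exact ENNReal.rpow_le_rpow (iSup_le fun v => hU t u v) hr0.le
  refine (h8.trans hUn).trans ?_
  gcongr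
  exact le_self_add

/-- the maximal estimate without weight -/
theorem maximal_simple {s q : ℝ} (hs0 : 0 < s) (hs : s ≤ 1 / 2) (hq : 2 < q)
    (h : 4 < q * (1 + 2 * s)) :
    ∃ C : ℝ≥0∞, C ≠ ∞ ∧ ∀ (θ : ℂ) (B : ℝ → ℝ≥0∞) (g : ℂ → ℂ), ‖θ‖ = 1 → Rg s θ B g →
      ∫⁻ t : ℝ, ∫⁻ u : ℝ, (⨆ v : ℝ, ‖E g (fr θ (u, v), t)‖ₑ) ^ q ≤ C * ∫⁻ a, B a ^ q := by
  have hq0 : 0 < q := by linarith
  -- the parameters
  obtain ⟨x, hx1, hx2⟩ : ∃ x, max 0 (1 - s * q) < x ∧ x < min 1 ((q - 2) / 2) := by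
    refine exists_between ?_
    rw [max_lt_iff, lt_min_iff, lt_min_iff]
    refine ⟨⟨by norm_num, by linarith⟩, ⟨?_, ?_⟩⟩
    · have : 0 < s * q := by positivity
      linarith
    · linarith
  rw [max_lt_iff] at hx1
  rw [lt_min_iff] at hx2
  obtain ⟨hx0, hxs⟩ := hx1
  obtain ⟨hx1, hxq⟩ := hx2
  obtain ⟨σ, hσ1, hσ2⟩ : ∃ σ, (1 - x) / q < σ ∧ σ < s := by
    refine exists_between ?_
    rw [div_lt_iff₀ hq0]
    linarith
  have hσ0 : 0 ≤ σ := by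
    have : 0 ≤ (1 - x) / q := by
      apply div_nonneg <;> linarith
    linarith
  rw [div_lt_iff₀ hq0] at hσ1
  set κ : ℝ := 1 / x with hκd
  have hκ : 1 < κ := by
    rw [hκd, lt_div_iff₀ hx0]
    linarith
  have hκ0 : 0 < κ := by linarith
  have hκx : 1 / κ = x := by rw [hκd, one_div_one_div]
  have h1 : 1 / (κ * q) + 1 / q < 1 / 2 := by
    have e : 1 / (κ * q) + 1 / q = (x + 1) / q := by
      rw [← hκx]
      field_simp
    rw [e, div_lt_div_iff₀ hq0 (by norm_num)]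
    linarith
  obtain ⟨C, hC, hmax⟩ := maximal0 (p := q) (r := q) (m := κ * q) hs0 hs hσ0 hσ2 hq
    (by nlinarith) (by linarith) h1 h1
  have hwf := w_fin hκ (a := σ * q) (by positivity) (by rw [hκx]; exact hσ1) 1 one_pos
  set W : ℝ≥0∞ := ∫⁻ t : ℝ, ENNReal.ofReal (1 * (1 / (1 + |t|)) ^ (σ * q)) ^ (κ / (κ - 1)) with hW
  have hκ1 : 0 < κ - 1 := by linarith
  refine ⟨W ^ (1 - 1 / κ) * C ^ q + 1, ENNReal.add_ne_top.2
    ⟨ENNReal.mul_ne_top (ENNReal.rpow_ne_top_of_nonneg ?_ hwf)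
    (ENNReal.rpow_ne_top_of_nonneg hq0.le hC), ENNReal.one_ne_top⟩, ?_⟩
  · rw [hκx]
    linarith
  intro θ B g hθ hg
  by_cases hB : ∫⁻ x, B x ^ q = ∞
  · rw [hB, ENNReal.mul_top (by simp)]
    exact le_top
  obtain ⟨U, hUm, hU, hUn⟩ := hmax θ B g hθ hg hB
  have hκq : κ * q / q = κ := mul_div_cancel_right₀ κ hq0.ne'
  rw [hκq] at hUn
  set w : ℝ → ℝ≥0∞ := fun t => ENNReal.ofReal (1 * (1 / (1 + |t|)) ^ (σ * q)) with hw
  have hwm : Measurable w := by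
    rw [hw]
    fun_prop
  set Q : ℝ → ℝ≥0∞ := fun t => ∫⁻ u, U (u, t) ^ q with hQ
  have hQm : Measurable Q := ((hUm.pow_const q).comp measurable_swap).lintegral_prod_right'
  have hpt : ∀ t u : ℝ, (⨆ v : ℝ, ‖E g (fr θ (u, v), t)‖ₑ) ^ q ≤ w t * U (u, t) ^ q := by
    intro t u
    have h2 : (⨆ v : ℝ, ‖E g (fr θ (u, v), t)‖ₑ) ≤
        ENNReal.ofReal ((1 / (1 + |t|)) ^ σ) * U (u, t) := by
      refine iSup_le fun v => ?_
      have h3 := hU t u v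
      have h4 : ENNReal.ofReal ((1 / (1 + |t|)) ^ σ) * ENNReal.ofReal ((1 + |t|) ^ σ) = 1 := by
        rw [← ENNReal.ofReal_mul (by positivity), ← Real.mul_rpow (by positivity) (by positivity),
          one_div_mul_cancel (by positivity), Real.one_rpow, ENNReal.ofReal_one]
      calc ‖E g (fr θ (u, v), t)‖ₑ = ENNReal.ofReal ((1 / (1 + |t|)) ^ σ) *
            (ENNReal.ofReal ((1 + |t|) ^ σ) * ‖E g (fr θ (u, v), t)‖ₑ) := by
            rw [← mul_assoc, h4, one_mul]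
        _ ≤ _ := by gcongr
    refine (ENNReal.rpow_le_rpow h2 hq0.le).trans (le_of_eq ?_)
    rw [ENNReal.mul_rpow_of_nonneg _ _ hq0.le]
    congr 1
    rw [ENNReal.ofReal_rpow_of_nonneg (by positivity) hq0.le, ← Real.rpow_mul (by positivity)]
    show _ = ENNReal.ofReal (1 * (1 / (1 + |t|)) ^ (σ * q))
    rw [one_mul]
  calc ∫⁻ t : ℝ, ∫⁻ u : ℝ, (⨆ v : ℝ, ‖E g (fr θ (u, v), t)‖ₑ) ^ q
      ≤ ∫⁻ t : ℝ, ∫⁻ u : ℝ, w t * U (u, t) ^ q :=
        lintegral_mono fun t => lintegral_mono fun u => hpt t u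
    _ = ∫⁻ t : ℝ, (w t ^ (κ / (κ - 1))) ^ (1 - 1 / κ) * (Q t ^ κ) ^ (1 / κ) := by
        refine lintegral_congr fun t => ?_
        have hmu : Measurable fun u => U (u, t) ^ q :=
          (hUm.comp measurable_prodMk_right).pow_const q
        rw [lintegral_const_mul _ hmu, ← ENNReal.rpow_mul, ← ENNReal.rpow_mul,
          show κ / (κ - 1) * (1 - 1 / κ) = 1 by field_simp,
          show κ * (1 / κ) = 1 by field_simp, ENNReal.rpow_one, ENNReal.rpow_one]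
    _ ≤ W ^ (1 - 1 / κ) * (∫⁻ t, Q t ^ κ) ^ (1 / κ) := by
        refine ENNReal.lintegral_mul_norm_pow_le (hwm.pow_const _).aemeasurable
          (hQm.pow_const _).aemeasurable ?_ (by positivity) (by ring)
        rw [hκx]
        linarith
    _ = W ^ (1 - 1 / κ) * Ph κ q U ^ q := by
        unfold Ph
        rw [← ENNReal.rpow_mul]
        congr 2
        field_simp
    _ ≤ W ^ (1 - 1 / κ) * (C * NB q B) ^ q := by
        gcongr
    _ = W ^ (1 - 1 / κ) * C ^ q * ∫⁻ a, B a ^ q := by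
        unfold NB
        rw [ENNReal.mul_rpow_of_nonneg _ _ hq0.le, ← ENNReal.rpow_mul,
          one_div_mul_cancel hq0.ne', ENNReal.rpow_one, mul_assoc]
    _ ≤ _ := by
        gcongr
        exact le_self_add

end H26.MX
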