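import Mathlib
import Pool.Agent.H26.MX.M9
set_option autoImplicit false

/-! Functions of bounded variation on lines are regular of order one half. -/

namespace H26.MX

open MeasureTheory Complex Set Filter Topology Metric
open scoped ENNReal

theorem var_tsum (u : ℝ → ℂ) {h : ℝ} (hh : 0 < h) (y : ℝ) :
    ∑' n : ℤ, ‖u (y + n • h + h) - u (y + n • h)‖ₑ ≤ eVariationOn u univ := by
  rw [ENNReal.tsum_eq_iSup_sum]
  refine iSup_le fun s => ?_
  obtain ⟨N, hN⟩ : ∃ N : ℕ, ∀ n ∈ s, n.natAbs < N := by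
    refine ⟨∑ n ∈ s, n.natAbs + 1, fun n hn => ?_⟩
    exact Nat.lt_succ_of_le (Finset.single_le_sum (f := fun n : ℤ => n.natAbs)
      (fun i _ => Nat.zero_le _) hn)
  have hsub : s ⊆ (Finset.range (2 * N)).image (fun i : ℕ => (i : ℤ) - N) := by
    intro n hn
    have h1 := hN n hn
    rw [Finset.mem_image]
    refine ⟨(n + N).toNat, ?_, ?_⟩
    · rw [Finset.mem_range]
      omega
    · omega
  refine (Finset.sum_le_sum_of_subset hsub).trans ?_
  rw [Finset.sum_image (fun i _ j _ hij => by simpa using hij)]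
  have h2 := eVariationOn.sum_le (f := u) (s := univ) (n := 2 * N)
    (u := fun i : ℕ => y + ((i : ℤ) - (N : ℤ)) • h) (by
      intro i j hij
      simp only [zsmul_eq_mul]
      push_cast
      have : (i : ℝ) ≤ j := by exact_mod_cast hij
      nlinarith) (fun i => mem_univ _)
  refine le_trans (le_of_eq (Finset.sum_congr rfl fun i _ => ?_)) h2
  rw [edist_eq_enorm_sub]
  congr 3
  simp only [zsmul_eq_mul]
  push_cast
  ring

theorem var_shift (u : ℝ → ℂ) (hu : Measurable u) {h : ℝ} (hh : 0 < h) :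
    ∫⁻ y, ‖u (y + h) - u y‖ₑ ≤ ENNReal.ofReal h * eVariationOn u univ := by
  have hφ : Measurable fun y => ‖u (y + h) - u y‖ₑ :=
    ((hu.comp (measurable_add_const h)).sub hu).enorm
  have h1 : ∫⁻ y, ‖u (y + h) - u y‖ₑ =
      ∑' n : ℤ, ∫⁻ y in Ioc (n • h) ((n + 1) • h), ‖u (y + h) - u y‖ₑ := by
    rw [← lintegral_iUnion (fun n => measurableSet_Ioc) (pairwise_disjoint_Ioc_zsmul h),
      iUnion_Ioc_zsmul hh, setLIntegral_univ]
  have h2 : ∀ n : ℤ, ∫⁻ y in Ioc (n • h) ((n + 1) • h), ‖u (y + h) - u y‖ₑ =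
      ∫⁻ y in Ioc 0 h, ‖u (y + n • h + h) - u (y + n • h)‖ₑ := by
    intro n
    rw [← lintegral_indicator measurableSet_Ioc, ← lintegral_indicator measurableSet_Ioc,
      ← lintegral_add_right_eq_self _ (n • h)]
    refine lintegral_congr fun y => ?_
    have e : (n + 1) • h = n • h + h := by rw [add_smul, one_smul]
    by_cases hy : y ∈ Ioc 0 h
    · rw [indicator_of_mem hy, indicator_of_mem (show y + n • h ∈ Ioc (n • h) ((n + 1) • h) from
        ⟨by linarith [hy.1], by rw [e]; linarith [hy.2]⟩)]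
    · rw [indicator_of_notMem hy, indicator_of_notMem fun hc => hy
        ⟨by linarith [hc.1], by have := hc.2; rw [e] at this; linarith⟩]
  rw [h1]
  simp_rw [h2]
  rw [← lintegral_tsum]
  · calc ∫⁻ y in Ioc 0 h, ∑' n : ℤ, ‖u (y + n • h + h) - u (y + n • h)‖ₑ
        ≤ ∫⁻ _y in Ioc 0 h, eVariationOn u univ := lintegral_mono fun y => var_tsum u hh y
      _ = _ := by
        rw [setLIntegral_const, Real.volume_Ioc, sub_zero, mul_comm]
  · intro n
    exact (hφ.comp (measurable_add_const (n • h))).aemeasurable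

/-- bounded variation on lines implies regularity of order one half -/
theorem Rg_of_var {θ : ℂ} (hθ : ‖θ‖ = 1) {B : ℝ → ℝ≥0∞} {g : ℂ → ℂ} (hg : Measurable g)
    (hs : ∀ x, x ∉ closedBall (0 : ℂ) (1 / 2) → g x = 0)
    (hv : ∀ᵐ a : ℝ, eVariationOn (fun b : ℝ => g (fr θ (a, b))) univ ≤ B a) :
    Rg (1 / 2) θ B g := by
  have hmu : ∀ a : ℝ, Measurable fun b : ℝ => g (fr θ (a, b)) := fun a =>
    (hg.comp (fr_meas θ)).comp measurable_prodMk_left
  refine ⟨hg, hs, ?_, ?_⟩
  · filter_upwards [hv] with a ha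
    have h1 : ∀ b : ℝ, ‖g (fr θ (a, b))‖ₑ ≤ B a := by
      intro b
      have h2 := eVariationOn.edist_le (fun b : ℝ => g (fr θ (a, b))) (mem_univ b)
        (mem_univ (2 : ℝ))
      have h3 : g (fr θ (a, 2)) = 0 :=
        fr_supp hθ hs a 2 (Or.inr fun hc => by have := hc.2; norm_num at this)
      rw [h3, edist_eq_enorm_sub, sub_zero] at h2
      exact h2.trans ha
    calc ∫⁻ b : ℝ, ‖g (fr θ (a, b))‖ₑ ^ 2 ≤ ∫⁻ b : ℝ, Ib.indicator (fun _ => B a ^ 2) b := by
          refine lintegral_mono fun b => ?_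
          by_cases hb : b ∈ Ib
          · rw [indicator_of_mem hb]
            exact pow_le_pow_left' (h1 b) 2
          · rw [indicator_of_notMem hb, fr_supp hθ hs a b (Or.inr hb), enorm_zero]
            norm_num
      _ = B a ^ 2 * volume Ib := by
          rw [lintegral_indicator measurableSet_Icc, setLIntegral_const]
      _ ≤ B a ^ 2 * 1 := by
          gcongr
          exact Pool.Agent.K4H66.RV.volA (le_refl Ib)
      _ = _ := mul_one _
  · filter_upwards [hv] with a ha h hh
    set u : ℝ → ℂ := fun b => g (fr θ (a, b)) with hu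
    have h1 : ∀ b : ℝ, ‖u (b + h) - u b‖ₑ ≤ B a := by
      intro b
      have h2 := eVariationOn.edist_le u (mem_univ (b + h)) (mem_univ b)
      rw [edist_eq_enorm_sub] at h2
      exact h2.trans ha
    have h3 := var_shift u (hmu a) hh.1
    have hm : Measurable fun b => ‖u (b + h) - u b‖ₑ :=
      (((hmu a).comp (measurable_add_const h)).sub (hmu a)).enorm
    calc ∫⁻ b : ℝ, ‖u (b + h) - u b‖ₑ ^ 2 ≤ ∫⁻ b : ℝ, B a * ‖u (b + h) - u b‖ₑ := by
          refine lintegral_mono fun b => ?_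
          rw [sq]
          gcongr
          exact h1 b
      _ = B a * ∫⁻ b : ℝ, ‖u (b + h) - u b‖ₑ := by rw [lintegral_const_mul _ hm]
      _ ≤ B a * (ENNReal.ofReal h * B a) := by
          gcongr
          exact h3.trans (by gcongr)
      _ = B a ^ 2 * ENNReal.ofReal (h ^ (2 * (1 / 2 : ℝ))) := by
          rw [show (2 * (1 / 2) : ℝ) = 1 by norm_num, Real.rpow_one]
          ring

end H26.MX
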